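import Pool.Agent.Helper1.Stab.T.Sys2
import Pool.Agent.Helper84.Int.Lev
import Pool.Agent.Helper1.Stab.RetractSHC

/-! Project T: the final theorem. -/

open CategoryTheory Topology Filter Set Opposite

noncomputable section

namespace Pool.Agent.Helper1.Stab

open Pool.Agent.Helper84.Int

/-- `MUP` is a retract of a sum of shifts of `S'` -/
def Fullness : Prop :=
  ∀ {k : ℕ} {g : GenLoop (Fin 4) (Gr {1} k) (Gr.pt {1} k)} (_ : IsBottProduct (loopGK (loopToU g)))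
    (A : TE g), ∃ (ι : Type) (_ : Countable ι) (p : ι → Bool) (Y : ι → GF) (B : GF)
      (_ : IsSum Y B), (∀ a, Nonempty (Y a ≅ par A.S'.biv.gf (p a))) ∧ Helper84.Int.Ret (hP.obj MUP) B

/-- the sum of countably many copies of `MUP` -/
theorem exists_wedge_sum : Nonempty (IsSum (fun _ : ℕ => hP.obj MUP)
    (hP.obj (wedge fun _ : ℕ => MUP))) := by
  obtain ⟨S, -, -, -⟩ := hP_wedge' (fun _ : ℕ => MUP) (fun _ => t1_MUP)
  exact ⟨S⟩

/-- `SBSU g` is a countable wedge of copies of `MUP` for a Bott product `g`. -/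
theorem wedge_chain (hF : Fullness) {k : ℕ} (g : GenLoop (Fin 4) (Gr {1} k) (Gr.pt {1} k))
    (hg : IsBottProduct (loopGK (loopToU g))) :
    Nonempty (hP.obj (SBSU g) ≅ hP.obj (wedge fun _ : ℕ => MUP)) := by
  obtain ⟨A⟩ := exists_TE g hg
  obtain ⟨sI⟩ := A.S_iso
  obtain ⟨ι, hι, p, Y, B, TB, hY, hMB⟩ := hF hg A
  obtain ⟨Z, i, r, h1, h0, hf, eZ⟩ := A.exists_data
  obtain ⟨TA⟩ := exists_wedge_sum
  obtain ⟨G, hG, w, hw⟩ := hasModel_SBSU g
  have hS : HasLevels A.S.biv.gf := (hasLevels_of_model hG w hw).of_iso sI.symm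
  have hSA : Helper84.Int.Ret A.S.biv.gf (hP.obj (wedge fun _ : ℕ => MUP)) := by
    obtain ⟨ι', hι', A0, TA0, i0, r0, h⟩ := retract_chain g hg
    obtain ⟨φ, hφ⟩ := hι'.exists_injective_nat
    exact (Helper84.Int.Ret.of_iso sI).trans (Helper84.Int.Ret.trans ⟨i0, r0, h⟩ (sub_sum TA φ hφ TA0))
  obtain ⟨e⟩ := final_algebra hS i r h1 h0 hf eZ TA hSA p hY TB hMB
  exact ⟨sI.symm ≪≫ e⟩

/-- The final statement. -/
def WedgeSHC : Prop :=
  ∀ (k : ℕ) (f : GenLoop (Fin 4) (Gr {1} k) (Gr.pt {1} k)), Generates f →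
    ∃ m : ℤ, (∀ a b, Function.Bijective fun x : (piS a b).obj MUP => m • x) ∧
      ∃ q : spec (SBSU f) ⟶ spec (wedge fun _ : ℕ => MUP),
        ∀ a b, IsLocalizedModule (Submonoid.powers m) ((piSHC a b).map q).hom.toIntLinearMap

theorem wedgeSHC (hF : Fullness) : WedgeSHC := by
  intro k f hf
  obtain ⟨k', g, hg⟩ := exists_bottProduct
  obtain ⟨m, hm⟩ := hf (hclass (toBGLoop g))
  obtain ⟨q, hq⟩ := tele_pow (D := {1}) (Or.inr rfl) (d := 3) (by decide) f g m hm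
  obtain ⟨ε⟩ := wedge_chain hF g hg
  refine ⟨m, fun a b => bij_of_inv (unit_chain f g hg m hm) a b, ?_⟩
  obtain ⟨G, hG, w, hw⟩ := hasModel_SBSU f
  have iw : IsIso (hP.map w) := (stableEquiv_iff w).1 hw
  have iw' : IsIso (stableEquiv.Q.map w) := isIso_Q hw
  obtain ⟨Ψ, hΨ, -⟩ := realises_compact hG (wedge fun _ : ℕ => MUP) (hP.map w ≫ q ≫ ε.hom)
  refine ⟨inv (stableEquiv.Q.map w) ≫ Ψ, fun a b => loc_of_sphLoc _ ?_ a b⟩
  have h6 : Stab.hm (inv (stableEquiv.Q.map w) ≫ Ψ) = q ≫ ε.hom := by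
    rw [hm_comp]
    refine hm_inv_comp (stableEquiv.Q.map w) _ _ ?_
    rw [hΨ, hm_Q]
    rfl
  rw [h6]
  intro b a
  have i1 : IsIso ((GF.ev b (Test.R a)).map ε.hom) := inferInstance
  refine isLoc_congr (Iso.refl _) (asIso ((GF.ev b (Test.R a)).map ε.hom))
    (f := (GF.ev b (Test.R a)).map q) ?_ (hq b (Test.R a))
  rw [Iso.refl_hom, asIso_hom]
  refine Eq.trans ?_ (Category.id_comp _).symm
  exact ((GF.ev b (Test.R a)).map_comp q ε.hom).symm

end Pool.Agent.Helper1.Stab
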