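import Pool.Agent.Helper1.Stab.T.Op
import Pool.Agent.Helper8.Stab.MulExt
import Pool.Agent.Helper5.Stab.GC

/-! Project T, layer 1: multiplicative classes of bundles, good predicates. -/

open CategoryTheory Topology Filter Set Opposite

noncomputable section

namespace Pool.Agent.Helper1.Stab

open Pool.Agent.Helper63.Stab (jh)

/-- A multiplicative class of bundles in `R`. -/
structure GCls (R : Biv) where
  g : ∀ (κ : Type) [Fintype κ], R.Hom (LC.G κ) LC.point
  g_base : ∀ (κ : Type) [Fintype κ],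
    R.comp (R.J (PMap.ofPoint (K := LC.G κ) (GK.base κ))) (g κ) = R.J (PMap.id LC.point)
  g_reindex : ∀ {κ l : Type} [Fintype κ] [Fintype l] (e : κ ≃ l),
    R.comp (R.J (PMap.ofHomeo (K := LC.G κ) (L := LC.G l) (GK.reindex e))) (g l) = g κ
  g_sum : ∀ (κ l : Type) [Fintype κ] [Fintype l],
    R.comp (R.J (GK.sumMap κ l)) (g (κ ⊕ l)) =
      R.comp (R.comp (R.tens (g κ) (LC.G l)) (R.ltens LC.point (g l)))
        (R.J (PMap.ofHomeo (Homeomorph.prodPUnit LC.point : LC.point.prod LC.point ≃ₜ LC.point)))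

/-- the theory with these classes -/
def GCls.gbiv {R : Biv} (c : GCls R) : GBiv :=
  { R with g := c.g, g_base := c.g_base, g_reindex := c.g_reindex, g_sum := c.g_sum }

/-- the class of a theory over `S[BU]` -/
def GBiv.cls (G : GBiv) : GCls G.toBiv := ⟨G.g, G.g_base, G.g_reindex, G.g_sum⟩

theorem GBiv.cls_gbiv (G : GBiv) : G.cls.gbiv = G := rfl

/-- the image of a class under a morphism -/
def GCls.map {R T : Biv} (c : GCls R) (F : BivHom R T) : GCls T where
  g κ _ := F.F (c.g κ)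
  g_base κ _ := by rw [← F.J, ← F.comp, c.g_base, F.J]
  g_reindex e := by rw [← F.J, ← F.comp, c.g_reindex]
  g_sum κ l _ _ := by
    rw [← F.J, ← F.comp, c.g_sum, F.comp, F.comp, F.J, F.tens, F.ltens]

/-- the product of classes over a space -/
def Biv.mulc (R : Biv) {K : LC} (x y : R.Hom K LC.point) : R.Hom K LC.point :=
  R.comp (R.J (graph (X := K) (L := K) (fun k => k) continuous_id))
    (R.comp (R.comp (R.tens x K) (R.ltens LC.point y)) (R.J (PMap.ofHomeo (LC.lunit LC.point))))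

theorem GBiv.mul_eq (G : GBiv) {K : LC} [CompactSpace K] (x y : G.Hom K LC.point) :
    G.mul x y = G.toBiv.mulc x y := rfl

/-- (GM) the product of two multiplicative classes is multiplicative -/
theorem GCls.mul_aux {R : Biv} (c d : GCls R) :
    (∀ (κ : Type) [Fintype κ], R.comp (R.J (PMap.ofPoint (K := LC.G κ) (GK.base κ)))
      (R.mulc (c.g κ) (d.g κ)) = R.J (PMap.id LC.point)) ∧
    (∀ {κ l : Type} [Fintype κ] [Fintype l] (e : κ ≃ l),
      R.comp (R.J (PMap.ofHomeo (K := LC.G κ) (L := LC.G l) (GK.reindex e)))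
        (R.mulc (c.g l) (d.g l)) = R.mulc (c.g κ) (d.g κ)) ∧
    (∀ (κ l : Type) [Fintype κ] [Fintype l],
      R.comp (R.J (GK.sumMap κ l)) (R.mulc (c.g (κ ⊕ l)) (d.g (κ ⊕ l))) =
        R.comp (R.comp (R.tens (R.mulc (c.g κ) (d.g κ)) (LC.G l))
          (R.ltens LC.point (R.mulc (c.g l) (d.g l))))
        (R.J (PMap.ofHomeo (Homeomorph.prodPUnit LC.point :
          LC.point.prod LC.point ≃ₜ LC.point)))) := by
  refine ⟨fun κ _ => ?_, fun {κ l} _ _ e => ?_, fun κ l _ _ => ?_⟩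
  · refine (Helper37.Stab.mulB_pre R _ _ _).trans ?_
    rw [c.g_base, d.g_base]
    exact Helper37.Stab.mulB_one R (K := LC.point) _
  · refine (Helper37.Stab.mulB_pre R _ _ _).trans ?_
    rw [c.g_reindex, d.g_reindex]
    rfl
  · refine (Helper37.Stab.mulB_pre R _ _ _).trans ?_
    rw [c.g_sum, d.g_sum, Helper8.Stab.J_punit]
    exact Helper8.Stab.mulB_ext c.gbiv (c.g κ) (d.g κ) (c.g l) (d.g l)

/-- the product of two multiplicative classes -/
def GCls.mul {R : Biv} (c d : GCls R) : GCls R where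
  g κ _ := R.mulc (c.g κ) (d.g κ)
  g_base κ _ := (GCls.mul_aux c d).1 κ
  g_reindex e := (GCls.mul_aux c d).2.1 e
  g_sum κ l _ _ := (GCls.mul_aux c d).2.2 κ l

/-- (GT) the trivial class is multiplicative -/
theorem GCls.triv_aux (R : Biv) (κ l : Type) [Fintype κ] [Fintype l] :
    R.comp (R.J (GK.sumMap κ l)) (R.J (PMap.toPoint (LC.G (κ ⊕ l)))) =
      R.comp (R.comp (R.tens (R.J (PMap.toPoint (LC.G κ))) (LC.G l))
        (R.ltens LC.point (R.J (PMap.toPoint (LC.G l)))))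
        (R.J (PMap.ofHomeo (Homeomorph.prodPUnit LC.point :
          LC.point.prod LC.point ≃ₜ LC.point))) := by
  rw [← R.J_comp]
  exact (Helper8.Stab.ext_one R (LC.G κ) (LC.G l)).symm

/-- the trivial class -/
def GCls.triv (R : Biv) : GCls R where
  g κ _ := R.J (PMap.toPoint (LC.G κ))
  g_base κ _ := by
    rw [← R.J_comp]
    rfl
  g_reindex e := by
    rw [← R.J_comp]
    rfl
  g_sum κ l _ _ := GCls.triv_aux R κ l

/-- (BM) bundle classes under morphisms, and for products and the trivial class -/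
theorem GCls.map_bun {R T : Biv} (c : GCls R) (F : BivHom R T) {K : LC} [CompactSpace K]
    {S : Type} [Fintype S] {n : ℕ} (E : C(K, Pr S n)) :
    F.F (c.gbiv.bun E) = (c.map F).gbiv.bun E := by
  unfold GBiv.bun
  by_cases h : n ≤ Fintype.card S
  · rw [dif_pos h, dif_pos h]
    exact F.ntr.pre (PMap.ofCont (K := K) (L := LC.G S)
      (fun k => Pr.toG (exists_compl h).choose (exists_compl h).choose_spec (E k))
      ((Pr.continuous_toG _ _).comp E.continuous)) (c.g S)
  · rw [dif_neg h, dif_neg h]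
    exact F.map_zero K LC.point

theorem GCls.mul_bun {R : Biv} (c d : GCls R) {K : LC} [CompactSpace K]
    {S : Type} [Fintype S] {n : ℕ} (hn : n ≤ Fintype.card S) (E : C(K, Pr S n)) :
    (c.mul d).gbiv.bun E = R.mulc (c.gbiv.bun E) (d.gbiv.bun E) := by
  unfold GBiv.bun
  rw [dif_pos hn, dif_pos hn, dif_pos hn]
  exact Pool.Agent.Helper37.Stab.mulB_pre R
    (PMap.ofCont (K := K) (L := LC.G S)
      (fun k => Pr.toG (exists_compl hn).choose (exists_compl hn).choose_spec (E k))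
      ((Pr.continuous_toG _ _).comp E.continuous)) (c.g S) (d.g S)

theorem GCls.triv_bun (R : Biv) {K : LC} [CompactSpace K]
    {S : Type} [Fintype S] {n : ℕ} (hn : n ≤ Fintype.card S) (E : C(K, Pr S n)) :
    (GCls.triv R).gbiv.bun E = R.J (PMap.toPoint K) := by
  unfold GBiv.bun
  rw [dif_pos hn]
  exact (R.J_comp (PMap.ofCont (K := K) (L := LC.G S)
      (fun k => Pr.toG (exists_compl hn).choose (exists_compl hn).choose_spec (E k))
      ((Pr.continuous_toG _ _).comp E.continuous)) (PMap.toPoint (LC.G S))).symm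

theorem BivHom.mulc {R T : Biv} (F : BivHom R T) {K : LC} (x y : R.Hom K LC.point) :
    F.F (R.mulc x y) = T.mulc (F.F x) (F.F y) := by
  unfold Biv.mulc
  rw [F.comp, F.J, F.comp, F.comp, F.tens, F.ltens, F.J]

/-- the class of the complement of the tautological line under a morphism -/
theorem GCls.map_cotaut90 {R T : Biv} (c : GCls R) (F : BivHom R T) (S : Type) [Fintype S] :
    F.F (c.gbiv.cotaut S) = (c.map F).gbiv.cotaut S := by
  unfold GBiv.cotaut
  by_cases h : 1 ≤ Fintype.card S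
  · rw [dif_pos h, dif_pos h]
    exact c.map_bun F _
  · rw [dif_neg h, dif_neg h]
    exact F.map_zero _ _

/-- rearrangement of four factors -/
theorem Biv.mulc_four90 (R : Biv) {K : LC} [CompactSpace K] (a b c d : R.Hom K LC.point) :
    R.mulc (R.mulc a b) (R.mulc c d) = R.mulc (R.mulc a c) (R.mulc b d) := by
  have hc : ∀ x y : R.Hom K LC.point, R.mulc x y = R.mulc y x :=
    Pool.Agent.Helper37.Stab.mulB_comm R
  have ha : ∀ x y z : R.Hom K LC.point, R.mulc (R.mulc x y) z = R.mulc x (R.mulc y z) :=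
    Pool.Agent.Helper37.Stab.mulB_assoc R
  rw [ha, ← ha b c d, hc b c, ha c b d, ← ha a c]

/-- the class of the complement of the tautological line for a product -/
theorem GCls.mul_cotaut90 {R : Biv} (c d : GCls R) (S : Type) [Fintype S]
    (h : 1 ≤ Fintype.card S) :
    (c.mul d).gbiv.cotaut S = R.mulc (c.gbiv.cotaut S) (d.gbiv.cotaut S) := by
  unfold GBiv.cotaut
  rw [dif_pos h, dif_pos h, dif_pos h]
  exact c.mul_bun d (Nat.sub_le _ _) _

theorem GCls.map_theta {R T : Biv} (c : GCls R) (F : BivHom R T) (S S' : Type) [Fintype S]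
    [Fintype S'] : F.F (c.gbiv.theta S S') = (c.map F).gbiv.theta S S' := by
  unfold GBiv.theta
  refine (F.mulc _ _).trans ?_
  refine congrArg₂ (fun x y => T.mulc (K := (LC.Pr S 1).prod (LC.Pr S' 1)) x y) ?_ ?_
  · refine (F.mulc _ _).trans ?_
    refine congrArg₂ (fun x y => T.mulc (K := (LC.Pr S 1).prod (LC.Pr S' 1)) x y) ?_ ?_
    · exact c.map_bun F _
    · exact (F.ntr.pre (PMap.ofCont (K := (LC.Pr S 1).prod (LC.Pr S' 1)) (L := LC.Pr S 1)
        Prod.fst continuous_fst) (c.gbiv.cotaut S)).trans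
        (congrArg (fun y => T.comp (T.J (PMap.ofCont (K := (LC.Pr S 1).prod (LC.Pr S' 1))
          (L := LC.Pr S 1) Prod.fst continuous_fst)) y) (c.map_cotaut90 F S))
  · exact (F.ntr.pre (PMap.ofCont (K := (LC.Pr S 1).prod (LC.Pr S' 1)) (L := LC.Pr S' 1)
      Prod.snd continuous_snd) (c.gbiv.cotaut S')).trans
      (congrArg (fun y => T.comp (T.J (PMap.ofCont (K := (LC.Pr S 1).prod (LC.Pr S' 1))
        (L := LC.Pr S' 1) Prod.snd continuous_snd)) y) (c.map_cotaut90 F S'))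

theorem GCls.mul_theta {R : Biv} (c d : GCls R) (S S' : Type) [Fintype S] [Fintype S'] :
    (c.mul d).gbiv.theta S S' = R.mulc (c.gbiv.theta S S') (d.gbiv.theta S S') := by
  by_cases hS : 1 ≤ Fintype.card S
  swap
  · haveI : IsEmpty ((LC.Pr S 1).prod (LC.Pr S' 1)) := by
      exact ⟨fun x => hS (Pr.le_card x.1)⟩
    exact GBiv.eq_of_isEmpty54 c.gbiv _ _
  by_cases hS' : 1 ≤ Fintype.card S'
  swap
  · haveI : IsEmpty ((LC.Pr S 1).prod (LC.Pr S' 1)) := by
      exact ⟨fun x => hS' (Pr.le_card x.2)⟩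
    exact GBiv.eq_of_isEmpty54 c.gbiv _ _
  have hSS : 1 ≤ Fintype.card (S × S') := by
    rw [Fintype.card_prod]
    exact Nat.mul_pos hS hS'
  have hpre1 := Pool.Agent.Helper37.Stab.mulB_pre R
    (PMap.ofCont (K := (LC.Pr S 1).prod (LC.Pr S' 1)) (L := LC.Pr S 1)
        Prod.fst continuous_fst) (c.gbiv.cotaut S) (d.gbiv.cotaut S)
  have hpre2 := Pool.Agent.Helper37.Stab.mulB_pre R
    (PMap.ofCont (K := (LC.Pr S 1).prod (LC.Pr S' 1)) (L := LC.Pr S' 1)
        Prod.snd continuous_snd) (c.gbiv.cotaut S') (d.gbiv.cotaut S')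
  unfold GBiv.theta
  refine Eq.trans ?_ (R.mulc_four90 (K := (LC.Pr S 1).prod (LC.Pr S' 1)) _ _ _ _)
  refine congrArg₂ (fun x y => R.mulc (K := (LC.Pr S 1).prod (LC.Pr S' 1)) x y) ?_ ?_
  · refine Eq.trans ?_ (R.mulc_four90 (K := (LC.Pr S 1).prod (LC.Pr S' 1)) _ _ _ _)
    refine congrArg₂ (fun x y => R.mulc (K := (LC.Pr S 1).prod (LC.Pr S' 1)) x y) ?_ ?_
    · exact c.mul_bun d hSS _
    · rw [c.mul_cotaut90 d S hS]
      exact hpre1
  · rw [c.mul_cotaut90 d S' hS']
    exact hpre2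

theorem GBiv.mul_cotaut_taut (R : GBiv) (S : Type) [Fintype S] (h : 1 ≤ Fintype.card S) :
    R.mul (K := LC.Pr S 1) (R.cotaut S) (R.taut S) = R.one (LC.Pr S 1) := by
  unfold GBiv.cotaut
  rw [dif_pos h, R.mul_comm]
  exact R.bun_perp (K := LC.Pr S 1) (by omega) (ContinuousMap.id _)

theorem GBiv.mul_cotaut_taut_pre (R : GBiv) {K : LC} [CompactSpace K] (S : Type) [Fintype S]
    (h : 1 ≤ Fintype.card S) (f : C(K, LC.Pr S 1)) :
    R.mul (R.comp (R.J (PMap.ofCont (K := K) (L := LC.Pr S 1) f f.continuous)) (R.cotaut S))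
      (R.comp (R.J (PMap.ofCont (K := K) (L := LC.Pr S 1) f f.continuous)) (R.taut S)) =
      R.one K := by
  refine (R.mul_pre (L := LC.Pr S 1) f (R.cotaut S) (R.taut S)).symm.trans ?_
  rw [R.mul_cotaut_taut S h]
  unfold GBiv.one
  rw [← R.J_comp]
  rfl

/-- (TF) the class `θ` times the classes of the two lines is the class of the tensor product -/
theorem GCls.theta_mul_taut {R : Biv} (c : GCls R) (S S' : Type) [Fintype S] [Fintype S'] :
    R.mulc (R.mulc (c.gbiv.theta S S')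
      (R.comp (R.J (PMap.ofCont (K := (LC.Pr S 1).prod (LC.Pr S' 1)) (L := LC.Pr S 1)
        Prod.fst continuous_fst)) (c.gbiv.taut S)))
      (R.comp (R.J (PMap.ofCont (K := (LC.Pr S 1).prod (LC.Pr S' 1)) (L := LC.Pr S' 1)
        Prod.snd continuous_snd)) (c.gbiv.taut S')) =
      c.gbiv.bun (K := (LC.Pr S 1).prod (LC.Pr S' 1)) ⟨Pr.tensor, Pr.continuous_tensor⟩ := by
  by_cases hS : 1 ≤ Fintype.card S
  · by_cases hS' : 1 ≤ Fintype.card S'
    · have h1 := c.gbiv.mul_cotaut_taut_pre (K := (LC.Pr S 1).prod (LC.Pr S' 1)) S hS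
        ⟨Prod.fst, continuous_fst⟩
      have h2 := c.gbiv.mul_cotaut_taut_pre (K := (LC.Pr S 1).prod (LC.Pr S' 1)) S' hS'
        ⟨Prod.snd, continuous_snd⟩
      change c.gbiv.mul (K := (LC.Pr S 1).prod (LC.Pr S' 1))
        (c.gbiv.mul (K := (LC.Pr S 1).prod (LC.Pr S' 1)) (c.gbiv.theta S S') _) _ = _
      unfold GBiv.theta
      generalize c.gbiv.bun (K := (LC.Pr S 1).prod (LC.Pr S' 1))
        ⟨Pr.tensor, Pr.continuous_tensor⟩ = T at *
      change c.gbiv.mul (K := (LC.Pr S 1).prod (LC.Pr S' 1))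
        (c.gbiv.comp (c.gbiv.J (PMap.ofCont (K := (LC.Pr S 1).prod (LC.Pr S' 1)) (L := LC.Pr S 1)
        Prod.fst continuous_fst)) (c.gbiv.cotaut S)) (c.gbiv.comp (c.gbiv.J (PMap.ofCont (K := (LC.Pr S 1).prod (LC.Pr S' 1)) (L := LC.Pr S 1)
        Prod.fst continuous_fst)) (c.gbiv.taut S)) = _ at h1
      change c.gbiv.mul (K := (LC.Pr S 1).prod (LC.Pr S' 1))
        (c.gbiv.comp (c.gbiv.J (PMap.ofCont (K := (LC.Pr S 1).prod (LC.Pr S' 1)) (L := LC.Pr S' 1)
        Prod.snd continuous_snd)) (c.gbiv.cotaut S')) (c.gbiv.comp (c.gbiv.J (PMap.ofCont (K := (LC.Pr S 1).prod (LC.Pr S' 1)) (L := LC.Pr S' 1)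
        Prod.snd continuous_snd)) (c.gbiv.taut S')) = _ at h2
      generalize c.gbiv.comp (c.gbiv.J (PMap.ofCont (K := (LC.Pr S 1).prod (LC.Pr S' 1)) (L := LC.Pr S 1)
        Prod.fst continuous_fst)) (c.gbiv.cotaut S) = a at *
      generalize c.gbiv.comp (c.gbiv.J (PMap.ofCont (K := (LC.Pr S 1).prod (LC.Pr S' 1)) (L := LC.Pr S' 1)
        Prod.snd continuous_snd)) (c.gbiv.cotaut S') = b at *
      change c.gbiv.mul (K := (LC.Pr S 1).prod (LC.Pr S' 1))
        (c.gbiv.mul (K := (LC.Pr S 1).prod (LC.Pr S' 1)) 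
          (c.gbiv.mul (K := (LC.Pr S 1).prod (LC.Pr S' 1)) (c.gbiv.mul (K := (LC.Pr S 1).prod (LC.Pr S' 1)) T a) b)
            (c.gbiv.comp (c.gbiv.J (PMap.ofCont (K := (LC.Pr S 1).prod (LC.Pr S' 1)) (L := LC.Pr S 1)
        Prod.fst continuous_fst)) (c.gbiv.taut S))) (c.gbiv.comp (c.gbiv.J (PMap.ofCont (K := (LC.Pr S 1).prod (LC.Pr S' 1)) (L := LC.Pr S' 1)
        Prod.snd continuous_snd)) (c.gbiv.taut S')) = _
      generalize c.gbiv.comp (c.gbiv.J (PMap.ofCont (K := (LC.Pr S 1).prod (LC.Pr S' 1)) (L := LC.Pr S 1)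
        Prod.fst continuous_fst)) (c.gbiv.taut S) = x at *
      generalize c.gbiv.comp (c.gbiv.J (PMap.ofCont (K := (LC.Pr S 1).prod (LC.Pr S' 1)) (L := LC.Pr S' 1)
        Prod.snd continuous_snd)) (c.gbiv.taut S') = y at *
      rw [c.gbiv.mul_assoc _ x y, c.gbiv.mul_comm x y, ← c.gbiv.mul_assoc _ y x,
        c.gbiv.mul_assoc _ b y, h2, c.gbiv.mul_one, c.gbiv.mul_assoc T a x, h1, c.gbiv.mul_one]
    · have : IsEmpty ((LC.Pr S 1).prod (LC.Pr S' 1)) :=
        ⟨fun p => hS' (Pr.le_card (S := S') (n := 1) p.2)⟩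
      exact GBiv.eq_of_isEmpty54 c.gbiv _ _
  · have : IsEmpty ((LC.Pr S 1).prod (LC.Pr S' 1)) :=
      ⟨fun p => hS (Pr.le_card (S := S) (n := 1) p.1)⟩
    exact GBiv.eq_of_isEmpty54 c.gbiv _ _

/-! ## Good predicates -/

/-- (GC) the elements over which a transformation is linear -/
theorem good_com {T : Biv} (ϖ : NTr T T) : Good T (fun z => ϖ.Com z) :=
  Pool.Agent.Helper5.Stab.good_com ϖ

/-- (GE) the elements on which two morphisms agree -/
theorem good_eq {R T : Biv} (F G : BivHom R T) : Good R (fun z => F.F z = G.F z) :=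
  Pool.Agent.Helper5.Stab.good_eq F G

theorem Good.sub69 {R : Biv} {p : ∀ {K Z : LC}, R.Hom K Z → Prop} (hp : Good R p) {K Z : LC}
    (x y : R.Hom K Z) (hx : p x) (hy : p y) : p (x - y) := by
  rw [sub_eq_add_neg]
  exact hp.add _ _ hx (hp.neg _ hy)

theorem Good.ltens69 {R : Biv} {p : ∀ {K Z : LC}, R.Hom K Z → Prop} (hp : Good R p) (V : LC)
    {K Z : LC} (x : R.Hom K Z) (hx : p x) : p (R.ltens V x) :=
  hp.comp _ _ (hp.J _) (hp.comp _ _ (hp.tens _ _ hx) (hp.J _))

/-- (OX) orientation from an invertible class `x`, with control of the classes `u S` -/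
theorem exists_orient_good (R : GBiv) (x : R.Hom (LC.C.prod LC.C) LC.point)
    (x' : R.Hom LC.point (LC.C.prod LC.C))
    (h1 : R.comp x x' = R.J (PMap.id _)) (h2 : R.comp x' x = R.J (PMap.id _))
    (hx : R.comp (R.J (collP1.box collP1)) x =
      R.theta Bool Bool - R.one ((LC.Pr Bool 1).prod (LC.Pr Bool 1))) :
    ∃ o : Orient R.toBiv, ∀ p : (∀ {K Z : LC}, R.Hom K Z → Prop), Good R.toBiv p → p x →
      ∀ (S : Type) [Fintype S], p (R.theta S Bool) → p (o.u S) := by
  obtain ⟨r, hr1, hr2⟩ := collP1_split R.toBiv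
  have hbij := fun (S : Type) [Fintype S] => R.tens_C_bijective (LC.Pr S 1) LC.C
  refine ⟨{
    u := fun S _ => ((hbij S).2 (R.comp (OrX.tb R r S) x')).choose
    u_ext := ?_
    u_unit := ?_
    u_bool := ?_ }, ?_⟩
  · intro S T _ _ j
    have hT := ((hbij T).2 (R.comp (OrX.tb R r T) x')).choose_spec
    have hS := ((hbij S).2 (R.comp (OrX.tb R r S) x')).choose_spec
    refine (hbij S).1 ?_
    refine Eq.trans ?_ hS.symm
    simp only at hT
    change R.tens _ LC.C = _
    rw [R.tens_comp, hT, ← R.assoc, OrX.tb_nat]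
  · have hS := ((hbij Unit).2 (R.comp (OrX.tb R r Unit) x')).choose_spec
    refine (hbij Unit).1 ?_
    refine hS.trans ?_
    change _ = R.tens 0 LC.C
    rw [OrX.tb_unit, R.tens_zero, R.zero_comp]
  · have hS := ((hbij Bool).2 (R.comp (OrX.tb R r Bool) x')).choose_spec
    refine (hbij Bool).1 ?_
    refine hS.trans ?_
    change _ = R.tens (R.J collP1) LC.C
    unfold OrX.tb
    rw [← hx, OrX.box_eq, R.assoc, R.assoc, R.assoc, h1, R.comp_id, ← R.assoc,
      ← Pool.Agent.Helper9.Stab.ltens_comp, hr1, Pool.Agent.Helper9.Stab.ltens_id, R.id_comp]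
  · intro p hp hpx S _ hθ
    have hS := ((hbij S).2 (R.comp (OrX.tb R r S) x')).choose_spec
    have hpr : p r := by
      refine hp.split (R.J collP1) r (hp.J _) ?_ hr1
      rw [hr2]
      exact hp.sub69 _ _ (hp.J _) (hp.comp _ _ (hp.J _) (hp.J _))
    have hpx' : p x' := by
      refine hp.split x x' hpx ?_ h2
      rw [h1]
      exact hp.J _
    have htb : p (OrX.tb R r S) :=
      hp.comp _ _ (hp.ltens69 _ _ hpr) (hp.sub69 _ _ hθ (hp.J _))
    refine hp.susp _ ?_
    change p (R.tens ((hbij S).2 (R.comp (OrX.tb R r S) x')).choose LC.C)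
    have hS' : R.tens ((hbij S).2 (R.comp (OrX.tb R r S) x')).choose LC.C =
      R.comp (OrX.tb R r S) x' := hS
    rw [hS']
    exact hp.comp _ _ htb hpx'

theorem Good.E69 {R : Biv} {p : ∀ {K Z : LC}, R.Hom K Z → Prop} (hp : Good R p) (o : Orient R)
    (S : Type) [Fintype S] (hu : p (o.u S)) {X : LC} (l : X → Pr S 1) (hl : Continuous l) :
    p (o.E l hl) :=
  hp.comp _ _ (hp.J _) (hp.ltens69 _ _ hu)

theorem Good.Epow69 {R : Biv} {p : ∀ {K Z : LC}, R.Hom K Z → Prop} (hp : Good R p) (o : Orient R)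
    (S : Type) [Fintype S] (hu : p (o.u S)) {X : LC} (l : X → Pr S 1) (hl : Continuous l) (i : ℕ) :
    p (o.Epow l hl i) := by
  induction i with
  | zero => exact hp.J _
  | succ i ih =>
    exact hp.comp _ _ ih (hp.comp _ _ (hp.tens _ _ (hp.E69 o S hu l hl)) (hp.J _))

/-- (GU) powers of `u` and the dual basis -/
theorem Good.upow {R : Biv} {p : ∀ {K Z : LC}, R.Hom K Z → Prop} (hp : Good R p) (o : Orient R)
    (S : Type) [Fintype S] (hu : p (o.u S)) (i : ℕ) : p (o.upow S i) :=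
  hp.comp _ _ (hp.Epow69 o S hu _ _ i) (hp.comp _ _ (hp.tens _ _ (hp.J _)) (hp.J _))

theorem Good.b {R : Biv} {p : ∀ {K Z : LC}, R.Hom K Z → Prop} (hp : Good R p) (o : Orient R)
    (S : Type) [Fintype S] (hu : p (o.u S)) (i : ℕ) (hi : i < Fintype.card S) :
    p (o.b S i) := by
  obtain ⟨-, h1, h2, h3⟩ := (o.exists_dual S).choose_spec
  exact hp.dual (Fintype.card S) Cn (o.upow S) (o.b S) (fun i _ => hp.upow o S hu i) h3
    (fun i hi j _ hij => h1 i j hi hij) h2 i hi

end Pool.Agent.Helper1.Stab
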