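import Pool.Agent.Helper1.Stab.T.Pi
import Pool.Agent.Helper75.Stab.BPc

/-! Project T, layer 1: morphisms of graded functors from natural transformations. -/

open CategoryTheory Topology Filter Set Opposite

noncomputable section

namespace Pool.Agent.Helper1.Stab

open Pool.Agent.Helper63.Stab (jh)

theorem NTr.ltens {T R : Biv} (O : NTr T R) {K Z : LC} (V : LC) (x : T.Hom K Z) :
    O.F (T.ltens V x) = R.ltens V (O.F x) := by
  change O.F (T.comp _ (T.comp _ _)) = R.comp _ (R.comp _ _)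
  rw [O.pre, O.post, O.tens]

/-- a natural transformation as a morphism of graded functors -/
def NTr.gf {T R : Biv} (O : NTr T R) : T.gf ⟶ R.gf :=
  GF.Hom.mk' (fun b =>
    { app := fun K => AddCommGrpCat.ofHom (AddMonoidHom.mk' (fun x : T.Hom K.unop.obj (Zb b) =>
        (O.F x : R.Hom K.unop.obj (Zb b))) O.add)
      naturality := fun X Y f => by
        ext y
        change O.F (T.comp (T.JH f.unop.hom) y) = R.comp (R.JH f.unop.hom) (O.F y)
        generalize f.unop.hom = z
        revert z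
        refine HMap.ind fun z => ?_
        exact O.pre z y }) (fun b K => by
    ext y
    change O.F (T.ltens LC.C y) = R.ltens LC.C (O.F y)
    exact O.ltens LC.C y)

theorem NTr.gf_app {T R : Biv} (O : NTr T R) (b : ℕ) (K : Test) (x : T.Hom K.obj (Zb b)) :
    (O.gf.app b).app (op K) x = (O.F x : R.Hom K.obj (Zb b)) := rfl

/-- morphisms of graded functors of theories are determined by their values -/
theorem gf_hom_ext {T : Biv} {G : GF} (F F' : T.gf ⟶ G)
    (h : ∀ (b : ℕ) (K : Test) (x : T.Hom K.obj (Zb b)), (F.app b).app (op K) x =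
      (F'.app b).app (op K) x) : F = F' :=
  GF.hom_ext fun b => by
    ext K x
    exact h b K.unop x

/-- the composition of natural transformations -/
def NTr.trans {T R U : Biv} (O : NTr T R) (O' : NTr R U) : NTr T U :=
  ⟨fun x => O'.F (O.F x), fun x y => by rw [O.add, O'.add], fun f x => by rw [O.pre, O'.pre],
    fun f x => by rw [O.post, O'.post], fun V x => by rw [O.tens, O'.tens]⟩

theorem NTr.gf_trans {T R U : Biv} (O : NTr T R) (O' : NTr R U) :
    (O.trans O').gf = O.gf ≫ O'.gf := gf_hom_ext _ _ fun _ _ _ => rfl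

/-- the retraction onto a sub-theory -/
def Biv.Sub.ret {T : Biv} (S : T.Sub) : NTr T S.biv where
  F x := ⟨S.ρ.F x, S.mem x⟩
  add x y := Subtype.ext (S.ρ.add x y)
  pre f x := Subtype.ext (S.ρ.pre f x)
  post f x := Subtype.ext (S.ρ.post f x)
  tens V x := Subtype.ext (S.ρ.tens V x)

theorem Biv.Sub.inc_ret {T : Biv} (S : T.Sub) : S.inc.ntr.gf ≫ S.ret.gf = 𝟙 S.biv.gf := by
  rw [← NTr.gf_trans]
  exact gf_hom_ext _ _ fun b K x => Subtype.ext (S.fix x.1 x.2)

theorem Biv.Sub.ret_inc {T : Biv} (S : T.Sub) : S.ret.gf ≫ S.inc.ntr.gf = S.ρ.gf := by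
  rw [← NTr.gf_trans]
  rfl

/-- (BP) The graded functor of `S[BSU][1/x]` is the image of the projection `ϖ`. -/
theorem bsu_pi {k e : ℕ} (he : 0 < e) (g : GenLoop (Fin (2 * e)) (Gr {1} k) (Gr.pt {1} k))
    (T : LocTheory (loopDatum (loopGK (loopToU g)))) (a : T.Hom (LC.cpow (Fin e)) LC.point)
    (ha : IsHur T.toGBiv (loopGK (loopToU g)) a) (ϖ : NTr T.toBiv T.toBiv)
    (hϖ : ∀ (κ : Type) [Fintype κ], ϖ.F (T.g κ) = thetaP T.toGBiv κ) (hl : ϖ.Lin a a) :
    ∃ (i : hP.obj (tele (mulMap g)) ⟶ T.toBiv.gf) (r : T.toBiv.gf ⟶ hP.obj (tele (mulMap g))),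
      i ≫ r = 𝟙 _ ∧ r ≫ i = ϖ.gf :=
  Pool.Agent.Helper75.Stab.bsu_pi_core he g T a ha ϖ hϖ hl ϖ.gf fun _ _ _ => rfl

end Pool.Agent.Helper1.Stab
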