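import Pool.Agent.Helper1.Stab.T.Sub
import Pool.Agent.Helper87.Stab.ExH
import Pool.Agent.Helper67.Stab.TInd
import Pool.Agent.Helper49.Stab.NtrJ

/-! Project T, layer 1: natural transformations out of a localised theory. -/

open CategoryTheory Topology Filter Set Opposite

noncomputable section

namespace Pool.Agent.Helper1.Stab

open Pool.Agent.Helper63.Stab (jh)

/-- the map `G(κ) × S^(2e) → G(κ ⊔ κ₀)`, `(V, z) ↦ V ⊕ f(z)` -/
def loopAct {κ₀ : Type} [Fintype κ₀] {e : ℕ} (f : GenLoop (Fin (2 * e)) (GK κ₀) (GK.base κ₀))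
    (κ : Type) [Fintype κ] : PMap ((LC.G κ).prod (LC.sph e)) (LC.G (κ ⊕ κ₀)).plus :=
  PMap.ofCont (K := (LC.G κ).prod (LC.sph e)) (L := LC.G (κ ⊕ κ₀))
    (fun x => GK.sum (x.1, loopBar f x.2))
    (GK.continuous_sum.comp (continuous_fst.prodMk ((loopBar f).continuous.comp continuous_snd)))

namespace Nat56

open Helper63.Stab

theorem ltens_lunit {T : Biv} {W W' : LC} (φ : PMap W W'.plus) :
    T.comp (T.J (PMap.ltens LC.point φ)) (jh T (LC.lunit W')) =
      T.comp (jh T (LC.lunit W)) (T.J φ) := by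
  rw [jh, jh, ← T.J_comp, ← T.J_comp]
  congr 1
  ext k
  change (PMap.ofHomeo (LC.lunit W')).plus (smashPt LC.point W'
    ((k.1 : OnePoint PUnit), φ k.2)) = φ k.2
  rcases φ k.2 with _ | l <;> rfl

theorem tens_lunit {T : Biv} {K W V : LC} (y : T.Hom K (LC.point.prod W)) :
    T.tens (T.comp y (jh T (LC.lunit W))) V =
      T.comp (T.comp (T.tens y V) (jh T (ascH LC.point W V))) (jh T (LC.lunit (W.prod V))) := by
  rw [T.tens_comp, tens_jh, T.assoc, ← jh_trans]
  congr 1

theorem mulx_comp {T : Biv} {A K Z Z' : LC} (a : T.Hom A LC.point) (y : T.Hom K Z)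
    (z : T.Hom Z Z') : T.mulx a (T.comp y z) = T.comp (T.mulx a y) z := by
  unfold Biv.mulx
  rw [T.assoc, T.assoc]

theorem map_mulx {T R : Biv} (F : BivHom T R) {A K Z : LC} (a : T.Hom A LC.point)
    (y : T.Hom K Z) : F.F (T.mulx a y) = R.mulx (F.F a) (F.F y) := by
  unfold Biv.mulx
  rw [F.comp, F.comp, F.tens, F.J]

theorem mulx_inj {R : Biv} {A K Z : LC} (a : R.Hom A LC.point) (a' : R.Hom LC.point A)
    (h : R.comp a' a = R.J (PMap.id _)) {y z : R.Hom K Z} (hyz : R.mulx a y = R.mulx a z) :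
    y = z := by
  have key : ∀ w : R.Hom K Z, R.comp (jh R (LC.lunit K).symm)
      (R.comp (R.tens a' K) (R.mulx a w)) = w := by
    intro w
    unfold Biv.mulx
    rw [← R.assoc (R.tens a' K), ← R.tens_comp, h, tens_id, R.id_comp]
    exact jh_symm_comp R (LC.lunit K) w
  rw [← key y, hyz, key z]

end Nat56

theorem loopAct_eq {κ₀ : Type} [Fintype κ₀] {e : ℕ}
    (f : GenLoop (Fin (2 * e)) (GK κ₀) (GK.base κ₀)) (κ : Type) [Fintype κ] :
    loopAct f κ = (GK.sumMap κ κ₀).comp (PMap.ltens (LC.G κ)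
      (PMap.ofC (K := LC.sph e) (L := LC.G κ₀) (loopBar f))) := by
  ext x
  rfl

theorem GBiv.loop_cond (R : GBiv) {κ₀ : Type} [Fintype κ₀] {e : ℕ}
    (f : GenLoop (Fin (2 * e)) (GK κ₀) (GK.base κ₀))
    (a' : R.Hom (LC.cpow (Fin e)) LC.point) (ha' : IsHur R f a') (κ : Type) [Fintype κ] :
    R.comp (R.J (loopAct f κ)) (R.g (κ ⊕ κ₀)) = R.comp (R.act (R.g κ) (LC.sph e))
        (R.J (PMap.toPoint (LC.sph e)) + R.comp (R.J (collSph e)) a') := by
  have h1 : R.J (PMap.toPoint (LC.sph e)) + R.comp (R.J (collSph e)) a' =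
      R.comp (R.J (PMap.ofC (K := LC.sph e) (L := LC.G κ₀) (loopBar f))) (R.g κ₀) := by
    have := ha'
    unfold IsHur at this
    rw [this]
    abel
  rw [h1, loopAct_eq, R.J_comp, R.assoc, Helper87.Stab.g_sum_mulx, ← Helper87.Stab.mulx_pre,
    Helper87.Stab.mulx_eq]

theorem GBiv.uni_comp (R : GBiv) (κ : Type) [Fintype κ] {L Z : LC} (y : R.Hom L Z) :
    R.comp (R.uni κ L) (R.tens y LC.point) =
      R.comp (R.mulx (R.g κ) y) (jh R.toBiv (K := Z) (L := Z.prod LC.point)
        (Homeomorph.prodPUnit Z).symm) := by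
  have h := R.tens_point y
  have h1 : R.tens y LC.point = R.comp (jh R.toBiv (K := L.prod LC.point) (L := L)
      (Homeomorph.prodPUnit L)) (R.comp y (jh R.toBiv (K := Z) (L := Z.prod LC.point)
        (Homeomorph.prodPUnit Z).symm)) := by
    have h2 := congrArg (fun t => R.comp t (jh R.toBiv (K := Z) (L := Z.prod LC.point)
        (Homeomorph.prodPUnit Z).symm)) h
    simp only [R.assoc] at h2
    refine Eq.trans ?_ h2
    have h3 := Helper63.Stab.jh_comp_symm' R.toBiv (K := Z.prod LC.point) (L := Z)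
      (Homeomorph.prodPUnit Z)
    refine (R.comp_id _).symm.trans ?_
    rw [← h3]
    rfl
  unfold GBiv.uni Biv.mulx
  rw [h1, Helper63.Stab.jh_trans]
  simp only [R.assoc]
  have h4 : R.comp (jh R.toBiv (K := L) (L := L.prod LC.point) (Homeomorph.prodPUnit L).symm)
      (R.comp (jh R.toBiv (K := L.prod LC.point) (L := L) (Homeomorph.prodPUnit L))
        (R.comp y (jh R.toBiv (K := Z) (L := Z.prod LC.point)
        (Homeomorph.prodPUnit Z).symm))) = R.comp y (jh R.toBiv (K := Z) (L := Z.prod LC.point)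
        (Homeomorph.prodPUnit Z).symm) :=
    Helper63.Stab.jh_symm_comp R.toBiv (K := L.prod LC.point) (L := L) (Homeomorph.prodPUnit L) _
  rw [h4]
  rfl

section
variable {κ₀ : Type} [Fintype κ₀] {e : ℕ} (he : 0 < e)
  (f : GenLoop (Fin (2 * e)) (GK κ₀) (GK.base κ₀)) (T : LocTheory (loopDatum f))
  (a : T.Hom (LC.cpow (Fin e)) LC.point) (ha : IsHur T.toGBiv f a)

include he ha

/-- (IND) A property of the elements of `T(K, L × W)` that is natural in `K` and `W` and that can
be divided by `a` and desuspended holds for all elements if it holds for the classes of the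
tautological bundles. -/
theorem LocTheory.induct {L : LC} (E : ∀ {K W : LC}, T.Hom K (L.prod W) → Prop)
    (pre : ∀ {K K' W : LC} (φ : PMap K' K.plus) (x : T.Hom K (L.prod W)), E x →
      E (T.comp (T.J φ) x))
    (post : ∀ {K W W' : LC} (φ : PMap W W'.plus) (x : T.Hom K (L.prod W)), E x →
      E (T.comp x (T.J (PMap.ltens L φ))))
    (tens : ∀ {K W : LC} (V : LC) (x : T.Hom K (L.prod W)), E x →
      E (T.comp (T.tens x V) (jh T.toBiv (ascH L W V))))
    (susp : ∀ {K W : LC} (x : T.Hom K (L.prod W)),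
      E (T.comp (T.tens x LC.C) (jh T.toBiv (ascH L W LC.C))) → E x)
    (div : ∀ {K W : LC} (x : T.Hom K (L.prod W)), E (T.mulx a x) → E x)
    (uni : ∀ n : ℕ, E (T.uni (Fin n) L)) {K W : LC} (x : T.Hom K (L.prod W)) : E x := by
  exact Pool.Agent.Helper67.Stab.TInd.induct_loop he f T a ha E pre post tens susp div uni x

/-- (IND0) The same for properties of the elements of `T(K, Z)`. -/
theorem LocTheory.induct0 (E : ∀ {K Z : LC}, T.Hom K Z → Prop)
    (pre : ∀ {K K' Z : LC} (φ : PMap K' K.plus) (x : T.Hom K Z), E x → E (T.comp (T.J φ) x))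
    (post : ∀ {K Z Z' : LC} (φ : PMap Z Z'.plus) (x : T.Hom K Z), E x → E (T.comp x (T.J φ)))
    (tens : ∀ {K Z : LC} (V : LC) (x : T.Hom K Z), E x → E (T.tens x V))
    (susp : ∀ {K Z : LC} (x : T.Hom K Z), E (T.tens x LC.C) → E x)
    (div : ∀ {K Z : LC} (x : T.Hom K Z), E (T.mulx a x) → E x)
    (uni : ∀ n : ℕ, E (T.g (Fin n))) {K Z : LC} (x : T.Hom K Z) : E x := by
  have h1 : E (T.comp (T.comp x (jh T.toBiv (LC.lunit Z).symm)) (jh T.toBiv (LC.lunit Z))) := by
    refine LocTheory.induct he f T a ha (L := LC.point)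
      (fun {K W} (y : T.Hom K (LC.point.prod W)) => E (T.comp y (jh T.toBiv (LC.lunit W))))
      ?_ ?_ ?_ ?_ ?_ ?_ (T.comp x (jh T.toBiv (LC.lunit Z).symm))
    · intro K K' W φ y hy
      have h := pre φ _ hy
      rw [← T.assoc] at h
      exact h
    · intro K W W' φ y hy
      have h := post φ _ hy
      rw [T.assoc] at h ⊢
      rw [Nat56.ltens_lunit]
      exact h
    · intro K W V y hy
      have h := tens V _ hy
      rw [Nat56.tens_lunit] at h
      exact h
    · intro K W y hy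
      refine susp _ ?_
      rw [Nat56.tens_lunit]
      exact hy
    · intro K W y hy
      refine div _ ?_
      rw [Nat56.mulx_comp]
      exact hy
    · intro n
      have h := pre (PMap.ofHomeo (K := (LC.G (Fin n)).prod LC.point) (L := LC.G (Fin n))
        (Homeomorph.prodPUnit (LC.G (Fin n)))) _ (uni n)
      rw [← T.tens_point] at h
      have h2 : T.comp (T.uni (Fin n) LC.point) (jh T.toBiv (LC.lunit LC.point)) =
          T.comp (T.tens (T.g (Fin n)) LC.point)
            (T.J (PMap.ofHomeo (Homeomorph.prodPUnit LC.point))) := by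
        unfold GBiv.uni
        rw [T.assoc, ← Helper63.Stab.jh_trans]
        congr 1
      exact h2 ▸ h
  rwa [T.assoc, Helper63.Stab.jh_symm_comp', T.comp_id] at h1

/-- (EX) Existence of natural transformations: a family of classes `θ κ ∈ R(G κ, pt)` that is
compatible with the loop `f` defines a transformation `T → R`. -/
theorem LocTheory.exists_ntr (R : Biv) (θ : ∀ (κ : Type) [Fintype κ], R.Hom (LC.G κ) LC.point)
    (hre : ∀ {κ l : Type} [Fintype κ] [Fintype l] (ε : κ ≃ l),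
      R.comp (R.J (PMap.ofHomeo (K := LC.G κ) (L := LC.G l) (GK.reindex ε))) (θ l) = θ κ)
    (hst : ∀ (κ l : Type) [Fintype κ] [Fintype l], R.comp (R.J (GK.stab κ l)) (θ (κ ⊕ l)) = θ κ)
    (a' : R.Hom (LC.cpow (Fin e)) LC.point) (a'' : R.Hom LC.point (LC.cpow (Fin e)))
    (h1 : R.comp a' a'' = R.J (PMap.id _)) (h2 : R.comp a'' a' = R.J (PMap.id _))
    (hloop : ∀ (κ : Type) [Fintype κ], R.comp (R.J (loopAct f κ)) (θ (κ ⊕ κ₀)) =
      R.comp (R.act (θ κ) (LC.sph e))
        (R.J (PMap.toPoint (LC.sph e)) + R.comp (R.J (collSph e)) a')) :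
    ∃ F : NTr T.toBiv R, (∀ (κ : Type) [Fintype κ], F.F (T.g κ) = θ κ) ∧
      ∀ {K Z : LC} (x : T.Hom K Z), F.F (T.mulx a x) = R.mulx a' (F.F x) := by
  exact Pool.Agent.Helper49.Stab.exists_ntr' he f T a ha R θ hre hst a' a'' h1 h2 hloop

/-- a transformation that preserves the classes of the tautological bundles and is linear over
`a` is compatible with the multiplication with these classes -/
theorem LocTheory.ntr_mulx_g (R : GBiv) (a' : R.Hom (LC.cpow (Fin e)) LC.point)
    (a'' : R.Hom LC.point (LC.cpow (Fin e))) (h2 : R.comp a'' a' = R.J (PMap.id _))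
    (F : NTr T.toBiv R.toBiv) (hg : ∀ (κ : Type) [Fintype κ], F.F (T.g κ) = R.g κ)
    (hlin : ∀ {K Z : LC} (x : T.Hom K Z), F.F (T.mulx a x) = R.mulx a' (F.F x))
    (κ : Type) [Fintype κ] {K Z : LC} (y : T.Hom K Z) :
    F.F (T.mulx (T.g κ) y) = R.mulx (R.g κ) (F.F y) := by
  refine LocTheory.induct0 he f T a ha
    (E := fun {K Z} y => F.F (T.mulx (T.g κ) y) = R.mulx (R.g κ) (F.F y)) ?_ ?_ ?_ ?_ ?_ ?_ y
  · intro K K' Z φ x hx
    rw [Helper87.Stab.mulx_pre, F.pre, F.pre, hx, Helper87.Stab.mulx_pre]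
  · intro K Z Z' φ x hx
    rw [Helper87.Stab.mulx_comp, F.post, F.post, hx, Helper87.Stab.mulx_comp]
  · intro K Z V x hx
    have h1 := Helper87.Stab.mulx_tens (R := T.toBiv) (T.g κ) x V
    have h3 := Helper87.Stab.mulx_tens (R := R.toBiv) (R.g κ) (F.F x) V
    have h4 : F.F (T.comp (jh T.toBiv (ascH (LC.G κ) K V)) (T.mulx (T.g κ) (T.tens x V))) =
        R.comp (jh R.toBiv (ascH (LC.G κ) K V)) (F.F (T.mulx (T.g κ) (T.tens x V))) := F.pre _ _
    rw [← h1, F.tens, hx, h3] at h4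
    rw [F.tens]
    have h5 := congrArg (fun t => R.comp (jh R.toBiv (ascH (LC.G κ) K V).symm) t) h4
    simp only at h5
    rw [Helper63.Stab.jh_symm_comp, Helper63.Stab.jh_symm_comp] at h5
    exact h5.symm
  · intro K Z x hx
    have h1 := Helper87.Stab.mulx_tens (R := T.toBiv) (T.g κ) x LC.C
    have h3 := Helper87.Stab.mulx_tens (R := R.toBiv) (R.g κ) (F.F x) LC.C
    have h4 : F.F (T.comp (jh T.toBiv (ascH (LC.G κ) K LC.C))
        (T.mulx (T.g κ) (T.tens x LC.C))) =
        R.comp (jh R.toBiv (ascH (LC.G κ) K LC.C)) (F.F (T.mulx (T.g κ) (T.tens x LC.C))) :=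
      F.pre _ _
    rw [← h1, F.tens, hx, F.tens, ← h3] at h4
    exact (R.tens_C_bijective _ _).1 h4
  · intro K Z x hx
    have h1 := Helper87.Stab.mulx_mulx (R := T.toBiv) (T.g κ) a x
    have h3 := Helper87.Stab.mulx_mulx (R := R.toBiv) (R.g κ) a' (F.F x)
    have h4 : F.F (T.comp (jh T.toBiv (Helper87.Stab.sw3 (LC.G κ) (LC.cpow (Fin e)) K))
        (T.mulx a (T.mulx (T.g κ) x))) =
        R.comp (jh R.toBiv (Helper87.Stab.sw3 (LC.G κ) (LC.cpow (Fin e)) K))
          (F.F (T.mulx a (T.mulx (T.g κ) x))) := F.pre _ _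
    rw [← h1, hx, hlin, hlin, h3] at h4
    have h5 := congrArg (fun t => R.comp
      (jh R.toBiv (Helper87.Stab.sw3 (LC.G κ) (LC.cpow (Fin e)) K).symm) t) h4
    simp only at h5
    rw [Helper63.Stab.jh_symm_comp, Helper63.Stab.jh_symm_comp] at h5
    exact (Helper87.Stab.mulx_inj (R := R.toBiv) a' a'' h2 h5).symm
  · intro n
    rw [← Helper87.Stab.g_sum_mulx, F.pre, hg, hg, Helper87.Stab.g_sum_mulx]

omit he ha in
theorem LocTheory.ntr_uni (R : GBiv) (F : NTr T.toBiv R.toBiv)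
    (hg : ∀ (κ : Type) [Fintype κ], F.F (T.g κ) = R.g κ) (κ : Type) [Fintype κ] (L : LC) :
    F.F (T.uni κ L) = R.uni κ L := by
  unfold GBiv.uni
  refine (F.post _ _).trans ?_
  rw [F.tens, hg]
  rfl

theorem LocTheory.ntr_comp (R : GBiv) (a' : R.Hom (LC.cpow (Fin e)) LC.point)
    (a'' : R.Hom LC.point (LC.cpow (Fin e))) (h2 : R.comp a'' a' = R.J (PMap.id _))
    (F : NTr T.toBiv R.toBiv) (hg : ∀ (κ : Type) [Fintype κ], F.F (T.g κ) = R.g κ)
    (hlin : ∀ {K Z : LC} (x : T.Hom K Z), F.F (T.mulx a x) = R.mulx a' (F.F x))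
    {L Z : LC} (y : T.Hom L Z) {K W : LC} (x : T.Hom K (L.prod W)) :
    F.F (T.comp x (T.tens y W)) = R.comp (F.F x) (R.tens (F.F y) W) := by
  refine LocTheory.induct he f T a ha (L := L)
    (E := fun {K W} x => F.F (T.comp x (T.tens y W)) = R.comp (F.F x) (R.tens (F.F y) W))
    ?_ ?_ ?_ ?_ ?_ ?_ x
  · intro K K' W φ x hx
    rw [T.assoc, F.pre, F.pre, hx, R.assoc]
  · intro K W W' φ x hx
    have h3 : T.comp (T.J (PMap.ltens L φ)) (T.tens y W') =
        T.comp (T.tens y W) (T.J (PMap.ltens Z φ)) :=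
      (Helper39.Stab.tens_exch T.toBiv y φ).symm
    have h4 : R.comp (R.J (PMap.ltens L φ)) (R.tens (F.F y) W') =
        R.comp (R.tens (F.F y) W) (R.J (PMap.ltens Z φ)) :=
      (Helper39.Stab.tens_exch R.toBiv (F.F y) φ).symm
    rw [T.assoc, h3, ← T.assoc, F.post, hx, F.post, R.assoc, R.assoc, h4]
  · intro K W V x hx
    have h3 : F.F (T.comp (T.tens (T.comp x (T.tens y W)) V) (jh T.toBiv (ascH Z W V))) =
        R.comp (F.F (T.tens (T.comp x (T.tens y W)) V)) (jh R.toBiv (ascH Z W V)) := F.post _ _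
    have h4 : F.F (T.comp (T.tens x V) (jh T.toBiv (ascH L W V))) =
        R.comp (F.F (T.tens x V)) (jh R.toBiv (ascH L W V)) := F.post _ _
    rw [Helper87.Stab.asc_comp, h3, h4, F.tens, F.tens, hx, Helper87.Stab.asc_comp]
  · intro K W x hx
    have h3 : F.F (T.comp (T.tens (T.comp x (T.tens y W)) LC.C) (jh T.toBiv (ascH Z W LC.C))) =
        R.comp (F.F (T.tens (T.comp x (T.tens y W)) LC.C)) (jh R.toBiv (ascH Z W LC.C)) :=
      F.post _ _
    have h4 : F.F (T.comp (T.tens x LC.C) (jh T.toBiv (ascH L W LC.C))) =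
        R.comp (F.F (T.tens x LC.C)) (jh R.toBiv (ascH L W LC.C)) := F.post _ _
    rw [Helper87.Stab.asc_comp, h3, h4, F.tens, F.tens, Helper87.Stab.asc_comp] at hx
    exact (R.tens_C_bijective _ _).1 (Helper87.Stab.jh_cancel _ hx)
  · intro K W x hx
    rw [← Helper87.Stab.mulx_comp, hlin, hlin, ← Helper87.Stab.mulx_comp] at hx
    exact Helper87.Stab.mulx_inj (R := R.toBiv) a' a'' h2 hx
  · intro n
    rw [GBiv.uni_comp, LocTheory.ntr_uni f T R F hg (Fin n) L, GBiv.uni_comp]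
    have h3 : F.F (T.comp (T.mulx (T.g (Fin n)) y) (jh T.toBiv (K := Z) (L := Z.prod LC.point)
        (Homeomorph.prodPUnit Z).symm)) = R.comp (F.F (T.mulx (T.g (Fin n)) y))
          (jh R.toBiv (K := Z) (L := Z.prod LC.point) (Homeomorph.prodPUnit Z).symm) := F.post _ _
    rw [h3, LocTheory.ntr_mulx_g he f T a ha R a' a'' h2 F hg hlin]

/-- (LIFT) A theory over `S[BU]` in which the class of `f` is invertible receives a morphism
from `T`. -/
theorem LocTheory.exists_hom (R : GBiv) (a' : R.Hom (LC.cpow (Fin e)) LC.point)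
    (a'' : R.Hom LC.point (LC.cpow (Fin e))) (ha' : IsHur R f a')
    (h1 : R.comp a' a'' = R.J (PMap.id _)) (h2 : R.comp a'' a' = R.J (PMap.id _)) :
    ∃ F : BivHom T.toBiv R.toBiv, (∀ (κ : Type) [Fintype κ], F.F (T.g κ) = R.g κ) ∧
      F.F a = a' := by
  obtain ⟨F, hg, hlin⟩ := LocTheory.exists_ntr he f T a ha R.toBiv (fun κ _ => R.g κ)
    (fun ε => R.g_reindex ε) (fun κ l _ _ => Helper67.Stab.g_stab R κ l) a' a'' h1 h2
    (fun κ _ => R.loop_cond f a' ha' κ)
  have hJ0 : F.F (T.J (PMap.id LC.point)) = R.J (PMap.id LC.point) := by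
    rw [← T.g_base PUnit, F.pre, hg, R.g_base]
  refine ⟨{ F := F.F, add := F.add, J := fun g => Helper87.Stab.ntr_J F hJ0 g,
            comp := ?_, tens := fun x V => F.tens V x }, fun κ _ => hg κ, ?_⟩
  · intro K L Z x y
    have h := LocTheory.ntr_comp he f T a ha R a' a'' h2 F (fun κ _ => hg κ) hlin y
      (W := LC.point) (T.comp x (jh T.toBiv (K := L) (L := L.prod LC.point)
      (Homeomorph.prodPUnit L).symm))
    have e1 : F.F (T.comp x (jh T.toBiv (K := L) (L := L.prod LC.point)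
        (Homeomorph.prodPUnit L).symm)) = R.comp (F.F x) (jh R.toBiv (K := L)
          (L := L.prod LC.point) (Homeomorph.prodPUnit L).symm) := F.post _ _
    have e2 : ∀ (S : Biv) (u : S.Hom K L) (v : S.Hom L Z), S.comp (S.comp u (jh S (K := L)
        (L := L.prod LC.point) (Homeomorph.prodPUnit L).symm)) (S.tens v LC.point) =
        S.comp (S.comp u v) (jh S (K := Z) (L := Z.prod LC.point)
          (Homeomorph.prodPUnit Z).symm) := by
      intro S u v
      rw [S.assoc, S.assoc]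
      congr 1
      have h5 := Helper63.Stab.eq_pl v
      have h6 := congrArg (fun t => S.comp t (jh S (K := Z) (L := Z.prod LC.point)
          (Homeomorph.prodPUnit Z).symm)) h5
      refine Eq.trans ?_ h6.symm
      unfold Helper63.Stab.pl
      simp only [S.assoc]
      congr 1
      refine (S.comp_id _).symm.trans ?_
      congr 1
      exact (Helper63.Stab.jh_comp_symm' S (K := Z.prod LC.point) (L := Z)
        (Homeomorph.prodPUnit Z)).symm
    have e3 : F.F (T.comp (T.comp x y) (jh T.toBiv (K := Z) (L := Z.prod LC.point)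
          (Homeomorph.prodPUnit Z).symm)) = R.comp (F.F (T.comp x y)) (jh R.toBiv (K := Z)
          (L := Z.prod LC.point) (Homeomorph.prodPUnit Z).symm) := F.post _ _
    rw [e2 T.toBiv x y, e3, e1, e2 R.toBiv (F.F x) (F.F y)] at h
    exact Helper87.Stab.jh_cancel _ h
  · refine collSph_injective R.toBiv ?_
    have h3 := ha
    unfold IsHur at h3
    have h4 := ha'
    unfold IsHur at h4
    have h5 := F.pre (collSph e) a
    have h6 := F.pre (PMap.ofC (K := LC.sph e) (L := LC.G κ₀) (loopBar f)) (T.g κ₀)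
    change R.comp (R.J (collSph e)) (F.F a) = R.comp (R.J (collSph e)) a'
    rw [← h5, h3, h4, sub_eq_add_neg, F.add, F.map_neg, h6, hg,
      Helper87.Stab.ntr_J F hJ0, ← sub_eq_add_neg]

/-- (UNI) A morphism out of `T` is determined by the classes of the tautological bundles. -/
theorem LocTheory.hom_ext {R : Biv} (F G : BivHom T.toBiv R)
    (h : ∀ n : ℕ, F.F (T.g (Fin n)) = G.F (T.g (Fin n))) {K Z : LC} (x : T.Hom K Z) :
    F.F x = G.F x := by
  have hg : F.F (T.g κ₀) = G.F (T.g κ₀) := by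
    have h1 := T.g_reindex (Fintype.equivFin κ₀)
    rw [← h1, F.comp, G.comp, F.J, G.J, h]
  have hFG : F.F a = G.F a := by
    apply collSph_injective R
    have h1 := congrArg F.F ha
    have h2 := congrArg G.F ha
    rw [F.comp, F.map_sub, F.comp, F.J, F.J, F.J] at h1
    rw [G.comp, G.map_sub, G.comp, G.J, G.J, G.J] at h2
    rw [h1, h2, hg]
  obtain ⟨x0, x0', hx0, hx1, hx2⟩ := exists_hur_inv he f T
  have hax : a = x0 := by
    apply collSph_injective T.toBiv
    exact ha.trans hx0.symm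
  subst hax
  refine LocTheory.induct0 he f T a ha (fun {K Z} (y : T.Hom K Z) => F.F y = G.F y)
    ?_ ?_ ?_ ?_ ?_ h x
  · intro K K' Z φ y hy
    rw [F.comp, G.comp, F.J, G.J, hy]
  · intro K Z Z' φ y hy
    rw [F.comp, G.comp, F.J, G.J, hy]
  · intro K Z V y hy
    rw [F.tens, G.tens, hy]
  · intro K Z y hy
    rw [F.tens, G.tens] at hy
    exact (R.tens_C_bijective K Z).1 hy
  · intro K Z y hy
    rw [Nat56.map_mulx, Nat56.map_mulx, hFG] at hy
    refine Nat56.mulx_inj (G.F a) (G.F x0') ?_ hy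
    rw [← G.comp, hx2, G.J]

/-- (CRI) criterion for the linearity of a transformation over `z` -/
theorem LocTheory.com_of_uni (ϖ : NTr T.toBiv T.toBiv) (hϖ : ϖ.Lin a a) {Z Z' : LC}
    (z : T.Hom Z Z')
    (h : ∀ n : ℕ, ϖ.F (T.comp (T.uni (Fin n) Z) (T.tens z LC.point)) =
      T.comp (ϖ.F (T.uni (Fin n) Z)) (T.tens z LC.point)) : ϖ.Com z := by
  obtain ⟨x0, a', hx0, -, hinv⟩ := exists_hur_inv he f T
  have hax : a = x0 := by
    refine collSph_injective T.toBiv ?_
    exact ha.trans hx0.symm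
  rw [← hax] at hinv
  have minj : ∀ {K Z : LC} {x y : T.Hom K Z}, T.mulx a x = T.mulx a y → x = y := by
    intro K Z x y h
    have key : ∀ w : T.Hom K Z, T.comp (jh T.toBiv (LC.lunit K).symm)
        (T.comp (T.tens a' K) (T.mulx a w)) = w := by
      intro w
      have h1 : T.comp (T.tens a' K) (T.mulx a w) = T.comp (jh T.toBiv (LC.lunit K)) w := by
        rw [Biv.mulx, ← T.assoc, ← T.tens_comp, hinv, Pool.Agent.Helper63.Stab.tens_id, T.id_comp]
        rfl
      rw [h1]
      exact Pool.Agent.Helper63.Stab.jh_symm_comp T.toBiv (LC.lunit K) w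
    rw [← key x, ← key y, h]
  have cancel : ∀ {A B C : LC} (ε : B ≃ₜ C) {u v : T.Hom A B},
      T.comp u (jh T.toBiv ε) = T.comp v (jh T.toBiv ε) → u = v := by
    intro A B C ε u v h
    have h2 := congrArg (fun y => T.comp y (jh T.toBiv ε.symm)) h
    simpa only [T.assoc, Pool.Agent.Helper63.Stab.jh_comp_symm', T.comp_id] using h2
  have tt : ∀ {K W : LC} (V : LC) (x : T.Hom K (Z.prod W)),
      T.comp (T.comp (T.tens x V) (jh T.toBiv (ascH Z W V))) (T.tens z (W.prod V)) =
        T.comp (T.tens (T.comp x (T.tens z W)) V) (jh T.toBiv (ascH Z' W V)) := by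
    intro K W V x
    have h1 : T.comp (T.tens (T.tens z W) V) (jh T.toBiv (ascH Z' W V)) =
        T.comp (jh T.toBiv (ascH Z W V)) (T.tens z (W.prod V)) := T.tens_tens z W V
    rw [T.tens_comp, T.assoc, T.assoc, h1]
  have tF : ∀ {K W : LC} (V : LC) (x : T.Hom K (Z.prod W)),
      ϖ.F (T.comp (T.tens x V) (jh T.toBiv (ascH Z W V))) =
        T.comp (T.tens (ϖ.F x) V) (jh T.toBiv (ascH Z W V)) := by
    intro K W V x
    rw [Pool.Agent.Helper63.Stab.jh, ϖ.post, ϖ.tens]
  have tF' : ∀ {K W : LC} (V : LC) (x : T.Hom K (Z'.prod W)),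
      ϖ.F (T.comp (T.tens x V) (jh T.toBiv (ascH Z' W V))) =
        T.comp (T.tens (ϖ.F x) V) (jh T.toBiv (ascH Z' W V)) := by
    intro K W V x
    rw [Pool.Agent.Helper63.Stab.jh, ϖ.post, ϖ.tens]
  intro K W x
  refine LocTheory.induct he f T a ha (L := Z)
    (fun {K W : LC} (x : T.Hom K (Z.prod W)) =>
      ϖ.F (T.comp x (T.tens z W)) = T.comp (ϖ.F x) (T.tens z W)) ?_ ?_ ?_ ?_ ?_ h x
  · intro K K' W φ x hx
    rw [T.assoc, ϖ.pre, ϖ.pre, T.assoc, hx]
  · intro K W W' φ x hx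
    have h1 : T.comp (T.J (PMap.ltens Z φ)) (T.tens z W') =
        T.comp (T.tens z W) (T.J (PMap.ltens Z' φ)) := by
      rw [← Pool.Agent.Helper63.Stab.ltens_J, ← Pool.Agent.Helper63.Stab.ltens_J]
      exact (T.exch z (T.J φ)).symm
    rw [T.assoc, h1, ϖ.post, T.assoc, h1, ← T.assoc, ← T.assoc, ϖ.post, hx]
  · intro K W V x hx
    rw [tt, tF', hx, tF, tt]
  · intro K W x hx
    rw [tt, tF', tF, tt] at hx
    exact (T.tens_C_bijective _ _).1 (cancel _ hx)
  · intro K W x hx
    have h3 : ∀ {M : LC} (u : T.Hom K (Z.prod W)) (v : T.Hom (Z.prod W) M),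
        T.comp (T.mulx a u) v = T.mulx a (T.comp u v) := by
      intro M u v
      rw [Biv.mulx, Biv.mulx, T.assoc, T.assoc]
    rw [h3, hϖ, hϖ, h3] at hx
    exact minj hx

end

end Pool.Agent.Helper1.Stab
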