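import Pool.Agent.Helper1.Stab.Final

/-! Project T, layer 0: natural operators between bivariant theories, sub-theories. -/

open CategoryTheory Topology Filter Set Opposite

noncomputable section

namespace Pool.Agent.Helper1.Stab

open Pool.Agent.Helper63.Stab (jh)

/-- `(A × B) × C = A × (B × C)` -/
abbrev ascH (A B C : LC) : (A.prod B).prod C ≃ₜ A.prod (B.prod C) := Homeomorph.prodAssoc A B C

/-- `pt × Z = Z` before and after `x ∈ R(A, pt)`: the class `A × Z → Z` -/
def Biv.act (R : Biv) {A : LC} (x : R.Hom A LC.point) (Z : LC) : R.Hom (A.prod Z) Z :=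
  R.comp (R.tens x Z) (jh R (LC.lunit Z))

/-- A natural transformation of theories that commutes with products. -/
structure NTr (T R : Biv) where
  F : ∀ {K Z : LC}, T.Hom K Z → R.Hom K Z
  add : ∀ {K Z : LC} (x y : T.Hom K Z), F (x + y) = F x + F y
  pre : ∀ {K K' Z : LC} (f : PMap K' K.plus) (x : T.Hom K Z),
    F (T.comp (T.J f) x) = R.comp (R.J f) (F x)
  post : ∀ {K Z Z' : LC} (f : PMap Z Z'.plus) (x : T.Hom K Z),
    F (T.comp x (T.J f)) = R.comp (F x) (R.J f)
  tens : ∀ {K Z : LC} (V : LC) (x : T.Hom K Z), F (T.tens x V) = R.tens (F x) V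

/-- An operator `T(K, Z) → T(K, C × Z)`. -/
structure OpC (T : Biv) (C : LC) where
  F : ∀ {K Z : LC}, T.Hom K Z → T.Hom K (C.prod Z)
  add : ∀ {K Z : LC} (x y : T.Hom K Z), F (x + y) = F x + F y
  pre : ∀ {K K' Z : LC} (f : PMap K' K.plus) (x : T.Hom K Z),
    F (T.comp (T.J f) x) = T.comp (T.J f) (F x)
  post : ∀ {K Z Z' : LC} (f : PMap Z Z'.plus) (x : T.Hom K Z),
    F (T.comp x (T.J f)) = T.comp (F x) (T.J (PMap.ltens C f))
  tens : ∀ {K Z : LC} (V : LC) (x : T.Hom K Z),
    F (T.tens x V) = T.comp (T.tens (F x) V) (jh T (ascH C Z V))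

/-- the operator is linear over the class `a` -/
def OpC.Lin {T : Biv} {C A : LC} (O : OpC T C) (a : T.Hom A LC.point) : Prop :=
  ∀ {K Z : LC} (x : T.Hom K Z), O.F (T.mulx a x) = T.mulx a (O.F x)

/-- the transformation is linear over the classes `a` and `a'` -/
def NTr.Lin {T R : Biv} {A : LC} (O : NTr T R) (a : T.Hom A LC.point) (a' : R.Hom A LC.point) :
    Prop :=
  ∀ {K Z : LC} (x : T.Hom K Z), O.F (T.mulx a x) = R.mulx a' (O.F x)

/-- the operator commutes with the composition with `z` -/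
def NTr.Com {T : Biv} (O : NTr T T) {Z Z' : LC} (z : T.Hom Z Z') : Prop :=
  ∀ {K W : LC} (x : T.Hom K (Z.prod W)), O.F (T.comp x (T.tens z W)) = T.comp (O.F x) (T.tens z W)

/-- the class of the tautological bundle times the identity of `L` -/
def GBiv.uni (T : GBiv) (κ : Type) [Fintype κ] (L : LC) : T.Hom ((LC.G κ).prod L) (L.prod LC.point) :=
  T.comp (T.tens (T.g κ) L) (jh T.toBiv ((LC.lunit L).trans (Homeomorph.prodPUnit L).symm))

/-- a morphism of bivariant theories -/
structure BivHom (R T : Biv) where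
  F : ∀ {K Z : LC}, R.Hom K Z → T.Hom K Z
  add : ∀ {K Z : LC} (x y : R.Hom K Z), F (x + y) = F x + F y
  J : ∀ {K Z : LC} (f : PMap K Z.plus), F (R.J f) = T.J f
  comp : ∀ {K L Z : LC} (x : R.Hom K L) (y : R.Hom L Z), F (R.comp x y) = T.comp (F x) (F y)
  tens : ∀ {K Z : LC} (x : R.Hom K Z) (V : LC), F (R.tens x V) = T.tens (F x) V

namespace BivHom
variable {R T U : Biv}

/-- the identity -/
def id (R : Biv) : BivHom R R := ⟨fun x => x, fun _ _ => rfl, fun _ => rfl, fun _ _ => rfl,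
  fun _ _ => rfl⟩

/-- the composition -/
def trans (F : BivHom R T) (G : BivHom T U) : BivHom R U :=
  ⟨fun x => G.F (F.F x), fun x y => by rw [F.add, G.add], fun f => by rw [F.J, G.J],
    fun x y => by rw [F.comp, G.comp], fun x V => by rw [F.tens, G.tens]⟩

/-- a morphism of theories is a natural transformation -/
def ntr (F : BivHom R T) : NTr R T where
  F := F.F
  add := F.add
  pre f x := by rw [F.comp, F.J]
  post f x := by rw [F.comp, F.J]
  tens V x := F.tens x V

theorem map_zero (F : BivHom R T) (K Z : LC) : F.F (0 : R.Hom K Z) = 0 := by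
  have h := F.add (0 : R.Hom K Z) 0
  rw [add_zero] at h
  exact left_eq_add.1 h

theorem map_neg (F : BivHom R T) {K Z : LC} (x : R.Hom K Z) : F.F (-x) = -F.F x := by
  have h := F.add x (-x)
  rw [add_neg_cancel, F.map_zero] at h
  exact (neg_eq_of_add_eq_zero_right h.symm).symm

theorem map_sub (F : BivHom R T) {K Z : LC} (x y : R.Hom K Z) : F.F (x - y) = F.F x - F.F y := by
  rw [sub_eq_add_neg, F.add, F.map_neg, ← sub_eq_add_neg]

theorem map_sum (F : BivHom R T) {K Z : LC} {ι : Type*} (s : Finset ι) (x : ι → R.Hom K Z) :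
    F.F (∑ i ∈ s, x i) = ∑ i ∈ s, F.F (x i) := by
  classical
  induction s using Finset.induction_on with
  | empty => exact F.map_zero K Z
  | insert a s h ih => rw [Finset.sum_insert h, Finset.sum_insert h, F.add, ih]

theorem ltens (F : BivHom R T) {K Z : LC} (V : LC) (x : R.Hom K Z) :
    F.F (R.ltens V x) = T.ltens V (F.F x) := by
  change F.F (R.comp _ (R.comp _ _)) = T.comp _ (T.comp _ _)
  rw [F.comp, F.comp, F.J, F.J, F.tens]

end BivHom

/-- A sub-theory with a natural retraction. -/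
structure Biv.Sub (T : Biv) where
  p : ∀ {K Z : LC}, T.Hom K Z → Prop
  p_add : ∀ {K Z : LC} (x y : T.Hom K Z), p x → p y → p (x + y)
  p_J : ∀ {K Z : LC} (f : PMap K Z.plus), p (T.J f)
  p_comp : ∀ {K L Z : LC} (x : T.Hom K L) (y : T.Hom L Z), p x → p y → p (T.comp x y)
  p_tens : ∀ {K Z : LC} (x : T.Hom K Z) (V : LC), p x → p (T.tens x V)
  ρ : NTr T T
  mem : ∀ {K Z : LC} (x : T.Hom K Z), p (ρ.F x)
  fix : ∀ {K Z : LC} (x : T.Hom K Z), p x → ρ.F x = x

/-- Predicates on the elements of a theory that are closed under all constructions. -/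
structure Good (R : Biv) (p : ∀ {K Z : LC}, R.Hom K Z → Prop) : Prop where
  J : ∀ {K Z : LC} (f : PMap K Z.plus), p (R.J f)
  add : ∀ {K Z : LC} (x y : R.Hom K Z), p x → p y → p (x + y)
  neg : ∀ {K Z : LC} (x : R.Hom K Z), p x → p (-x)
  comp : ∀ {K L Z : LC} (x : R.Hom K L) (y : R.Hom L Z), p x → p y → p (R.comp x y)
  tens : ∀ {K Z : LC} (x : R.Hom K Z) (V : LC), p x → p (R.tens x V)
  susp : ∀ {K Z : LC} (x : R.Hom K Z), p (R.tens x LC.C) → p x
  split : ∀ {K L : LC} (s : R.Hom K L) (r : R.Hom L K), p s → p (R.comp s r) →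
    R.comp r s = R.J (PMap.id L) → p r
  dual : ∀ {K : LC} (n : ℕ) (Z : ℕ → LC) (u : ∀ i, R.Hom K (Z i)) (b : ∀ i, R.Hom (Z i) K),
    (∀ i < n, p (u i)) → ∑ i ∈ Finset.range n, R.comp (u i) (b i) = R.J (PMap.id K) →
    (∀ i < n, ∀ j < n, i ≠ j → R.comp (b i) (u j) = 0) →
    (∀ i < n, R.comp (b i) (u i) = R.J (PMap.id (Z i))) → ∀ i < n, p (b i)

end Pool.Agent.Helper1.Stab
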