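import Pool.Agent.Helper1.Stab.T.Nat
import Pool.Agent.Helper1.Stab.T.Cls
import Pool.Agent.Helper97.Stab.PiAux
import Pool.Agent.Helper74.Stab.RMap
import Pool.Agent.Helper68.Stab.ThetaSU

/-! Project T, layer 1: the projection `ϖ` of `S[BU]` onto `S[BSU]`, `V ↦ V - det V + 1`. -/

open CategoryTheory Topology Filter Set Opposite

noncomputable section

namespace Pool.Agent.Helper1.Stab

open Pool.Agent.Helper63.Stab (jh)

/-! ## Classes of maps to `BU` -/

/-- `c` is the class of the map `F : X → BU` -/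
def IsBGCls (R : GBiv) {X : LC} [CompactSpace X] (F : C(X, BG Set.univ))
    (c : R.Hom X LC.point) : Prop :=
  ∃ (l : ℕ) (G : C(X, Gr Set.univ l)), (∀ x, toBG Set.univ l (G x) = F x) ∧
    c = R.comp (R.J (PMap.ofCont (K := X) (L := LC.G (Fin l)) (fun x => Gr.toGK (G x))
      (Gr.toGK_continuous.comp G.continuous))) (R.g (Fin l))

/-- (BF) maps of compact spaces to `BG D` factor through a stage -/
theorem exists_factor_BG {D : Set ℂ} (hD : GoodD D) {X : Type} [TopologicalSpace X]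
    [CompactSpace X] (F : C(X, BG D)) : ∃ (l : ℕ) (G : C(X, Gr D l)),
      ∀ x, toBG D l (G x) = F x := by
  obtain ⟨l, hl⟩ := HurP.exists_stageC hD (isCompact_range F.continuous)
  let S : C(X, stageLC hD l) :=
    ⟨fun x => ⟨F x, hl ⟨x, rfl⟩⟩, F.continuous.subtype_mk _⟩
  refine ⟨l, ⟨fun x => (Bsu5.stHomeo hD l).symm (S x),
    (Bsu5.stHomeo hD l).symm.continuous.comp S.continuous⟩, fun x => ?_⟩
  exact congrArg Subtype.val ((Bsu5.stHomeo hD l).apply_symm_apply (S x))

theorem IsBGCls.eq_cl (R : GBiv) {X : LC} [CompactSpace X] {F : C(X, BG Set.univ)}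
    {c : R.Hom X LC.point} (h : IsBGCls R F c) : c = HurP.cl R F := by
  obtain ⟨l, G, hG, rfl⟩ := h
  have h1 : F = (toBG Set.univ l).comp G := ContinuousMap.ext fun x => (hG x).symm
  rw [h1]
  exact (HurP.cl_toGK R G).symm

/-- (BH) homotopic maps have the same class -/
theorem IsBGCls.homotopic (R : GBiv) {X : LC} [CompactSpace X] {F F' : C(X, BG Set.univ)}
    {c c' : R.Hom X LC.point} (h : IsBGCls R F c) (h' : IsBGCls R F' c')
    (H : F.Homotopic F') : c = c' := by
  rw [h.eq_cl, h'.eq_cl]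
  exact HurP.cl_homotopic R H

/-- the class of a family with structure group `SU` -/
def GBiv.suCls (R : GBiv) {X : LC} [CompactSpace X] {n : ℕ} (Q : C(X, Gr {1} n)) :
    R.Hom X LC.point :=
  R.comp (R.J (PMap.ofCont (K := X) (L := LC.G (Fin n)) (fun x => Gr.toGK (Gr.toU (Q x)))
    (Gr.toGK_continuous.comp (Gr.toU.continuous.comp Q.continuous)))) (R.g (Fin n))

/-! ## The class of `V - det V + 1` -/

/-- (DQ) the map `V ↦ V - det V + 1` on `G κ` -/
theorem exists_detQ (κ : Type) [Fintype κ] : ∃ (n : ℕ) (Q : C(GK κ, Gr {1} n))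
    (V : DetVec (Fintype.card κ)), ∀ x : Gr Set.univ (Fintype.card κ),
      toBG {1} n (Q ((GK.reindex (Fintype.equivFin κ)).symm (Gr.toGK x))) = V.r x := by
  obtain ⟨V⟩ := exists_detVec (Fintype.card κ)
  have h1 : CompactSpace (Gr Set.univ (Fintype.card κ)) :=
    inferInstanceAs (CompactSpace (Quot (FrameRel Set.univ (Fintype.card κ))))
  let e : Gr Set.univ (Fintype.card κ) ≃ₜ GK (Fin (Fintype.card κ)) :=
    Continuous.homeoOfEquivCompactToT2 (f := Equiv.ofBijective Gr.toGK Gr.toGK_bijective)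
      Gr.toGK_continuous
  obtain ⟨n, Q, hQ⟩ := exists_factor_BG (D := {1}) (Or.inr rfl)
    (V.r.comp ⟨fun P : GK κ => e.symm (GK.reindex (Fintype.equivFin κ) P),
      e.symm.continuous.comp (GK.reindex (Fintype.equivFin κ)).continuous⟩)
  refine ⟨n, Q, V, fun x => (hQ _).trans ?_⟩
  change V.r (e.symm (GK.reindex (Fintype.equivFin κ)
    ((GK.reindex (Fintype.equivFin κ)).symm (Gr.toGK x)))) = V.r x
  rw [Homeomorph.apply_symm_apply]
  exact congrArg V.r (e.symm_apply_apply x)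

/-- the size -/
def detN (κ : Type) [Fintype κ] : ℕ := (exists_detQ κ).choose

/-- the map -/
def detQ (κ : Type) [Fintype κ] : C(GK κ, Gr {1} (detN κ)) := (exists_detQ κ).choose_spec.choose

theorem detQ_spec (κ : Type) [Fintype κ] : ∃ V : DetVec (Fintype.card κ),
    ∀ x : Gr Set.univ (Fintype.card κ),
      toBG {1} (detN κ) (detQ κ ((GK.reindex (Fintype.equivFin κ)).symm (Gr.toGK x))) = V.r x :=
  (exists_detQ κ).choose_spec.choose_spec

/-- the class of `V - det V + 1` -/
def thetaP (R : GBiv) (κ : Type) [Fintype κ] : R.Hom (LC.G κ) LC.point :=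
  R.suCls (X := LC.G κ) (detQ κ)

/-- the map to `BSU` of `detQ` -/
theorem detQ_rMap (κ : Type) [Fintype κ] : ∃ V : DetVec (Fintype.card κ),
    (toBG {1} (detN κ)).comp (detQ κ) =
      Pool.Agent.Helper74.Stab.rMap (Fintype.equivFin κ) V := by
  obtain ⟨V, hV⟩ := detQ_spec κ
  refine ⟨V, ContinuousMap.ext fun P => ?_⟩
  refine Eq.trans ?_ (hV ((Pool.Agent.Helper74.Stab.grH _).symm
    (GK.reindex (Fintype.equivFin κ) P)))
  have h1 : Gr.toGK ((Pool.Agent.Helper74.Stab.grH _).symm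
      (GK.reindex (Fintype.equivFin κ) P)) = GK.reindex (Fintype.equivFin κ) P :=
    (Pool.Agent.Helper74.Stab.grH _).apply_symm_apply _
  rw [h1, Homeomorph.symm_apply_apply]
  rfl

/-- the class of `thetaP` after a map -/
theorem isBGCls_thetaP (R : GBiv) {X : LC} [CompactSpace X] {κ : Type} [Fintype κ]
    (F : C(X, GK κ)) : IsBGCls R (BG.toU.comp (((toBG {1} (detN κ)).comp (detQ κ)).comp F))
      (R.comp (R.J (PMap.ofCont (K := X) (L := LC.G κ) F F.continuous)) (thetaP R κ)) := by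
  refine ⟨detN κ, Gr.toU.comp ((detQ κ).comp F), fun x => toBG_toU _ _, ?_⟩
  rw [thetaP, GBiv.suCls, ← R.assoc, ← R.J_comp]
  rfl

/-- (P1) -/
theorem thetaP_reindex (R : GBiv) {κ l : Type} [Fintype κ] [Fintype l] (ε : κ ≃ l) :
    R.comp (R.J (PMap.ofHomeo (K := LC.G κ) (L := LC.G l) (GK.reindex ε))) (thetaP R l) =
      thetaP R κ := by
  obtain ⟨V, hV⟩ := detQ_rMap κ
  obtain ⟨W, hW⟩ := detQ_rMap l
  have h1 := isBGCls_thetaP R (X := LC.G κ) (Pool.Agent.Helper74.Stab.reC ε)
  have h2 := isBGCls_thetaP R (X := LC.G κ) (ContinuousMap.id (GK κ))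
  have h3 : PMap.ofCont (K := LC.G κ) (L := LC.G κ) (ContinuousMap.id (GK κ))
      (ContinuousMap.id (GK κ)).continuous = PMap.id (LC.G κ) := by
    ext P; rfl
  have h4 : PMap.ofCont (K := LC.G κ) (L := LC.G l) (Pool.Agent.Helper74.Stab.reC ε)
      (Pool.Agent.Helper74.Stab.reC ε).continuous =
      PMap.ofHomeo (K := LC.G κ) (L := LC.G l) (GK.reindex ε) := by
    ext P; rfl
  rw [h3, R.id_comp] at h2
  rw [h4] at h1
  refine h1.homotopic R h2 ?_
  rw [hV, hW]
  refine (ContinuousMap.Homotopic.refl _).comp ?_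
  have h5 : (Pool.Agent.Helper74.Stab.rMap (Fintype.equivFin l) W).comp
      (Pool.Agent.Helper74.Stab.reC ε) =
      Pool.Agent.Helper74.Stab.rMap (ε.trans (Fintype.equivFin l)) W := by
    ext P
    rfl
  rw [h5]
  exact Pool.Agent.Helper74.Stab.rMap_homotopic _ _ _ _

/-- (P2) -/
theorem thetaP_stab (R : GBiv) (κ l : Type) [Fintype κ] [Fintype l] :
    R.comp (R.J (GK.stab κ l)) (thetaP R (κ ⊕ l)) = thetaP R κ := by
  obtain ⟨V, hV⟩ := detQ_rMap κ
  obtain ⟨W, hW⟩ := detQ_rMap (κ ⊕ l)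
  have h1 := isBGCls_thetaP R (X := LC.G κ) (Pool.Agent.Helper74.Stab.stC κ l)
  have h2 := isBGCls_thetaP R (X := LC.G κ) (ContinuousMap.id (GK κ))
  have h3 : PMap.ofCont (K := LC.G κ) (L := LC.G κ) (ContinuousMap.id (GK κ))
      (ContinuousMap.id (GK κ)).continuous = PMap.id (LC.G κ) := by
    ext P; rfl
  have h4 : PMap.ofCont (K := LC.G κ) (L := LC.G (κ ⊕ l)) (Pool.Agent.Helper74.Stab.stC κ l)
      (Pool.Agent.Helper74.Stab.stC κ l).continuous = GK.stab κ l := by
    ext P; rfl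
  rw [h3, R.id_comp] at h2
  rw [h4] at h1
  refine h1.homotopic R h2 ?_
  rw [hV, hW]
  exact (ContinuousMap.Homotopic.refl _).comp (Pool.Agent.Helper74.Stab.rMap_stab _ _ _ _)

/-- (P3) -/
theorem thetaP_base (R : GBiv) (κ : Type) [Fintype κ] :
    R.comp (R.J (PMap.ofPoint (K := LC.G κ) (GK.base κ))) (thetaP R κ) =
      R.J (PMap.id LC.point) := by
  obtain ⟨V, hV⟩ := detQ_rMap κ
  have h1 := isBGCls_thetaP R (X := LC.point) (ContinuousMap.const PUnit (GK.base κ))
  have h4 : PMap.ofCont (K := LC.point) (L := LC.G κ) (ContinuousMap.const PUnit (GK.base κ))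
      (ContinuousMap.const PUnit (GK.base κ)).continuous =
      PMap.ofPoint (K := LC.G κ) (GK.base κ) := by
    ext P; rfl
  rw [h4] at h1
  have h2 : IsBGCls R (X := LC.point) (BG.toU.comp (ContinuousMap.const PUnit
      (toBG {1} (Fintype.card κ) (Gr.pt {1} (Fintype.card κ))))) (R.J (PMap.id LC.point)) := by
    refine ⟨Fintype.card κ, ContinuousMap.const PUnit (Gr.pt Set.univ (Fintype.card κ)),
      fun x => rfl, ?_⟩
    rw [← R.g_base (Fin (Fintype.card κ))]
    congr 2
    ext P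
    refine congrArg (fun x : GK (Fin (Fintype.card κ)) =>
      ((x : GK (Fin (Fintype.card κ))) : OnePoint (GK (Fin (Fintype.card κ))))) ?_
    exact Gr.toGK_pt.symm
  refine h1.homotopic R h2 ?_
  rw [hV]
  exact (ContinuousMap.Homotopic.refl _).comp (Pool.Agent.Helper74.Stab.rMap_base _ _)

/-! ### Sums and homotopies of families with structure group `SU` -/

/-- the Grassmannian of frames is the Grassmannian of projections -/
def grHomeoP (l : ℕ) : Gr Set.univ l ≃ₜ GK (Fin l) := by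
  have hC : CompactSpace (Gr Set.univ l) := inferInstanceAs (CompactSpace (Quot _))
  have hc2 : Continuous (Equiv.ofBijective _ (Gr.toGK_bijective (k := l))) :=
    Gr.toGK_continuous
  exact hc2.homeoOfEquivCompactToT2

theorem grHomeoP_apply (l : ℕ) (x : Gr Set.univ l) : grHomeoP l x = Gr.toGK x := rfl

theorem Gr.toGK_sumP {k l : ℕ} (W : Gr Set.univ k) (x : Gr Set.univ l) :
    Gr.toGK (Gr.sum Set.univ k l (W, x)) =
      GK.reindex finSumFinEquiv (GK.sum (Gr.toGK W, Gr.toGK x)) := by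
  induction W using Quot.ind with | _ B => ?_
  induction x using Quot.ind with | _ A => ?_
  exact Frame.proj_sum B A

theorem Gr.toU_sumP {k l : ℕ} (W : Gr {1} k) (x : Gr {1} l) :
    Gr.toU (Gr.sum {1} k l (W, x)) = Gr.sum Set.univ k l (Gr.toU W, Gr.toU x) := by
  induction W using Quot.ind with | _ B => ?_
  induction x using Quot.ind with | _ A => ?_
  rfl

theorem toBG_sumP {D : Set ℂ} {k l : ℕ} (W : Gr D k) (x : Gr D l) :
    toBG D (k + l) (Gr.sum D k l (W, x)) = Pool.Agent.Helper1.Stab.act D k (W, toBG D l x) := by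
  induction W using Quot.ind with | _ B => ?_
  induction x using Quot.ind with | _ A => ?_
  rfl

/-- the projections of a family with structure group `SU` -/
def suFam {X : LC} {n : ℕ} (Q : C(X, Gr {1} n)) : C(X, GK (Fin n)) :=
  ⟨fun x => Gr.toGK (Gr.toU (Q x)), Gr.toGK_continuous.comp (Gr.toU.continuous.comp Q.continuous)⟩

theorem GBiv.suCls_eq (R : GBiv) {X : LC} [CompactSpace X] {n : ℕ} (Q : C(X, Gr {1} n)) :
    R.suCls Q = Pool.Agent.Helper54.Stab.cl R (suFam Q) := rfl

theorem GBiv.suCls_homotopic (R : GBiv) {X : LC} [CompactSpace X] {n n' : ℕ} (Q : C(X, Gr {1} n))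
    (Q' : C(X, Gr {1} n')) (H : ((toBG {1} n).comp Q).Homotopic ((toBG {1} n').comp Q')) :
    R.suCls Q = R.suCls Q' := by
  refine IsBGCls.homotopic R (F := BG.toU.comp ((toBG {1} n).comp Q))
    (F' := BG.toU.comp ((toBG {1} n').comp Q')) ⟨n, Gr.toU.comp Q, fun x => ?_, rfl⟩
    ⟨n', Gr.toU.comp Q', fun x => ?_, rfl⟩ ((ContinuousMap.Homotopic.refl BG.toU).comp H)
  · exact toBG_toU n (Q x)
  · exact toBG_toU n' (Q' x)

theorem GBiv.comp_suCls (R : GBiv) {X Y : LC} [CompactSpace X] [CompactSpace Y] {n : ℕ}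
    (F : C(Y, X)) (Q : C(X, Gr {1} n)) :
    R.comp (R.J (PMap.ofCont (K := Y) (L := X) F F.continuous)) (R.suCls Q) =
      R.suCls (X := Y) (Q.comp F) := by
  unfold GBiv.suCls
  rw [← R.assoc, ← R.J_comp]
  rfl

theorem GBiv.suCls_sum (R : GBiv) {X : LC} [CompactSpace X] {n m : ℕ} (Q : C(X, Gr {1} n))
    (Q' : C(X, Gr {1} m)) :
    R.mulc (R.suCls Q) (R.suCls Q') = R.suCls ((Gr.sum {1} m n).comp (Q'.prodMk Q)) := by
  rw [R.suCls_eq, R.suCls_eq, R.suCls_eq]
  have h1 := Pool.Agent.Helper54.Stab.cl_sum R (suFam Q) (suFam Q')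
  refine (Eq.trans ?_ h1.symm).trans ?_
  · rfl
  · have h2 : Pool.Agent.Helper54.Stab.cl R (Pool.Agent.Helper54.Stab.sumF (suFam Q) (suFam Q')) =
        Pool.Agent.Helper54.Stab.cl R (Pool.Agent.Helper54.Stab.sumF (suFam Q') (suFam Q)) := by
      refine Pool.Agent.Helper54.Stab.cl_reindex R (Equiv.sumComm (Fin n) (Fin m)) fun k => ?_
      refine Subtype.ext ?_
      ext ⟨x, b⟩ ⟨y, c⟩
      rcases x with x | x <;> rcases y with y | y <;> rfl
    rw [h2]
    refine Pool.Agent.Helper54.Stab.cl_reindex R finSumFinEquiv fun k => ?_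
    change Gr.toGK (Gr.toU (Gr.sum {1} m n (Q' k, Q k))) = _
    rw [Gr.toU_sumP, Gr.toGK_sumP]
    rfl

/-- a family and its image under a permutation of the coordinates are homotopic -/
theorem GK.reindex_homotopic {X : Type} [TopologicalSpace X] {κ : Type} [Fintype κ] (F : C(X, GK κ))
    (σ : Equiv.Perm κ) (F' : C(X, GK κ)) (h : ∀ x, F' x = GK.reindex σ (F x)) :
    F.Homotopic F' := by
  classical
  let τ : Equiv.Perm (κ × Bool) := Equiv.prodCongr σ.symm (Equiv.refl Bool)
  let U : Matrix (κ × Bool) (κ × Bool) ℂ := fun x a => if τ x = a then 1 else 0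
  have hU : U * U.conjTranspose = 1 := by
    ext x y
    rw [Matrix.mul_apply, Finset.sum_eq_single (τ x)]
    · rw [Matrix.conjTranspose_apply, Matrix.one_apply]
      simp only [U, if_true, one_mul, τ.injective.eq_iff]
      by_cases hxy : x = y
      · rw [if_pos hxy.symm, if_pos hxy, star_one]
      · rw [if_neg (fun h' => hxy h'.symm), if_neg hxy, star_zero]
    · intro b _ hb
      simp only [U]
      rw [if_neg (fun h' => hb h'.symm), zero_mul]
    · intro h'
      exact absurd (Finset.mem_univ _) h'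
  have hval : ∀ x, (F' x).1 = U * (F x).1 * U.conjTranspose := by
    intro x
    ext a b
    rw [h, Matrix.mul_apply, Finset.sum_eq_single (τ b)]
    · rw [Matrix.conjTranspose_apply, Matrix.mul_apply, Finset.sum_eq_single (τ a)]
      · simp only [U, if_true, one_mul, star_one, mul_one]
        rfl
      · intro c _ hc
        simp only [U]
        rw [if_neg (fun h' => hc h'.symm), zero_mul]
      · intro h'
        exact absurd (Finset.mem_univ _) h'
    · intro c _ hc
      rw [Matrix.conjTranspose_apply]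
      simp only [U]
      rw [if_neg (fun h' => hc h'.symm), star_zero, mul_zero]
    · intro h'
      exact absurd (Finset.mem_univ _) h'
  obtain ⟨u, h1, h2, h3, c, h4, h5⟩ :=
    Pool.Agent.Helper54.Stab.exists_path U (mul_eq_one_comm.1 hU)
  refine ⟨⟨⟨fun x => Pool.Agent.Helper54.Stab.cj (u x.1) (h2 x.1) (F x.2), ?_⟩, fun x => ?_,
    fun x => ?_⟩⟩
  · refine Continuous.subtype_mk ?_ _
    have hu : Continuous fun x : unitInterval × X => u x.1 := h1.comp continuous_fst
    have hF : Continuous fun x : unitInterval × X => (F x.2).1 :=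
      continuous_subtype_val.comp (F.continuous.comp continuous_snd)
    exact (hu.matrix_mul hF).matrix_mul hu.matrix_conjTranspose
  · refine Subtype.ext ?_
    change (Pool.Agent.Helper54.Stab.cj (u 0) (h2 0) (F x)).1 = (F x).1
    rw [Pool.Agent.Helper54.Stab.cj_val, h3, Matrix.conjTranspose_one, Matrix.one_mul,
      Matrix.mul_one]
  · refine Subtype.ext ?_
    change (Pool.Agent.Helper54.Stab.cj (u 1) (h2 1) (F x)).1 = (F' x).1
    rw [Pool.Agent.Helper54.Stab.cj_val, hval, h5, Matrix.conjTranspose_smul, Matrix.smul_mul,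
      Matrix.smul_mul, Matrix.mul_smul, smul_smul, mul_comm, h4, one_smul]

/-- the map `V - det V + 1` in arbitrary coordinates -/
theorem detQ_homotopic {X : Type} [TopologicalSpace X] {κ : Type} [Fintype κ] {m : ℕ}
    (e : κ ≃ Fin m) (W : DetVec m) (F : C(X, GK κ)) (y : C(X, Gr Set.univ m))
    (hy : ∀ x, Gr.toGK (y x) = GK.reindex e (F x)) :
    ((toBG {1} (detN κ)).comp ((detQ κ).comp F)).Homotopic (W.r.comp y) := by
  have h : Fintype.card κ = m := by
    rw [Fintype.card_congr e, Fintype.card_fin]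
  subst h
  obtain ⟨V, hV⟩ := detQ_spec κ
  let z : C(X, Gr Set.univ (Fintype.card κ)) :=
    ⟨fun x => (grHomeoP (Fintype.card κ)).symm (GK.reindex (Fintype.equivFin κ) (F x)),
      (grHomeoP _).symm.continuous.comp ((GK.reindex (Fintype.equivFin κ)).continuous.comp
        F.continuous)⟩
  have hz : ∀ x, Gr.toGK (z x) = GK.reindex (Fintype.equivFin κ) (F x) := fun x =>
    (grHomeoP (Fintype.card κ)).apply_symm_apply _
  have e1 : (toBG {1} (detN κ)).comp ((detQ κ).comp F) = V.r.comp z := by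
    refine ContinuousMap.ext fun x => ?_
    have h1 := hV (z x)
    rw [hz, Homeomorph.symm_apply_apply] at h1
    exact h1
  rw [e1]
  refine (DetVec.r_homotopic V W).comp ?_
  let ψ : C(GK (Fin (Fintype.card κ)), Gr Set.univ (Fintype.card κ)) :=
    ⟨(grHomeoP (Fintype.card κ)).symm, (grHomeoP (Fintype.card κ)).symm.continuous⟩
  let tg : C(Gr Set.univ (Fintype.card κ), GK (Fin (Fintype.card κ))) :=
    ⟨Gr.toGK, Gr.toGK_continuous⟩
  have h2 : (tg.comp z).Homotopic (tg.comp y) := by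
    refine GK.reindex_homotopic _ ((Fintype.equivFin κ).symm.trans e) _ fun x => ?_
    change Gr.toGK (y x) = GK.reindex _ (Gr.toGK (z x))
    rw [hy, hz]
    refine Subtype.ext ?_
    ext a b
    change (F x).1 _ _ = (F x).1 ((Fintype.equivFin κ).symm ((Fintype.equivFin κ)
      (e.symm a.1)), a.2) ((Fintype.equivFin κ).symm ((Fintype.equivFin κ) (e.symm b.1)), b.2)
    rw [Equiv.symm_apply_apply, Equiv.symm_apply_apply]
  have h3 := (ContinuousMap.Homotopic.refl ψ).comp h2
  have e2 : ψ.comp (tg.comp z) = z := by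
    refine ContinuousMap.ext fun x => ?_
    exact (grHomeoP (Fintype.card κ)).symm_apply_apply _
  have e3 : ψ.comp (tg.comp y) = y := by
    refine ContinuousMap.ext fun x => ?_
    exact (grHomeoP (Fintype.card κ)).symm_apply_apply _
  rwa [e2, e3] at h3

/-- (P4) adding a family with structure group `SU` -/
theorem thetaP_su (R : GBiv) {X : LC} [CompactSpace X] {κ : Type} [Fintype κ] {n : ℕ}
    (V : C(X, GK κ)) (Q : C(X, Gr {1} n)) :
    R.comp (R.J (PMap.ofCont (K := X) (L := LC.G (κ ⊕ Fin n))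
      (fun x => GK.sum (V x, Gr.toGK (Gr.toU (Q x)))) (GK.continuous_sum.comp
        (V.continuous.prodMk (Gr.toGK_continuous.comp (Gr.toU.continuous.comp Q.continuous))))))
      (thetaP R (κ ⊕ Fin n)) =
    R.mulc (R.comp (R.J (PMap.ofCont (K := X) (L := LC.G κ) V V.continuous)) (thetaP R κ))
      (R.suCls Q) := by
  let F : C(X, GK (κ ⊕ Fin n)) := ⟨fun x => GK.sum (V x, Gr.toGK (Gr.toU (Q x))),
    GK.continuous_sum.comp
        (V.continuous.prodMk (Gr.toGK_continuous.comp (Gr.toU.continuous.comp Q.continuous)))⟩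
  have e1 := R.comp_suCls (X := LC.G (κ ⊕ Fin n)) (Y := X) F (detQ (κ ⊕ Fin n))
  have e2 := R.comp_suCls (X := LC.G κ) (Y := X) V (detQ κ)
  refine Eq.trans e1 ?_
  have e3 : R.comp (R.J (PMap.ofCont (K := X) (L := LC.G κ) V V.continuous)) (thetaP R κ) =
    R.suCls (X := X) ((detQ κ).comp V) := e2
  rw [e3, R.suCls_sum]
  refine R.suCls_homotopic _ _ ?_
  obtain ⟨V0⟩ := exists_detVec (Fintype.card κ)
  obtain ⟨W⟩ := exists_detVec (n + Fintype.card κ)
  let v : C(X, Gr Set.univ (Fintype.card κ)) :=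
    ⟨fun x => (grHomeoP (Fintype.card κ)).symm (GK.reindex (Fintype.equivFin κ) (V x)),
      (grHomeoP _).symm.continuous.comp ((GK.reindex (Fintype.equivFin κ)).continuous.comp
        V.continuous)⟩
  have hv : ∀ x, Gr.toGK (v x) = GK.reindex (Fintype.equivFin κ) (V x) := fun x =>
    (grHomeoP (Fintype.card κ)).apply_symm_apply _
  let y : C(X, Gr Set.univ (n + Fintype.card κ)) :=
    (Gr.sum Set.univ n (Fintype.card κ)).comp ((Gr.toU.comp Q).prodMk v)
  have h1 : ((toBG {1} (detN (κ ⊕ Fin n))).comp ((detQ (κ ⊕ Fin n)).comp F)).Homotopic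
      (W.r.comp y) := by
    refine detQ_homotopic ((Equiv.sumComm κ (Fin n)).trans
      ((Equiv.sumCongr (Equiv.refl _) (Fintype.equivFin κ)).trans finSumFinEquiv)) W F y
      fun x => ?_
    change Gr.toGK (Gr.sum Set.univ n (Fintype.card κ) (Gr.toU (Q x), v x)) = _
    rw [Gr.toGK_sumP, hv]
    refine Subtype.ext ?_
    ext ⟨a, b⟩ ⟨a', b'⟩
    obtain ⟨a, rfl⟩ := finSumFinEquiv.surjective a
    obtain ⟨a', rfl⟩ := finSumFinEquiv.surjective a'
    change sumFun _ _ (finSumFinEquiv.symm (finSumFinEquiv a), b)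
      (finSumFinEquiv.symm (finSumFinEquiv a'), b') =
      sumFun _ _ ((Equiv.sumComm κ (Fin n)).symm ((Equiv.sumCongr (Equiv.refl _)
        (Fintype.equivFin κ)).symm (finSumFinEquiv.symm (finSumFinEquiv a))), b)
        ((Equiv.sumComm κ (Fin n)).symm ((Equiv.sumCongr (Equiv.refl _)
        (Fintype.equivFin κ)).symm (finSumFinEquiv.symm (finSumFinEquiv a'))), b')
    rw [Equiv.symm_apply_apply, Equiv.symm_apply_apply]
    rcases a with a | a <;> rcases a' with a' | a' <;> rfl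
  have h2 := (DetVec.r_sum V0 W).comp (ContinuousMap.Homotopic.refl (Q.prodMk v))
  have h3 : (((toBG {1} (detN κ)).comp ((detQ κ).comp V))).Homotopic (V0.r.comp v) :=
    detQ_homotopic (Fintype.equivFin κ) V0 V v hv
  have h4 := (ContinuousMap.Homotopic.refl (Pool.Agent.Helper1.Stab.act {1} n)).comp
    ((ContinuousMap.Homotopic.refl Q).prodMk h3)
  refine (h1.trans (h2.trans ?_))
  refine ContinuousMap.Homotopic.trans ?_ (h4.symm.trans ?_)
  · exact ContinuousMap.Homotopic.refl _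
  · have e4 : (toBG {1} (n + detN κ)).comp ((Gr.sum {1} n (detN κ)).comp
        (Q.prodMk ((detQ κ).comp V))) = (Pool.Agent.Helper1.Stab.act {1} n).comp
          (Q.prodMk ((toBG {1} (detN κ)).comp ((detQ κ).comp V))) := by
      refine ContinuousMap.ext fun x => ?_
      exact toBG_sumP _ _
    exact e4 ▸ ContinuousMap.Homotopic.refl _

/-- (P5) the loop condition -/
theorem thetaP_loop {k e : ℕ} (he : 0 < e) (g : GenLoop (Fin (2 * e)) (Gr {1} k) (Gr.pt {1} k))
    (R : GBiv) (a : R.Hom (LC.cpow (Fin e)) LC.point)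
    (ha : IsHur R (loopGK (loopToU g)) a) (κ : Type) [Fintype κ] :
    R.comp (R.J (loopAct (loopGK (loopToU g)) κ)) (thetaP R (κ ⊕ Fin k)) =
      R.comp (R.act (thetaP R κ) (LC.sph e))
        (R.J (PMap.toPoint (LC.sph e)) + R.comp (R.J (collSph e)) a) := by
  have hb : ∀ z : LC.sph e, Gr.toGK (Gr.toU (loopBar g z)) = loopBar (loopGK (loopToU g)) z := by
    intro z
    induction z using OnePoint.rec with
    | infty => exact Gr.toGK_pt
    | coe z => rfl
  let X : LC := (LC.G κ).prod (LC.sph e)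
  let V : C(X, GK κ) := ⟨fun x => x.1, continuous_fst⟩
  let Q : C(X, Gr {1} k) := ⟨fun x => loopBar g x.2, (loopBar g).continuous.comp continuous_snd⟩
  have h1 := thetaP_su R (X := X) V Q
  have e1 : loopAct (loopGK (loopToU g)) κ = PMap.ofCont (K := X) (L := LC.G (κ ⊕ Fin k))
      (fun x => GK.sum (V x, Gr.toGK (Gr.toU (Q x)))) (GK.continuous_sum.comp
        (V.continuous.prodMk (Gr.toGK_continuous.comp (Gr.toU.continuous.comp Q.continuous)))) := by
    ext x
    refine congrArg (fun P : GK (κ ⊕ Fin k) => (P : OnePoint (GK (κ ⊕ Fin k)))) ?_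
    exact congrArg (fun P => GK.sum (x.1, P)) (hb x.2).symm
  rw [e1]
  refine h1.trans ?_
  have e2 : R.suCls Q = R.comp (R.J (PMap.ofCont (K := X) (L := LC.sph e) Prod.snd continuous_snd))
      (R.J (PMap.toPoint (LC.sph e)) + R.comp (R.J (collSph e)) a) := by
    have h2 : R.J (PMap.toPoint (LC.sph e)) + R.comp (R.J (collSph e)) a =
        R.suCls (X := LC.sph e) (loopBar g) := by
      rw [show R.comp (R.J (collSph e)) a = _ from ha, add_sub_cancel]
      unfold GBiv.suCls
      congr 2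
      ext z
      exact congrArg (fun P : GK (Fin k) => (P : OnePoint (GK (Fin k)))) (hb z).symm
    rw [h2]
    exact (R.comp_suCls (X := LC.sph e) (Y := X) ⟨Prod.snd, continuous_snd⟩ (loopBar g)).symm
  rw [e2]
  refine (Pool.Agent.Helper33.Stab.mul_pr33 R (K := LC.G κ) (L := LC.sph e) (thetaP R κ)
    (R.J (PMap.toPoint (LC.sph e)) + R.comp (R.J (collSph e)) a)).trans ?_
  rw [R.assoc, Pool.Agent.Helper25.Stab.ltens_point]
  exact (R.assoc _ _ _).symm

/-- (P6) the class `θ` is the class of a family with structure group `SU` -/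
theorem exists_theta_su (S S' : Type) [Fintype S] [Fintype S'] :
    ∃ (n : ℕ) (Q : C((LC.Pr S 1).prod (LC.Pr S' 1), Gr {1} n)),
      ∀ R : GBiv, R.theta S S' = R.suCls (X := (LC.Pr S 1).prod (LC.Pr S' 1)) Q :=
  Pool.Agent.Helper68.Stab.ThSU.exists_theta S S'

/-- (LC) linearity in front and behind are the same -/
theorem NTr.com_of_lin {T : Biv} (ϖ : NTr T T) {e : ℕ} (a : T.Hom (LC.cpow (Fin e)) LC.point)
    (h : ϖ.Lin a a) : ϖ.Com a :=
  Helper97.Stab.com_of_lin (A := LC.cpow (Fin e)) ϖ a h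

section
variable {k e : ℕ} (he : 0 < e) (g : GenLoop (Fin (2 * e)) (Gr {1} k) (Gr.pt {1} k))
  (T : LocTheory (loopDatum (loopGK (loopToU g)))) (a : T.Hom (LC.cpow (Fin e)) LC.point)
  (ha : IsHur T.toGBiv (loopGK (loopToU g)) a)

include he ha

/-- (PE) the projection exists -/
theorem exists_pi : ∃ ϖ : NTr T.toBiv T.toBiv,
    (∀ (κ : Type) [Fintype κ], ϖ.F (T.g κ) = thetaP T.toGBiv κ) ∧ ϖ.Lin a a := by
  obtain ⟨x, x', hx, h1, h2⟩ := exists_hur_inv he (loopGK (loopToU g)) T
  have hxa : x = a := collSph_injective T.toBiv (hx.trans ha.symm)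
  subst hxa
  obtain ⟨F, hF1, hF2⟩ := LocTheory.exists_ntr he (loopGK (loopToU g)) T x hx T.toBiv
    (fun κ _ => thetaP T.toGBiv κ) (fun ε => thetaP_reindex T.toGBiv ε)
    (fun κ l _ _ => thetaP_stab T.toGBiv κ l) x x' h1 h2
    (fun κ _ => thetaP_loop he g T.toGBiv x hx κ)
  exact ⟨F, hF1, hF2⟩

variable (ϖ : NTr T.toBiv T.toBiv)
  (hϖ : ∀ (κ : Type) [Fintype κ], ϖ.F (T.g κ) = thetaP T.toGBiv κ) (hl : ϖ.Lin a a)

include hϖ hl

/-- (P7) the projection is linear over classes of families with structure group `SU` -/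
theorem pi_com_su {X : LC} [CompactSpace X] {n : ℕ} (Q : C(X, Gr {1} n)) :
    ϖ.Com (T.toGBiv.suCls Q) := by
  refine LocTheory.com_of_uni he (loopGK (loopToU g)) T a ha ϖ hl (T.toGBiv.suCls Q) fun m => ?_
  have e1 : ϖ.F (T.toGBiv.uni (Fin m) X) = T.comp (T.tens (thetaP T.toGBiv (Fin m)) X)
      (jh T.toBiv ((LC.lunit X).trans (Homeomorph.prodPUnit X).symm)) := by
    rw [GBiv.uni, Helper97.Stab.ntr_post_jh, ϖ.tens, hϖ]
  have e2 : ϖ.F (T.toBiv.mulx (T.g (Fin m)) (T.toGBiv.suCls Q)) =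
      T.toBiv.mulx (thetaP T.toGBiv (Fin m)) (T.toGBiv.suCls Q) := by
    have h1 := Helper97.Stab.mulx_g T.toGBiv (X := X) (Fin m) (Fin n)
      (fun x => Gr.toGK (Gr.toU (Q x)))
      (Gr.toGK_continuous.comp (Gr.toU.continuous.comp Q.continuous))
    have h2 := thetaP_su T.toGBiv (X := (LC.G (Fin m)).prod X) (κ := Fin m)
      (⟨Prod.fst, continuous_fst⟩ : C((LC.G (Fin m)).prod X, GK (Fin m)))
      (Q.comp (⟨Prod.snd, continuous_snd⟩ : C((LC.G (Fin m)).prod X, X)))
    have h3 := Helper97.Stab.mulc_eq_mulx T.toBiv (thetaP T.toGBiv (Fin m)) (T.toGBiv.suCls Q)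
    have h4 : T.toGBiv.suCls (Q.comp (⟨Prod.snd, continuous_snd⟩ :
        C((LC.G (Fin m)).prod X, X))) = T.comp (T.J (PMap.ofCont (K := (LC.G (Fin m)).prod X)
          (L := X) Prod.snd continuous_snd)) (T.toGBiv.suCls Q) := by
      rw [GBiv.suCls, GBiv.suCls, ← T.assoc, ← T.J_comp]
      congr 2
    rw [GBiv.suCls, h1, ϖ.pre, hϖ]
    rw [h4] at h2
    exact h2.trans h3
  rw [e1, Helper97.Stab.uniC_comp, ← e2, GBiv.uni, Helper97.Stab.uniC_comp,
    Helper97.Stab.ntr_post_jh]

/-- (P8) unit -/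
theorem pi_J {K Z : LC} (f : PMap K Z.plus) : ϖ.F (T.J f) = T.J f := by
  refine Helper97.Stab.ntr_J ϖ ?_ f
  conv_lhs => rw [← T.g_base (Fin 0), ϖ.pre, hϖ]
  exact thetaP_base T.toGBiv (Fin 0)

/-- (P9) the projection is linear over its image -/
theorem pi_com_pi {K Z : LC} (x : T.Hom K Z) : ϖ.Com (ϖ.F x) := by
  have G := good_com ϖ
  obtain ⟨y, a', hy, h1, h2⟩ := exists_hur_inv he (loopGK (loopToU g)) T
  have hya : y = a := collSph_injective T.toBiv (hy.trans ha.symm)
  subst hya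
  have hCa : ϖ.Com y := NTr.com_of_lin ϖ y hl
  have hCa' : ϖ.Com a' := G.split y a' hCa (by rw [h1]; exact G.J _) h2
  refine @LocTheory.induct0 _ _ _ he (loopGK (loopToU g)) T y hy (fun {K Z} x => ϖ.Com (ϖ.F x))
    (fun φ x hx => ?_) (fun φ x hx => ?_) (fun V x hx => ?_) (fun x hx => ?_)
    (fun {K Z} x hx => ?_) (fun n => ?_) K Z x
  · rw [ϖ.pre]
    exact G.comp _ _ (G.J φ) hx
  · rw [ϖ.post]
    exact G.comp _ _ hx (G.J φ)
  · rw [ϖ.tens]
    exact G.tens _ V hx
  · rw [ϖ.tens] at hx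
    exact G.susp _ hx
  · rw [hl x] at hx
    have h3 : T.comp (T.comp (jh T.toBiv (LC.lunit K).symm) (T.tens a' K))
        (T.toBiv.mulx y (ϖ.F x)) = ϖ.F x := by
      have h5 : T.toBiv.mulx y (ϖ.F x) = T.comp (T.tens y K)
          (T.comp (jh T.toBiv (LC.lunit K)) (ϖ.F x)) := rfl
      rw [h5, T.assoc, ← T.assoc (T.tens a' K), ← T.tens_comp, h2,
        Helper63.Stab.tens_id, T.id_comp, Helper63.Stab.jh_symm_comp]
    have h6 : ϖ.Com (jh T.toBiv (LC.lunit K).symm) := G.J (PMap.ofHomeo (LC.lunit K).symm)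
    have h7 : ϖ.Com (T.comp (jh T.toBiv (LC.lunit K).symm) (T.tens a' K)) :=
      G.comp _ _ h6 (G.tens _ K hCa')
    have h8 : ϖ.Com (T.comp (T.comp (jh T.toBiv (LC.lunit K).symm) (T.tens a' K))
        (T.toBiv.mulx y (ϖ.F x))) := by
      apply G.comp
      · exact h7
      · exact hx
    rw [h3] at h8
    exact @h8
  · rw [hϖ]
    exact pi_com_su he g T y hy ϖ hϖ hl (X := LC.G (Fin n)) (detQ (Fin n))

end

end Pool.Agent.Helper1.Stab
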