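import Pool.Agent.Helper1.Stab.T.Cls
import Pool.Agent.Helper58.Stab.ActC
import Pool.Agent.Helper93.Stab.LG
import Pool.Agent.Helper60.Stab.FC
import Pool.Agent.Helper54.Stab.PolyHom
import Pool.Agent.Helper19.Stab.MonoAux

/-! Project T, layer 1: the theory `R ∧ BU₊` as a polynomial theory. -/

open CategoryTheory Topology Filter Set Opposite

noncomputable section

namespace Pool.Agent.Helper1.Stab

open Pool.Agent.Helper63.Stab (jh)

namespace PRTheory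
variable {R : Biv} (P : PRTheory R) (o : Orient R)

/-- the inclusion as a morphism -/
def incHom : BivHom R P.toBiv := ⟨P.inc, P.inc_add, P.inc_J, P.inc_comp, P.inc_tens⟩

/-- (PL) Universal property of the polynomial theory: values on the coefficients and on the
classes `b_i` for `i ≥ 1` can be prescribed. -/
theorem exists_poly_hom (o : Orient R) {T : Biv} (F : BivHom R T)
    (β : ∀ i : ℕ, T.Hom (Cn i) LC.point) :
    ∃ Φ : BivHom P.toBiv T, (∀ {K Z : LC} (x : R.Hom K Z), Φ.F (P.inc x) = F.F x) ∧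
      ∀ i, 0 < i → Φ.F (P.b o i) = β i :=
  Pool.Agent.Helper54.Stab.exists_poly_hom54 P o F β

theorem map_mulPt34 {T : Biv} (Φ : BivHom P.toBiv T) {K L : LC} (x : P.Hom K LC.point)
    (y : P.Hom L LC.point) : Φ.F (P.mulPt x y) =
      T.comp (T.comp (T.tens (Φ.F x) L) (T.ltens LC.point (Φ.F y)))
        (T.J (PMap.ofHomeo (LC.lunit LC.point))) := by
  unfold mulPt
  rw [Φ.comp, Φ.comp, Φ.tens, Φ.ltens, Φ.J]

theorem map_term34 {T : Biv} (Φ : BivHom P.toBiv T) {K Z : LC} {d : ℕ}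
    (c : R.Hom K ((Cn d).prod Z)) (x : P.Hom (Cn d) LC.point) : Φ.F (P.term c x) =
      T.comp (Φ.F (P.inc c)) (T.comp (T.tens (Φ.F x) Z)
        (T.J (PMap.ofHomeo (LC.lunit Z)))) := by
  unfold term
  rw [Φ.comp, Φ.comp, Φ.tens, Φ.J]

theorem bL_ext34 (o : Orient R) {T : Biv} (Φ Ψ : BivHom P.toBiv T)
    (hb : ∀ i, 0 < i → Φ.F (P.b o i) = Ψ.F (P.b o i)) : ∀ L : List ℕ, (∀ i ∈ L, 0 < i) →
      Φ.F (P.bL o L) = Ψ.F (P.bL o L) := by
  intro L
  induction L with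
  | nil =>
    intro _
    change Φ.F (P.J _) = Ψ.F (P.J _)
    rw [Φ.J, Ψ.J]
  | cons i L ih =>
    intro hL
    have h1 := ih fun k hk => hL k (List.mem_cons_of_mem _ hk)
    have h2 := hb i (hL i List.mem_cons_self)
    change Φ.F (P.comp (P.J (PMap.ofHomeo (CnAdd (deg L) i).symm)) (P.mulPt (P.bL o L) (P.b o i))) =
      Ψ.F (P.comp (P.J (PMap.ofHomeo (CnAdd (deg L) i).symm)) (P.mulPt (P.bL o L) (P.b o i)))
    rw [Φ.comp, Ψ.comp, Φ.J, Ψ.J, map_mulPt34, map_mulPt34, h1, h2]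

/-- (PU) uniqueness -/
theorem poly_hom_ext (o : Orient R) {T : Biv} (Φ Ψ : BivHom P.toBiv T)
    (h : ∀ {K Z : LC} (x : R.Hom K Z), Φ.F (P.inc x) = Ψ.F (P.inc x))
    (hb : ∀ i, 0 < i → Φ.F (P.b o i) = Ψ.F (P.b o i)) {K Z : LC} (x : P.Hom K Z) :
    Φ.F x = Ψ.F x := by
  classical
  obtain ⟨c, rfl⟩ := PO7.psi_surj P o K Z x
  rw [PO7.psi_apply, DFinsupp.sum, Φ.map_sum, Ψ.map_sum]
  refine Finset.sum_congr rfl fun L _ => ?_
  rw [map_term34, map_term34, h, P.bL_ext34 o Φ Ψ hb L.1 L.2.2]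

/-- (LG) Universal property of `R ∧ BU₊`. -/
theorem exists_g_hom (G : GBiv) (F : BivHom R G.toBiv) :
    ∃ Φ : BivHom P.toBiv G.toBiv, (∀ {K Z : LC} (x : R.Hom K Z), Φ.F (P.inc x) = F.F x) ∧
      ∀ (κ : Type) [Fintype κ], Φ.F (P.g κ) = G.g κ :=
  Pool.Agent.Helper93.Stab.LG.exists_g_hom P G F

/-- (AU) a morphism that is the identity on `R` and kills all `b_i` with `i ≥ 1` sends all classes
of bundles to one -/
theorem aug_g (o : Orient R) {T : Biv} (Φ : BivHom P.toBiv T)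
    (hb : ∀ i, 0 < i → Φ.F (P.b o i) = 0) (κ : Type) [Fintype κ] :
    Φ.F (P.g κ) = T.J (PMap.toPoint (LC.G κ)) := by
  obtain ⟨Ψ, h1, h2, h3⟩ := Pool.Agent.Helper93.Stab.LG.exists_triv o Φ
  rw [poly_hom_ext P o Φ Ψ (fun x => (h1 x).symm) (fun i hi => by rw [hb i hi, h2 i hi]) (P.g κ),
    h3]

/-- the class of the tautological line bundle on the cells -/
theorem b_taut34 (o : Orient R) {S : Type} [Fintype S] {i : ℕ} (hi : i < Fintype.card S) :
    P.comp (P.inc (o.b S i)) (P.toGBiv.bun (K := LC.Pr S 1) (ContinuousMap.id _)) = P.b o i := by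
  have hc : Fintype.card (Fin (i + 1)) ≤ Fintype.card S := by
    rw [Fintype.card_fin]
    exact hi
  obtain ⟨j⟩ := Function.Embedding.nonempty_of_card_le hc
  have h1 := o.b_ext j (i := i) (by rw [Fintype.card_fin]; exact Nat.lt_succ_self i)
  rw [← h1, P.inc_comp, P.inc_J, P.assoc]
  unfold b
  congr 1
  have h2 := P.toGBiv.bun_comp (K := LC.Pr (Fin (i + 1)) 1) (L := LC.Pr S 1)
    ⟨Pr.ext j, Pr.continuous_ext j⟩ (ContinuousMap.id _)
  have h3 := P.toGBiv.bun_ext54 (K := LC.Pr (Fin (i + 1)) 1) j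
    (ContinuousMap.id (Pr (Fin (i + 1)) 1)) (⟨Pr.ext j, Pr.continuous_ext j⟩) fun k => rfl
  exact h2.trans h3

/-- (TA) the class of a line bundle -/
theorem bun_line (o : Orient R) {X : LC} [CompactSpace X] {S : Type} [Fintype S]
    (E : C(X, Pr S 1)) : P.toGBiv.bun E = ∑ i ∈ Finset.range (Fintype.card S),
      P.comp (P.inc (R.comp (R.J (PMap.ofCont (K := X) (L := LC.Pr S 1) E E.continuous))
        (o.upow S i))) (P.b o i) := by
  have h1 : P.toGBiv.bun E = P.comp (P.J (PMap.ofCont (K := X) (L := LC.Pr S 1) E E.continuous))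
      (P.toGBiv.bun (K := LC.Pr S 1) (ContinuousMap.id _)) :=
    (P.toGBiv.bun_comp (K := X) (L := LC.Pr S 1) E (ContinuousMap.id _)).symm
  have h2 : P.J (PMap.id (LC.Pr S 1)) = ∑ i ∈ Finset.range (Fintype.card S),
      P.comp (P.inc (o.upow S i)) (P.inc (o.b S i)) := by
    have h := (o.b_dual S).sum
    rw [← P.inc_J, ← h]
    have h3 : ∀ (s : Finset ℕ) (f : ℕ → R.Hom (LC.Pr S 1) (LC.Pr S 1)),
        P.inc (∑ i ∈ s, f i) = ∑ i ∈ s, P.inc (f i) := fun s f => P.incHom.map_sum s f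
    rw [h3]
    refine Finset.sum_congr rfl fun i _ => ?_
    rw [P.inc_comp, o.upow_eq_up]
  rw [h1]
  conv_lhs => rw [← P.comp_id (P.J (PMap.ofCont (K := X) (L := LC.Pr S 1) E E.continuous)), h2]
  rw [P.assoc, PO7.sum_comp, Pool.Agent.Helper74.Stab.comp_sum]
  refine Finset.sum_congr rfl fun i hi => ?_
  rw [P.assoc, P.b_taut34 o (Finset.mem_range.1 hi), P.inc_comp, P.inc_J, P.assoc]

end PRTheory

/-- the powers `β^k ∈ T(ℂ^k, pt)` -/
def bpow (T : Biv) (β : T.Hom LC.C LC.point) : ∀ k : ℕ, T.Hom (Cn k) LC.point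
  | 0 => T.J (PMap.id LC.point)
  | k + 1 => T.comp (T.comp (T.tens (bpow T β k) LC.C) (T.ltens LC.point β))
      (T.J (PMap.ofHomeo (LC.lunit LC.point)))

theorem map_bpow34 {R T : Biv} (Φ : BivHom R T) (β : R.Hom LC.C LC.point) :
    ∀ k : ℕ, Φ.F (bpow R β k) = bpow T (Φ.F β) k := by
  intro k
  induction k with
  | zero => exact Φ.J _
  | succ k ih =>
    change Φ.F (R.comp (R.comp (R.tens (bpow R β k) LC.C) (R.ltens LC.point β))
      (R.J (PMap.ofHomeo (LC.lunit LC.point)))) = T.comp (T.comp (T.tens (bpow T (Φ.F β) k) LC.C)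
        (T.ltens LC.point (Φ.F β))) (T.J (PMap.ofHomeo (LC.lunit LC.point)))
    rw [Φ.comp, Φ.comp, Φ.tens, Φ.ltens, Φ.J, ih]

section
variable {R : Biv} (P : PRTheory R) (o : Orient R)

/-- The projection of the polynomial theory onto the polynomials in `b_m`, and the class `β` of
degree one that is `b_m` up to a class of `R`. -/
structure MonoData (m : ℕ) where
  Λ : BivHom P.toBiv P.toBiv
  inc : ∀ {K Z : LC} (x : R.Hom K Z), Λ.F (P.inc x) = P.inc x
  b : Λ.F (P.b o m) = P.b o m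
  b_ne : ∀ i, 0 < i → i ≠ m → Λ.F (P.b o i) = 0
  w : R.Hom (Cn m) LC.C
  w' : R.Hom LC.C (Cn m)
  ww' : R.comp w w' = R.J (PMap.id _)
  w'w : R.comp w' w = R.J (PMap.id _)

/-- the class `β` -/
def MonoData.β {P : PRTheory R} {o : Orient R} {m : ℕ} (D : MonoData P o m) :
    P.Hom LC.C LC.point := P.comp (P.inc D.w') (P.b o m)

variable {P o}

theorem MonoData.b_eq19 {m : ℕ} (D : MonoData P o m) :
    P.b o m = P.comp (P.inc D.w) D.β := by
  unfold MonoData.β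
  rw [← P.assoc, ← P.inc_comp, D.ww', P.inc_J, P.id_comp]

/-- (Q1) every element in the image of `Λ` is a polynomial in `β` -/
theorem MonoData.exists_coef {m : ℕ} (hm : 0 < m) (D : MonoData P o m) {K Z : LC}
    (x : P.Hom K Z) (hx : D.Λ.F x = x) : ∃ (N : ℕ) (c : ∀ k : ℕ, R.Hom K ((Cn k).prod Z)),
      (∀ k, N ≤ k → c k = 0) ∧ x = ∑ k ∈ Finset.range N, P.term (c k) (bpow P.toBiv D.β k) :=
  Pool.Agent.Helper19.Stab.exists_coef P o hm D.Λ D.inc D.b D.b_ne D.b_eq19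
    (bpow P.toBiv D.β) rfl (fun _ => rfl) x hx

/-- (Q2) the coefficients are unique -/
theorem MonoData.coef_unique {m : ℕ} (hm : 0 < m) (D : MonoData P o m) {K Z : LC} (N : ℕ)
    (c : ∀ k : ℕ, R.Hom K ((Cn k).prod Z))
    (h : ∑ k ∈ Finset.range N, P.term (c k) (bpow P.toBiv D.β k) = 0) : ∀ k < N, c k = 0 :=
  Pool.Agent.Helper19.Stab.coef_unique P o hm D.w'w D.b_eq19
    (bpow P.toBiv D.β) rfl (fun _ => rfl) N c h

theorem term_eq_act58 {K Z : LC} {d : ℕ} (c : R.Hom K ((Cn d).prod Z))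
    (x : P.Hom (Cn d) LC.point) : P.term c x = P.comp (P.inc c) (P.toBiv.act x Z) := rfl

theorem inc_jh58 {K L : LC} (e : K ≃ₜ L) : P.inc (jh R e) = jh P.toBiv e := P.inc_J _

theorem inc_ltens58 (V : LC) {K Z : LC} (x : R.Hom K Z) :
    P.inc (R.ltens V x) = P.toBiv.ltens V (P.inc x) := (PRTheory.incHom P).ltens V x

theorem BivHom.act58 {T U : Biv} (F : BivHom T U) {A : LC} (x : T.Hom A LC.point) (Z : LC) :
    F.F (T.act x Z) = U.act (F.F x) Z := by
  unfold Biv.act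
  rw [F.comp, F.tens]
  congr 1
  exact F.J _

theorem BivHom.bpow58 {T U : Biv} (F : BivHom T U) (β : T.Hom LC.C LC.point) (k : ℕ) :
    F.F (bpow T β k) = Stab.bpow U (F.F β) k := by
  induction k with
  | zero => exact F.J _
  | succ k ih =>
    change F.F (T.comp (T.comp (T.tens (Stab.bpow T β k) LC.C) (T.ltens LC.point β))
      (T.J (PMap.ofHomeo (LC.lunit LC.point)))) = _
    rw [F.comp, F.comp, F.tens, F.ltens, F.J, ih]
    rfl

theorem act_bpow_succ58 (T : Biv) (β : T.Hom LC.C LC.point) (k : ℕ) (Z : LC) :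
    T.act (bpow T β (k + 1)) Z = T.comp (jh T (K := (Cn (k + 1)).prod Z)
      (L := (Cn k).prod (LC.C.prod Z)) (ascH (Cn k) LC.C Z))
      (T.comp (T.act (bpow T β k) (LC.C.prod Z)) (T.act β Z)) :=
  Pool.Agent.Helper58.Stab.act_mul (bpow T β k) β Z

namespace MonoData
variable {m : ℕ} (D : MonoData P o m)

theorem Λ_β58 : D.Λ.F D.β = D.β := by
  unfold MonoData.β
  rw [D.Λ.comp, D.inc, D.b]

theorem Λ_bpow58 (k : ℕ) : D.Λ.F (bpow P.toBiv D.β k) = bpow P.toBiv D.β k := by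
  rw [D.Λ.bpow58, D.Λ_β58]

theorem Λ_act58 (Z : LC) : D.Λ.F (P.toBiv.act D.β Z) = P.toBiv.act D.β Z := by
  rw [D.Λ.act58, D.Λ_β58]

theorem Λ_term58 {K Z : LC} (k : ℕ) (c : R.Hom K ((Cn k).prod Z)) :
    D.Λ.F (P.term c (bpow P.toBiv D.β k)) = P.term c (bpow P.toBiv D.β k) := by
  rw [term_eq_act58, D.Λ.comp, D.Λ.act58, D.inc, D.Λ_bpow58]

theorem Λ_Λ58 {K Z : LC} (x : P.Hom K Z) : D.Λ.F (D.Λ.F x) = D.Λ.F x := by
  refine PRTheory.poly_hom_ext P o (D.Λ.trans D.Λ) D.Λ (fun x => ?_) (fun i hi => ?_) x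
  · change D.Λ.F (D.Λ.F (P.inc x)) = D.Λ.F (P.inc x)
    rw [D.inc, D.inc]
  · change D.Λ.F (D.Λ.F (P.b o i)) = D.Λ.F (P.b o i)
    by_cases h : i = m
    · subst h
      rw [D.b, D.b]
    · rw [D.b_ne i hi h, D.Λ.map_zero]

theorem term_zero58 {K Z : LC} (k : ℕ) :
    P.term (0 : R.Hom K ((Cn k).prod Z)) (bpow P.toBiv D.β k) = 0 :=
  map_zero (AddMonoidHom.mk' (fun c : R.Hom K ((Cn k).prod Z) =>
    P.term c (bpow P.toBiv D.β k)) (fun a b => PO7.term_add P a b _))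

theorem term_sub58 {K Z : LC} (k : ℕ) (c c' : R.Hom K ((Cn k).prod Z)) :
    P.term (c - c') (bpow P.toBiv D.β k) =
      P.term c (bpow P.toBiv D.β k) - P.term c' (bpow P.toBiv D.β k) :=
  map_sub (AddMonoidHom.mk' (fun c : R.Hom K ((Cn k).prod Z) =>
    P.term c (bpow P.toBiv D.β k)) (fun a b => PO7.term_add P a b _)) c c'

/-- the expansion relation -/
def Exp58 {K Z : LC} (x : P.Hom K Z) (c : ∀ k : ℕ, R.Hom K ((Cn k).prod Z)) : Prop :=
  ∃ N : ℕ, (∀ k, N ≤ k → c k = 0) ∧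
    D.Λ.F x = ∑ k ∈ Finset.range N, P.term (c k) (bpow P.toBiv D.β k)

theorem exp_of_le58 {K Z : LC} {N N' : ℕ} (h : N ≤ N') (c : ∀ k : ℕ, R.Hom K ((Cn k).prod Z))
    (hc : ∀ k, N ≤ k → c k = 0) :
    ∑ k ∈ Finset.range N', P.term (c k) (bpow P.toBiv D.β k) =
      ∑ k ∈ Finset.range N, P.term (c k) (bpow P.toBiv D.β k) := by
  symm
  refine Finset.sum_subset (Finset.range_mono h) (fun k _ hk => ?_)
  rw [Finset.mem_range, not_lt] at hk
  rw [hc k hk, D.term_zero58]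

theorem exp_unique58 (hm : 0 < m) {K Z : LC} {x : P.Hom K Z}
    {c c' : ∀ k : ℕ, R.Hom K ((Cn k).prod Z)} (h : D.Exp58 x c) (h' : D.Exp58 x c') (k : ℕ) :
    c k = c' k := by
  obtain ⟨N, hN, e⟩ := h
  obtain ⟨N', hN', e'⟩ := h'
  rcases le_or_gt (max N N') k with hk | hk
  · rw [hN k ((le_max_left _ _).trans hk), hN' k ((le_max_right _ _).trans hk)]
  · have h1 := D.exp_of_le58 (le_max_left N N') c hN
    have h2 := D.exp_of_le58 (le_max_right N N') c' hN'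
    have h3 := D.coef_unique hm (max N N') (fun k => c k - c' k) (by
      simp only [D.term_sub58]
      rw [Finset.sum_sub_distrib, h1, h2, ← e, ← e', sub_self]) k hk
    exact sub_eq_zero.mp h3

theorem exists_exp58 (hm : 0 < m) {K Z : LC} (x : P.Hom K Z) : ∃ c, D.Exp58 x c := by
  obtain ⟨N, c, hc, e⟩ := D.exists_coef hm (D.Λ.F x) (D.Λ_Λ58 x)
  exact ⟨c, N, hc, e⟩

theorem exp_add58 {K Z : LC} {x y : P.Hom K Z} {c d : ∀ k : ℕ, R.Hom K ((Cn k).prod Z)}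
    (h : D.Exp58 x c) (h' : D.Exp58 y d) : D.Exp58 (x + y) (fun k => c k + d k) := by
  obtain ⟨N, hN, e⟩ := h
  obtain ⟨N', hN', e'⟩ := h'
  refine ⟨max N N', fun k hk => ?_, ?_⟩
  · beta_reduce
    rw [hN k ((le_max_left _ _).trans hk), hN' k ((le_max_right _ _).trans hk), add_zero]
  · rw [D.Λ.add, e, e', ← D.exp_of_le58 (le_max_left N N') c hN,
      ← D.exp_of_le58 (le_max_right N N') d hN', ← Finset.sum_add_distrib]
    exact Finset.sum_congr rfl fun k _ => (PO7.term_add P _ _ _).symm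

open Classical in
theorem exp_term58 {K Z : LC} (j : ℕ) (c : R.Hom K ((Cn j).prod Z)) :
    D.Exp58 (P.term c (bpow P.toBiv D.β j))
      (fun k => if h : j = k then h ▸ c else 0) := by
  refine ⟨j + 1, fun k hk => ?_, ?_⟩
  · beta_reduce
    rw [dif_neg (by omega)]
  · rw [D.Λ_term58, Finset.sum_eq_single j]
    · beta_reduce
      rw [dif_pos rfl]
    · intro k _ hk
      beta_reduce
      rw [dif_neg (fun h : j = k => hk h.symm), D.term_zero58]
    · intro h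
      exact absurd (Finset.mem_range.2 (Nat.lt_succ_self j)) h

theorem exp_comp_left58 {K L Z : LC} (c : R.Hom K L) {x : P.Hom L Z}
    {d : ∀ k : ℕ, R.Hom L ((Cn k).prod Z)} (h : D.Exp58 x d) :
    D.Exp58 (P.comp (P.inc c) x) (fun k => R.comp c (d k)) := by
  obtain ⟨N, hN, e⟩ := h
  refine ⟨N, fun k hk => ?_, ?_⟩
  · beta_reduce
    rw [hN k hk]
    exact Pool.Agent.Helper84.Sn.comp_zero c
  · rw [D.Λ.comp, D.inc, e, Pool.Agent.Helper58.Stab.comp_sum]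
    refine Finset.sum_congr rfl fun k _ => ?_
    rw [term_eq_act58, term_eq_act58, P.inc_comp, P.assoc]

theorem exp_comp_right58 {K L Z : LC} (c : R.Hom L Z) {x : P.Hom K L}
    {d : ∀ k : ℕ, R.Hom K ((Cn k).prod L)} (h : D.Exp58 x d) :
    D.Exp58 (P.comp x (P.inc c)) (fun k => R.comp (d k) (R.ltens (Cn k) c)) := by
  obtain ⟨N, hN, e⟩ := h
  refine ⟨N, fun k hk => ?_, ?_⟩
  · beta_reduce
    rw [hN k hk]
    exact Pool.Agent.Helper84.Sn.zero_comp _
  · rw [D.Λ.comp, D.inc, e, Pool.Agent.Helper58.Stab.sum_comp']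
    refine Finset.sum_congr rfl fun k _ => ?_
    rw [term_eq_act58, term_eq_act58, P.inc_comp, P.assoc, P.assoc, inc_ltens58,
      Pool.Agent.Helper58.Stab.act_nat]

theorem exp_tens58 {K Z : LC} (V : LC) {x : P.Hom K Z}
    {d : ∀ k : ℕ, R.Hom K ((Cn k).prod Z)} (h : D.Exp58 x d) :
    D.Exp58 (P.tens x V) (fun k => R.comp (R.tens (d k) V) (jh R (ascH (Cn k) Z V))) := by
  obtain ⟨N, hN, e⟩ := h
  refine ⟨N, fun k hk => ?_, ?_⟩
  · beta_reduce
    rw [hN k hk, Pool.Agent.Helper84.Sn.tens_zero]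
    exact Pool.Agent.Helper84.Sn.zero_comp _
  · rw [D.Λ.tens, e, Pool.Agent.Helper58.Stab.tens_sum]
    refine Finset.sum_congr rfl fun k _ => ?_
    rw [term_eq_act58, term_eq_act58, P.inc_comp, P.inc_tens, P.tens_comp, P.assoc, inc_jh58,
      Pool.Agent.Helper58.Stab.act_tens]

theorem exp_Λ58 {K Z : LC} {x : P.Hom K Z}
    {d : ∀ k : ℕ, R.Hom K ((Cn k).prod Z)} (h : D.Exp58 x d) : D.Exp58 (D.Λ.F x) d := by
  obtain ⟨N, hN, e⟩ := h
  exact ⟨N, hN, by rw [D.Λ_Λ58, e]⟩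

/-- shift58 of the coefficients -/
def shift58 {K Z : LC} (d : ∀ k : ℕ, R.Hom K ((Cn k).prod (LC.C.prod Z))) :
    ∀ k : ℕ, R.Hom K ((Cn k).prod Z)
  | 0 => 0
  | k + 1 => R.comp (d k) (jh R (K := (Cn k).prod (LC.C.prod Z)) (L := (Cn (k + 1)).prod Z)
            (ascH (Cn k) LC.C Z).symm)

theorem exp_act58 {K Z : LC} {x : P.Hom K (LC.C.prod Z)}
    {d : ∀ k : ℕ, R.Hom K ((Cn k).prod (LC.C.prod Z))} (h : D.Exp58 x d) :
    D.Exp58 (P.comp x (P.act D.β Z)) (shift58 d) := by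
  obtain ⟨N, hN, e⟩ := h
  refine ⟨N + 1, fun k hk => ?_, ?_⟩
  · obtain ⟨k, rfl⟩ : ∃ k', k = k' + 1 := ⟨k - 1, by omega⟩
    change R.comp (d k) _ = 0
    rw [hN k (by omega)]
    exact Pool.Agent.Helper84.Sn.zero_comp _
  · rw [Finset.sum_range_succ', D.Λ.comp, e, D.Λ_act58]
    have h0 : P.term (shift58 d 0) (bpow P.toBiv D.β 0) = 0 := D.term_zero58 0
    rw [h0, add_zero, Pool.Agent.Helper58.Stab.sum_comp']
    refine Finset.sum_congr rfl fun k _ => ?_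
    change _ = P.term (R.comp (d k) (jh R (K := (Cn k).prod (LC.C.prod Z))
      (L := (Cn (k + 1)).prod Z) (ascH (Cn k) LC.C Z).symm)) _
    rw [term_eq_act58, term_eq_act58, P.inc_comp, P.assoc, P.assoc, inc_jh58, act_bpow_succ58]
    congr 1
    exact (Pool.Agent.Helper63.Stab.jh_symm_comp P.toBiv (K := (Cn (k + 1)).prod Z)
      (L := (Cn k).prod (LC.C.prod Z)) (ascH (Cn k) LC.C Z) _).symm

theorem exp_inc58 {K Z : LC} (x : R.Hom K Z) :
    D.Exp58 (P.inc x) (fun k => match k with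
      | 0 => R.comp x (jh R (LC.lunit Z).symm)
      | _ + 1 => 0) := by
  refine ⟨1, fun k hk => ?_, ?_⟩
  · obtain ⟨k, rfl⟩ : ∃ k', k = k' + 1 := ⟨k - 1, by omega⟩
    rfl
  · rw [Finset.sum_range_one, D.inc]
    change P.inc x = P.term (d := 0) (R.comp x (jh R (K := Z) (L := (Cn 0).prod Z)
      (LC.lunit Z).symm)) (P.J (PMap.id LC.point))
    rw [term_eq_act58, P.inc_comp, P.assoc, inc_jh58]
    have h1 : P.toBiv.act (P.J (PMap.id LC.point)) Z = jh P.toBiv (LC.lunit Z) :=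
      Pool.Agent.Helper58.Stab.act_id Z
    have h2 : P.comp (jh P.toBiv (LC.lunit Z).symm) (P.toBiv.act (P.J (PMap.id LC.point)) Z) =
        P.J (PMap.id Z) := by
      rw [h1]
      exact Pool.Agent.Helper63.Stab.jh_symm_comp' P.toBiv (LC.lunit Z)
    exact ((congrArg (P.comp (P.inc x)) h2).trans (P.comp_id _)).symm

end MonoData

/-- (Q3) The coefficient maps. -/
theorem MonoData.exists_C {m : ℕ} (hm : 0 < m) (D : MonoData P o m) :
    ∃ C : ∀ (k : ℕ) {K Z : LC}, P.Hom K Z → R.Hom K ((Cn k).prod Z),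
      (∀ (k : ℕ) {K Z : LC} (x y : P.Hom K Z), C k (x + y) = C k x + C k y) ∧
      (∀ {K Z : LC} (x : P.Hom K Z), ∃ N : ℕ, (∀ k, N ≤ k → C k x = 0) ∧
        D.Λ.F x = ∑ k ∈ Finset.range N, P.term (C k x) (bpow P.toBiv D.β k)) ∧
      (∀ (j k : ℕ) {K Z : LC} (c : R.Hom K ((Cn j).prod Z)) (h : j = k),
        C k (P.term c (bpow P.toBiv D.β j)) = h ▸ c) ∧
      (∀ (j k : ℕ) {K Z : LC} (c : R.Hom K ((Cn j).prod Z)), j ≠ k →
        C k (P.term c (bpow P.toBiv D.β j)) = 0) ∧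
      (∀ (k : ℕ) {K L Z : LC} (c : R.Hom K L) (x : P.Hom L Z),
        C k (P.comp (P.inc c) x) = R.comp c (C k x)) ∧
      (∀ (k : ℕ) {K L Z : LC} (x : P.Hom K L) (c : R.Hom L Z),
        C k (P.comp x (P.inc c)) = R.comp (C k x) (R.ltens (Cn k) c)) ∧
      (∀ (k : ℕ) {K Z : LC} (x : P.Hom K Z) (V : LC),
        C k (P.tens x V) = R.comp (R.tens (C k x) V) (jh R (ascH (Cn k) Z V))) ∧
      (∀ (k : ℕ) {K Z : LC} (x : P.Hom K Z), C k (D.Λ.F x) = C k x) ∧
      (∀ (k : ℕ) {K Z : LC} (x : P.Hom K (LC.C.prod Z)),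
        C (k + 1) (P.comp x (P.act D.β Z)) =
          R.comp (C k x) (jh R (K := (Cn k).prod (LC.C.prod Z)) (L := (Cn (k + 1)).prod Z)
            (ascH (Cn k) LC.C Z).symm)) ∧
      (∀ {K Z : LC} (x : P.Hom K (LC.C.prod Z)), C 0 (P.comp x (P.act D.β Z)) = 0) ∧
      (∀ {K Z : LC} (x : R.Hom K Z), C 0 (P.inc x) = R.comp x (jh R (LC.lunit Z).symm)) ∧
      (∀ (k : ℕ) {K Z : LC} (x : R.Hom K Z), C (k + 1) (P.inc x) = 0) := by
  have hC : ∀ {K Z : LC} (x : P.Hom K Z), D.Exp58 x (D.exists_exp58 hm x).choose :=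
    fun x => (D.exists_exp58 hm x).choose_spec
  refine ⟨fun k _ _ x => (D.exists_exp58 hm x).choose k, ?_, ?_, ?_, ?_, ?_, ?_, ?_, ?_, ?_, ?_, ?_, ?_⟩
  · intro k K Z x y
    exact D.exp_unique58 hm (hC (x + y)) (D.exp_add58 (hC x) (hC y)) k
  · intro K Z x
    exact hC x
  · intro j k K Z c h
    have := D.exp_unique58 hm (hC (P.term c (bpow P.toBiv D.β j))) (D.exp_term58 j c) k
    rw [dif_pos h] at this
    exact this
  · intro j k K Z c h
    have := D.exp_unique58 hm (hC (P.term c (bpow P.toBiv D.β j))) (D.exp_term58 j c) k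
    rw [dif_neg h] at this
    exact this
  · intro k K L Z c x
    exact D.exp_unique58 hm (hC _) (D.exp_comp_left58 c (hC x)) k
  · intro k K L Z x c
    exact D.exp_unique58 hm (hC _) (D.exp_comp_right58 c (hC x)) k
  · intro k K Z x V
    exact D.exp_unique58 hm (hC _) (D.exp_tens58 V (hC x)) k
  · intro k K Z x
    exact D.exp_unique58 hm (hC _) (D.exp_Λ58 (hC x)) k
  · intro k K Z x
    exact D.exp_unique58 hm (hC _) (D.exp_act58 (hC x)) (k + 1)
  · intro K Z x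
    exact D.exp_unique58 hm (hC _) (D.exp_act58 (hC x)) 0
  · intro K Z x
    exact D.exp_unique58 hm (hC _) (D.exp_inc58 x) 0
  · intro k K Z x
    exact D.exp_unique58 hm (hC _) (D.exp_inc58 x) (k + 1)

/-- (Q4) evaluation of a polynomial -/
theorem MonoData.eval {m : ℕ} (D : MonoData P o m) {T : Biv} (Φ : BivHom P.toBiv T) {K Z : LC}
    (c : R.Hom K Z) (k : ℕ) (c' : R.Hom K ((Cn k).prod Z)) :
    Φ.F (P.term c' (bpow P.toBiv D.β k)) =
      T.comp (Φ.F (P.inc c')) (T.act (bpow T (Φ.F D.β) k) Z) := by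
  rw [P.map_term34, map_bpow34]
  rfl

/-- (FC) A transformation of `R` that is linear over the classes `u` is linear over the
coefficients of the classes of bundles. -/
theorem PRTheory.com_eval (P : PRTheory R) (o : Orient R) (ϖ : NTr R R)
    (hu : ∀ (S : Type) [Fintype S], ϖ.Com (o.u S)) (Φ : BivHom P.toBiv R)
    (hΦ : ∀ {K Z : LC} (x : R.Hom K Z), Φ.F (P.inc x) = x)
    (hβ : ∀ i, 0 < i → ϖ.Com (Φ.F (P.b o i))) (κ : Type) [Fintype κ] :
    ϖ.Com (Φ.F (P.g κ)) :=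
  Pool.Agent.Helper60.StabFC.com_eval P ϖ o hu Φ hΦ hβ κ

end

end Pool.Agent.Helper1.Stab
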