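import Pool.Agent.Helper1.Stab.T.PolyT
import Pool.Agent.Helper83.Stab.ThB
import Pool.Agent.Helper62.Stab.T2B

/-! Project T, layer 1: the tensor product of two lines. -/

open CategoryTheory Topology Filter Set Opposite

noncomputable section

namespace Pool.Agent.Helper1.Stab

open Pool.Agent.Helper63.Stab (jh)

namespace Orient
variable {R : Biv} (o : Orient R)

/-- `ℂP^S × ℂP^S'` -/
abbrev _root_.Pool.Agent.Helper1.Stab.LC.PP (S S' : Type) [Fintype S] [Fintype S'] : LC :=
  (LC.Pr S 1).prod (LC.Pr S' 1)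

/-- the class `b_i × b_j` -/
def bb (S S' : Type) [Fintype S] [Fintype S'] (i j : ℕ) :
    R.Hom ((Cn i).prod (Cn j)) (LC.PP S S') :=
  R.comp (R.tens (o.b S i) (Cn j)) (R.ltens (LC.Pr S 1) (o.b S' j))

/-- the powers of the class of the tensor product of the two lines -/
def xt (S S' : Type) [Fintype S] [Fintype S'] (k : ℕ) : R.Hom (LC.PP S S') (Cn k) :=
  R.comp (R.J (PMap.ofCont (K := LC.PP S S') (L := LC.Pr (S × S') 1) Pr.tensor
    Pr.continuous_tensor)) (o.upow (S × S') k)

/-- the operators of the three lines -/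
def Et (S S' : Type) [Fintype S] [Fintype S'] : R.Hom (LC.PP S S') ((LC.PP S S').prod LC.C) :=
  o.E (X := LC.PP S S') Pr.tensor Pr.continuous_tensor
def E1 (S S' : Type) [Fintype S] [Fintype S'] : R.Hom (LC.PP S S') ((LC.PP S S').prod LC.C) :=
  o.E (X := LC.PP S S') (fun x => x.1) continuous_fst
def E2 (S S' : Type) [Fintype S] [Fintype S'] : R.Hom (LC.PP S S') ((LC.PP S S').prod LC.C) :=
  o.E (X := LC.PP S S') (fun x => x.2) continuous_snd

/-- (K1) The operator of the tensor product is the sum of the operators of the two lines, up to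
terms that lower the filtration by two. -/
theorem bb_Et (S S' : Type) [Fintype S] [Fintype S'] (i j : ℕ) (hi : i < Fintype.card S)
    (hj : j < Fintype.card S') :
    ∃ z : ∀ i' j' : ℕ, R.Hom ((Cn i).prod (Cn j)) (((Cn i').prod (Cn j')).prod LC.C),
      R.comp (o.bb S S' i j) (o.Et S S' - o.E1 S S' - o.E2 S S') =
        ∑ i' ∈ Finset.range i, ∑ j' ∈ Finset.range j,
          R.comp (z i' j') (R.tens (o.bb S S' i' j') LC.C) :=
  ⟨Pool.Agent.Helper83.Stab.zz o S S' i j, Pool.Agent.Helper83.Stab.bb_Et o S S' i j hi hj⟩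

/-- (K0) powers beyond the dimension vanish -/
theorem xt_zero (S S' : Type) [Fintype S] [Fintype S'] (k : ℕ)
    (h : Fintype.card S + Fintype.card S' ≤ k + 1) : o.xt S S' k = 0 :=
  Pool.Agent.Helper62.Stab.T2.xt_zero o S S'
    (Pool.Agent.Helper62.Stab.T2.fil o S S' fun i j hi hj => o.bb_Et S S' i j hi hj) k h

/-- (K2) the top coefficient of the power `i + j` of the class of the tensor product -/
theorem bb_xt (S S' : Type) [Fintype S] [Fintype S'] (i j : ℕ) (hi : Fintype.card S = i + 1)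
    (hj : Fintype.card S' = j + 1) (s : S) (s' : S') (t : R.Hom (LC.PP S S') LC.point)
    (ht : R.comp (R.J (PMap.ofPoint (K := LC.PP S S') (Pr.line s, Pr.line s'))) t =
      R.J (PMap.id LC.point)) :
    R.comp (o.bb S S' i j) (R.comp (R.J (graph (X := LC.PP S S') (L := LC.PP S S')
      (fun x => x) continuous_id)) (R.comp (R.act t (LC.PP S S')) (o.xt S S' (i + j)))) =
      ((i + j).choose i) • R.J (PMap.ofHomeo (CnAdd i j)) := by
  have hF := Pool.Agent.Helper62.Stab.T2.fil o S S' fun i j hi hj => o.bb_Et S S' i j hi hj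
  have h := Pool.Agent.Helper62.Stab.T2.bb_xt o S S' hF i j hi hj s s' t ht
  refine Eq.trans ?_ h
  congr 1
  exact (R.assoc _ _ (o.xt S S' (i + j))).symm

end Orient

theorem MonoData.map_b69 {R : Biv} {P : PRTheory R} {o : Orient R} {m : ℕ} (D : MonoData P o m)
    (i : ℕ) : D.Λ.F (P.b o i) = if i = 0 ∨ i = m then P.b o i else 0 := by
  by_cases h0 : i = 0
  · subst h0
    rw [if_pos (Or.inl rfl), P.b_zero' o]
    exact D.Λ.J (K := LC.point) (Z := LC.point) (PMap.id LC.point)
  · by_cases hm : i = m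
    · subst hm
      rw [if_pos (Or.inr rfl), D.b]
    · rw [if_neg (by tauto), D.b_ne i (Nat.pos_of_ne_zero h0) hm]

theorem PRTheory.inc_zero69 {R : Biv} (P : PRTheory R) (K L : LC) : P.inc (0 : R.Hom K L) = 0 := by
  have h := P.inc_add (0 : R.Hom K L) 0
  rw [add_zero] at h
  exact left_eq_add.1 h

theorem Biv.comp_zero69 (R : Biv) {K L M : LC} (x : R.Hom K L) : R.comp x (0 : R.Hom L M) = 0 := by
  have h := R.comp_add x (0 : R.Hom L M) 0
  rw [add_zero] at h
  exact left_eq_add.1 h

theorem Biv.zero_comp69 (R : Biv) {K L M : LC} (y : R.Hom L M) : R.comp (0 : R.Hom K L) y = 0 := by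
  have h := R.add_comp (0 : R.Hom K L) 0 y
  rw [add_zero] at h
  exact left_eq_add.1 h

/-- the image of the class of a family of lines -/
theorem MonoData.bun_line69 {R : Biv} {P : PRTheory R} {o : Orient R} {m : ℕ} (D : MonoData P o m)
    {X : LC} [CompactSpace X] {S : Type} [Fintype S] (E : C(X, Pr S 1)) :
    D.Λ.F (P.toGBiv.bun E) = ∑ i ∈ Finset.range (Fintype.card S),
      if i = 0 ∨ i = m then P.comp (P.inc (R.comp (R.J (PMap.ofCont (K := X) (L := LC.Pr S 1) E
        E.continuous)) (o.upow S i))) (P.b o i) else 0 := by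
  rw [P.bun_line o E, D.Λ.map_sum]
  refine Finset.sum_congr rfl fun i _ => ?_
  rw [D.Λ.comp, D.inc, D.map_b69 i]
  split_ifs with h
  · rfl
  · exact P.toBiv.comp_zero69 _

theorem MonoData.zero_term69 {R : Biv} {P : PRTheory R} {o : Orient R}
    {X : LC} [CompactSpace X] {S : Type} [Fintype S] (E : C(X, Pr S 1)) :
    P.comp (P.inc (R.comp (R.J (PMap.ofCont (K := X) (L := LC.Pr S 1) E
        E.continuous)) (o.upow S 0))) (P.b o 0) = P.J (PMap.toPoint X) := by
  have e1 : R.comp (R.J (PMap.ofCont (K := X) (L := LC.Pr S 1) E E.continuous)) (o.upow S 0) =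
      R.J (PMap.toPoint X) := by
    refine (congrArg (R.comp _) (Pool.Agent.Helper89.Stab.upow_zero o S)).trans ?_
    refine (R.J_comp (L := LC.Pr S 1) (M := LC.point) _ _).symm.trans ?_
    congr 1
  refine (congrArg₂ P.comp (congrArg P.inc e1) (P.b_zero' o)).trans ?_
  refine (congrArg (fun z => P.comp z (P.J (PMap.id LC.point)))
    (P.inc_J (PMap.toPoint X))).trans ?_
  exact P.toBiv.comp_id (K := X) (L := LC.point) _

/-- (TP) the class `θ` over the polynomials in `b_m`, for small spaces -/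
theorem MonoData.theta {R : Biv} {P : PRTheory R} {o : Orient R} {m : ℕ} (D : MonoData P o m)
    (S S' : Type) [Fintype S] [Fintype S'] (hS : Fintype.card S ≤ m) (hS' : Fintype.card S' ≤ m)
    (hm : 0 < m) (h1 : 0 < Fintype.card S) (h2 : 0 < Fintype.card S') :
    D.Λ.F (P.toGBiv.theta S S') = P.J (PMap.toPoint (LC.PP S S')) +
      P.comp (P.inc (o.xt S S' m)) (P.b o m) := by
  have htaut : ∀ (U : Type) [Fintype U], 0 < Fintype.card U → Fintype.card U ≤ m →
      D.Λ.F (P.toGBiv.taut U) = P.J (PMap.toPoint (LC.Pr U 1)) := by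
    intro U _ hU0 hU
    unfold GBiv.taut
    rw [D.bun_line69, Finset.sum_eq_single 0]
    · rw [if_pos (Or.inl rfl), MonoData.zero_term69]
    · intro i hi hi0
      rw [Finset.mem_range] at hi
      rw [if_neg]
      rintro (h | h)
      · exact hi0 h
      · omega
    · intro h
      exact absurd (Finset.mem_range.2 hU0) h
  have hpull : ∀ (U : Type) [Fintype U], 0 < Fintype.card U → Fintype.card U ≤ m →
      ∀ (p : ↑(LC.PP S S') → Pr U 1) (hp : Continuous p),
      P.comp (P.J (PMap.ofCont (K := LC.PP S S') (L := LC.Pr U 1) p hp))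
        (((P.toGBiv.cls.map D.Λ).gbiv.taut U : P.Hom (LC.Pr U 1) LC.point)) =
      P.J (PMap.toPoint (LC.PP S S')) := by
    intro U _ hU0 hU p hp
    have h3 : ((P.toGBiv.cls.map D.Λ).gbiv.taut U : P.Hom (LC.Pr U 1) LC.point) =
        D.Λ.F (P.toGBiv.taut U) :=
      (GCls.map_bun P.toGBiv.cls D.Λ (K := LC.Pr U 1) (ContinuousMap.id _)).symm
    rw [h3, htaut U hU0 hU, ← P.J_comp]
    congr 1
  have h4 := GCls.theta_mul_taut (P.toGBiv.cls.map D.Λ) S S'
  have h5 : P.toBiv.mulc (P.toBiv.mulc ((P.toGBiv.cls.map D.Λ).gbiv.theta S S')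
      (P.J (PMap.toPoint (LC.PP S S')))) (P.J (PMap.toPoint (LC.PP S S'))) =
      (P.toGBiv.cls.map D.Λ).gbiv.bun (K := (LC.Pr S 1).prod (LC.Pr S' 1))
        ⟨Pr.tensor, Pr.continuous_tensor⟩ := by
    rw [← h4]
    exact congrArg₂ P.toBiv.mulc (congrArg₂ P.toBiv.mulc rfl (hpull S h1 hS _ _).symm)
      (hpull S' h2 hS' _ _).symm
  have hone : ∀ x : P.Hom (LC.PP S S') LC.point,
      P.toBiv.mulc x (P.J (PMap.toPoint (LC.PP S S'))) = x := fun x =>
    P.toGBiv.mul_one (K := LC.PP S S') x
  let θ' : P.Hom (LC.PP S S') LC.point := (P.toGBiv.cls.map D.Λ).gbiv.theta S S'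
  have h5' : θ' = (P.toGBiv.cls.map D.Λ).gbiv.bun (K := (LC.Pr S 1).prod (LC.Pr S' 1))
      ⟨Pr.tensor, Pr.continuous_tensor⟩ :=
    (hone θ').symm.trans ((congrArg (fun z => P.toBiv.mulc z (P.J (PMap.toPoint (LC.PP S S'))))
      (hone θ').symm).trans h5)
  have h6 : D.Λ.F (P.toGBiv.theta S S') = D.Λ.F (P.toGBiv.bun (K := LC.PP S S')
      ⟨Pr.tensor, Pr.continuous_tensor⟩) :=
    (GCls.map_theta P.toGBiv.cls D.Λ S S').trans (h5'.trans
      (GCls.map_bun P.toGBiv.cls D.Λ (K := LC.PP S S') ⟨Pr.tensor, Pr.continuous_tensor⟩).symm)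
  have hcard : 0 < Fintype.card (S × S') := by
    rw [Fintype.card_prod]
    exact Nat.mul_pos h1 h2
  rw [h6, D.bun_line69, ← Finset.sum_erase_add _ _ (Finset.mem_range.2 hcard),
    if_pos (Or.inl rfl), MonoData.zero_term69, add_comm]
  congr 1
  by_cases hmc : m < Fintype.card (S × S')
  · rw [Finset.sum_eq_single m]
    · rw [if_pos (Or.inr rfl)]
      rfl
    · intro i hi him
      rw [if_neg]
      rintro (h | h)
      · exact (Finset.mem_erase.1 hi).1 h
      · exact him h
    · intro h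
      exact absurd (Finset.mem_erase.2 ⟨hm.ne', Finset.mem_range.2 hmc⟩) h
  · rw [Finset.sum_eq_zero]
    · unfold Orient.xt
      rw [o.upow_eq_zero (S × S') (not_lt.1 hmc), R.comp_zero69, P.inc_zero69]
      exact (P.toBiv.zero_comp69 _).symm
    · intro i hi
      rw [Finset.mem_erase, Finset.mem_range] at hi
      rw [if_neg]
      rintro (h | h)
      · exact hi.1 h
      · omega

theorem GBiv.theta_line69 (G : GBiv) (S S' : Type) [Fintype S] [Fintype S'] (s : S)
    (s' : S') : G.comp (G.J (PMap.ofPoint (K := LC.PP S S') (Pr.line s, Pr.line s')))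
      (G.theta S S') = G.J (PMap.id LC.point) := by
  have hone : G.one LC.point = G.J (PMap.id LC.point) := by
    unfold GBiv.one
    congr 1
  let f : C((LC.point : LC), (LC.PP S S' : LC)) := ContinuousMap.const _ (Pr.line s, Pr.line s')
  have hco : ∀ (U : Type) [Fintype U] (u : U) (p : ↑(LC.PP S S') → Pr U 1) (hp : Continuous p),
      p (Pr.line s, Pr.line s') = Pr.line u →
      G.comp (G.J (PMap.ofCont (K := LC.point) (L := LC.PP S S') f f.continuous))
        (G.comp (G.J (PMap.ofCont (K := LC.PP S S') (L := LC.Pr U 1) p hp)) (G.cotaut U)) =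
      G.one LC.point := by
    intro U _ u p hp hpu
    have h1 : 1 ≤ Fintype.card U := Fintype.card_pos_iff.2 ⟨u⟩
    unfold GBiv.cotaut
    rw [dif_pos h1, ← G.assoc, ← G.J_comp]
    let q : C((LC.point : LC), (LC.Pr U 1 : LC)) := ContinuousMap.const _ (Pr.line u)
    have h2 : (PMap.ofCont (K := LC.PP S S') (L := LC.Pr U 1) p hp).comp
        (PMap.ofCont (K := LC.point) (L := LC.PP S S') f f.continuous) =
        PMap.ofCont (K := LC.point) (L := LC.Pr U 1) q q.continuous := by
      ext x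
      exact congrArg _ hpu
    rw [h2, G.bun_comp]
    exact G.bun_const (K := LC.point) (Pr.perp (by omega) (Pr.line u))
  change G.comp (G.J (PMap.ofCont (K := LC.point) (L := LC.PP S S') f f.continuous)) _ = _
  unfold GBiv.theta
  rw [G.mul_pre, G.mul_pre, hco S s _ _ rfl, hco S' s' _ _ rfl, G.mul_one, G.mul_one, G.bun_comp,
    ← hone]
  exact G.bun_const (K := LC.point) (Pr.tensor (Pr.line s, Pr.line s'))

/-- (TH) the class `θ` is one at a pair of coordinate lines -/
theorem GCls.theta_line {R : Biv} (c : GCls R) (S S' : Type) [Fintype S] [Fintype S'] (s : S)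
    (s' : S') : R.comp (R.J (PMap.ofPoint (K := LC.PP S S') (Pr.line s, Pr.line s')))
      (c.gbiv.theta S S') = R.J (PMap.id LC.point) :=
  GBiv.theta_line69 c.gbiv S S' s s'

end Pool.Agent.Helper1.Stab
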