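import Pool.Agent.Helper1.Stab.T.Pi
import Pool.Agent.Helper1.Stab.T.Theta
import Pool.Agent.Helper38.Stab.PS

/-! Project T, layer 2: the operators `ψ_k`, the class `y` and the idempotent `e`. -/

open CategoryTheory Topology Filter Set Opposite

noncomputable section

namespace Pool.Agent.Helper1.Stab

open Pool.Agent.Helper63.Stab (jh)

/-- The theory `S[BU][1/x₄]` with its structure. -/
structure TS {k : ℕ} (g : GenLoop (Fin 4) (Gr {1} k) (Gr.pt {1} k)) where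
  hg : IsBottProduct (loopGK (loopToU g))
  T : LocTheory (loopDatum (e := 2) (loopGK (loopToU g)))
  a : T.Hom (LC.cpow (Fin 2)) LC.point
  a' : T.Hom LC.point (LC.cpow (Fin 2))
  ha : IsHur T.toGBiv (e := 2) (loopGK (loopToU g)) a
  aa' : T.comp a a' = T.J (PMap.id _)
  a'a : T.comp a' a = T.J (PMap.id _)
  o : Orient T.toBiv
  good : ∀ p : (∀ {K Z : LC}, T.Hom K Z → Prop), Good T.toBiv p → p a →
    ∀ (S : Type) [Fintype S], p (T.theta S Bool) → p (o.u S)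
  P : PRTheory T.toBiv
  ϖ : NTr T.toBiv T.toBiv
  ϖ_g : ∀ (κ : Type) [Fintype κ], ϖ.F (T.g κ) = thetaP T.toGBiv κ
  ϖ_lin : ϖ.Lin a a
  D : MonoData P o 15
  good_w : ∀ p : (∀ {K Z : LC}, T.Hom K Z → Prop), Good T.toBiv p → p a → p D.w ∧ p D.w'

/-- multiplication by one -/
theorem Biv.mulc_one59 (R : Biv) {K : LC} [CompactSpace K] (x : R.Hom K LC.point) :
    R.mulc x (R.J (PMap.toPoint K)) = x := Pool.Agent.Helper37.Stab.mulB_one R x

/-- products and maps -/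
theorem Biv.mulc_pre59 (R : Biv) {K L : LC} (f : PMap K L.plus) (x y : R.Hom L LC.point) :
    R.comp (R.J f) (R.mulc x y) = R.mulc (R.comp (R.J f) x) (R.comp (R.J f) y) :=
  Pool.Agent.Helper37.Stab.mulB_pre R f x y

/-- inverse classes that satisfy all good predicates satisfied by `a` -/
def GInv59 {T : Biv} {A : LC} (a : T.Hom A LC.point) {K Z : LC} (u : T.Hom K Z) (u' : T.Hom Z K) :
    Prop :=
  T.comp u u' = T.J (PMap.id _) ∧ T.comp u' u = T.J (PMap.id _) ∧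
    ∀ p : (∀ {K Z : LC}, T.Hom K Z → Prop), Good T p → p a → p u ∧ p u'

theorem GInv59.comp {T : Biv} {A : LC} {a : T.Hom A LC.point} {K L Z : LC} {u : T.Hom K L}
    {u' : T.Hom L K} {v : T.Hom L Z} {v' : T.Hom Z L} (h : GInv59 a u u') (h' : GInv59 a v v') :
    GInv59 a (T.comp u v) (T.comp v' u') := by
  obtain ⟨h1, h2, h3⟩ := h
  obtain ⟨k1, k2, k3⟩ := h'
  refine ⟨?_, ?_, fun p hp ha => ⟨hp.comp _ _ (h3 p hp ha).1 (k3 p hp ha).1,
    hp.comp _ _ (k3 p hp ha).2 (h3 p hp ha).2⟩⟩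
  · rw [T.assoc, ← T.assoc v, k1, T.id_comp, h1]
  · rw [T.assoc, ← T.assoc u', h2, T.id_comp, k2]

theorem GInv59.homeo {T : Biv} {A : LC} (a : T.Hom A LC.point) {K L : LC} (e : K ≃ₜ L) :
    GInv59 a (T.J (PMap.ofHomeo e)) (T.J (PMap.ofHomeo (K := L) (L := K) e.symm)) :=
  ⟨(T.invP_homeo e).1, (T.invP_homeo e).2, fun _ hp _ => ⟨hp.J _, hp.J _⟩⟩

theorem GInv59.ltens {T : Biv} {A : LC} {a : T.Hom A LC.point} {K L : LC} {u : T.Hom K L}
    {u' : T.Hom L K} (h : GInv59 a u u') (V : LC) : GInv59 a (T.ltens V u) (T.ltens V u') := by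
  obtain ⟨h1, h2, h3⟩ := h
  refine ⟨?_, ?_, fun p hp ha => ⟨?_, ?_⟩⟩
  · rw [← Pool.Agent.Helper9.Stab.ltens_comp, h1, Pool.Agent.Helper9.Stab.ltens_id]
  · rw [← Pool.Agent.Helper9.Stab.ltens_comp, h2, Pool.Agent.Helper9.Stab.ltens_id]
  · exact hp.comp _ _ (hp.J _) (hp.comp _ _ (hp.tens _ _ (h3 p hp ha).1) (hp.J _))
  · exact hp.comp _ _ (hp.J _) (hp.comp _ _ (hp.tens _ _ (h3 p hp ha).2) (hp.J _))

/-- one step of the periodicity -/
theorem GInv59.step {T : Biv} (a : T.Hom (LC.cpow (Fin 2)) LC.point)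
    (a' : T.Hom LC.point (LC.cpow (Fin 2)))
    (aa' : T.comp a a' = T.J (PMap.id _)) (a'a : T.comp a' a = T.J (PMap.id _)) (n : ℕ)
    (h : ∃ (w : T.Hom (Cn n) LC.C) (w' : T.Hom LC.C (Cn n)), GInv59 a w w') :
    ∃ (w : T.Hom (Cn (n + 2)) LC.C) (w' : T.Hom LC.C (Cn (n + 2))), GInv59 a w w' := by
  obtain ⟨w, w', hw⟩ := h
  have ha : GInv59 a a a' := ⟨aa', a'a, fun p hp hpa => ⟨hpa, hp.split a a' hpa
    (by rw [aa']; exact hp.J _) a'a⟩⟩
  have h1 := GInv59.homeo a (ascH (Cn n) LC.C LC.C)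
  have h2 := (GInv59.homeo a twoC).ltens (Cn n)
  have h3 := ha.ltens (Cn n)
  have h4 := GInv59.homeo (K := (Cn n).prod LC.point) (L := Cn n) a
    (Homeomorph.prodPUnit (Cn n).carrier)
  exact ⟨_, _, h1.comp (h2.comp (h3.comp (h4.comp hw)))⟩

/-- (TS0) the periodicity `ℂ^15 = ℂ` -/
theorem exists_w {k : ℕ} (g : GenLoop (Fin 4) (Gr {1} k) (Gr.pt {1} k))
    (T : LocTheory (loopDatum (e := 2) (loopGK (loopToU g))))
    (a : T.Hom (LC.cpow (Fin 2)) LC.point) (a' : T.Hom LC.point (LC.cpow (Fin 2)))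
    (aa' : T.comp a a' = T.J (PMap.id _)) (a'a : T.comp a' a = T.J (PMap.id _)) :
    ∃ (w : T.Hom (Cn 15) LC.C) (w' : T.Hom LC.C (Cn 15)), T.comp w w' = T.J (PMap.id _) ∧
      T.comp w' w = T.J (PMap.id _) ∧ ∀ p : (∀ {K Z : LC}, T.Hom K Z → Prop),
        Good T.toBiv p → p a → p w ∧ p w' := by
  have h1 : ∃ (w : T.Hom (Cn 1) LC.C) (w' : T.Hom LC.C (Cn 1)),
      GInv59 (T := T.toBiv) a w w' :=
    ⟨_, _, GInv59.homeo (T := T.toBiv) a (LC.lunit LC.C)⟩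
  have st := fun n h => GInv59.step (T := T.toBiv) a a' aa' a'a n h
  obtain ⟨w, w', h⟩ := st _ (st _ (st _ (st _ (st _ (st _ (st _ h1))))))
  exact ⟨w, w', h⟩

/-- (TS1) the structure exists -/
theorem exists_TS {k : ℕ} (g : GenLoop (Fin 4) (Gr {1} k) (Gr.pt {1} k))
    (hg : IsBottProduct (loopGK (loopToU g))) : Nonempty (TS g) := by
  let T : LocTheory (loopDatum (e := 2) (loopGK (loopToU g))) :=
    (loopDatum (e := 2) (loopGK (loopToU g))).locTheory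
  obtain ⟨a, a', ha, h1, h2⟩ := exists_hur_inv (e := 2) two_pos (loopGK (loopToU g)) T
  obtain ⟨i1, i2⟩ := inv_transport T.toBiv twoC a a' h1 h2
  obtain ⟨o, ho⟩ := exists_orient_good T.toGBiv (T.comp (T.J (PMap.ofHomeo twoC)) a)
    (T.comp a' (T.J (PMap.ofHomeo twoC.symm))) i1 i2 (hur_bottProduct T.toGBiv _ hg a ha)
  obtain ⟨P⟩ := exists_PR T.toBiv
  obtain ⟨ϖ, hϖ, hl⟩ := exists_pi (e := 2) two_pos g T a ha
  obtain ⟨w, w', hw1, hw2, hgood⟩ := exists_w g T a a' h1 h2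
  obtain ⟨Λ, hΛ, hΛb⟩ := P.exists_poly_hom o P.incHom (fun i => if i = 15 then P.b o i else 0)
  have hD1 : Λ.F (P.b o 15) = P.b o 15 := by
    rw [hΛb 15 (by norm_num), if_pos rfl]
  have hD2 : ∀ i, 0 < i → i ≠ 15 → Λ.F (P.b o i) = 0 := fun i hi h => by
    rw [hΛb i hi, if_neg h]
  exact ⟨{
    hg := hg
    T := T
    a := a
    a' := a'
    ha := ha
    aa' := h1
    a'a := h2
    o := o
    good := fun p hp hpa S _ hS => ho p hp (hp.comp _ _ (hp.J _) hpa) S hS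
    P := P
    ϖ := ϖ
    ϖ_g := hϖ
    ϖ_lin := hl
    D := {
      Λ := Λ
      inc := hΛ
      b := hD1
      b_ne := hD2
      w := w
      w' := w'
      ww' := hw1
      w'w := hw2 }
    good_w := fun p hp hpa => hgood p hp hpa }⟩

namespace TS
variable {k : ℕ} {g : GenLoop (Fin 4) (Gr {1} k) (Gr.pt {1} k)} (A : TS g)

/-- (PS0) the class of the loop vanishes over the polynomials in `b_15` -/
theorem loop_Λ : A.P.comp (A.P.J (PMap.ofC (K := LC.sph 2) (L := LC.G (Fin k))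
      (loopBar (e := 2) (loopGK (loopToU g))))) (A.D.Λ.F (A.P.g (Fin k))) =
    A.P.J (PMap.toPoint (LC.sph 2)) := by
  obtain ⟨y, hy⟩ := exists_hur A.P.toGBiv (e := 2) two_pos (loopGK (loopToU g))
  have h1 := hur_bottProduct A.P.toGBiv _ A.hg y hy
  have h2 := congrArg A.D.Λ.F h1
  rw [A.D.Λ.comp, A.D.Λ.comp, A.D.Λ.J, A.D.Λ.J, A.D.Λ.map_sub] at h2
  have h3 := A.D.theta Bool Bool (by simp) (by simp) (by norm_num) (by simp) (by simp)
  have hinc0 : ∀ {K Z : LC}, A.P.inc (0 : A.T.Hom K Z) = 0 := fun {K Z} => A.P.incHom.map_zero K Z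
  rw [A.o.xt_zero Bool Bool 15 (by simp), hinc0, Pool.Agent.Helper9.Stab.z_comp, add_zero] at h3
  have hone : A.D.Λ.F (A.P.toGBiv.one ((LC.Pr Bool 1).prod (LC.Pr Bool 1))) =
      A.P.J (PMap.toPoint (LC.PP Bool Bool)) := A.D.Λ.J _
  rw [h3, hone, sub_self] at h2
  obtain ⟨r, hr, -⟩ := collP1_split A.P.toBiv
  have h5 : A.P.comp (A.P.J (PMap.ofHomeo twoC)) (A.D.Λ.F y) = 0 := by
    have h6 := congrArg (fun z => A.P.comp (Pool.Agent.Helper63.Stab.Hur.r2 r) z) h2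
    beta_reduce at h6
    rw [← A.P.assoc, Pool.Agent.Helper9.Stab.c_zero] at h6
    have h7 := Pool.Agent.Helper63.Stab.Hur.r2_cc r hr
    refine Eq.trans ?_ h6
    refine Eq.symm ?_
    refine Eq.trans (congrArg (fun z => A.P.comp z (A.P.comp (A.P.J (PMap.ofHomeo twoC))
      (A.D.Λ.F y))) h7) ?_
    exact A.P.id_comp _
  have h6 : A.D.Λ.F y = 0 := by
    have h7 := congrArg (fun z => A.P.comp (A.P.J (PMap.ofHomeo twoC.symm)) z) h5
    beta_reduce at h7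
    rw [← A.P.assoc, Pool.Agent.Helper9.Stab.c_zero, (A.P.toBiv.invP_homeo twoC).2,
      A.P.id_comp] at h7
    exact h7
  have h8 := congrArg A.D.Λ.F hy
  rw [A.D.Λ.comp, h6, Pool.Agent.Helper9.Stab.c_zero, A.D.Λ.map_sub, A.D.Λ.comp, A.D.Λ.J,
    A.D.Λ.J] at h8
  exact sub_eq_zero.1 h8.symm

/-- the class of bundles `γ(V) φ_t(V)` -/
def cls : GCls A.P.toBiv := (A.T.toGBiv.cls.map A.P.incHom).mul (A.P.toGBiv.cls.map A.D.Λ)

/-- (PS1) The morphism `Ψ`. -/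
theorem exists_Ψ : ∃ Ψ : BivHom A.T.toBiv A.P.toBiv,
    (∀ (κ : Type) [Fintype κ], Ψ.F (A.T.g κ) = A.P.toBiv.mulc (A.P.inc (A.T.g κ))
      (A.D.Λ.F (A.P.g κ))) ∧ Ψ.F A.a = A.P.inc A.a := by
  have hur : IsHur A.cls.gbiv (e := 2) (loopGK (loopToU g)) (A.P.inc A.a) := by
    have h0 := congrArg A.P.incHom.F A.ha
    rw [A.P.incHom.comp, A.P.incHom.map_sub, A.P.incHom.comp, A.P.incHom.J, A.P.incHom.J,
      A.P.incHom.J] at h0
    refine h0.trans ?_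
    change _ = A.P.comp (A.P.J (PMap.ofC (K := LC.sph 2) (L := LC.G (Fin k))
      (loopBar (e := 2) (loopGK (loopToU g))))) (A.P.toBiv.mulc (A.P.inc (A.T.g (Fin k)))
        (A.D.Λ.F (A.P.g (Fin k)))) - A.P.J (PMap.toPoint (LC.sph 2))
    rw [Biv.mulc_pre59, A.loop_Λ, Biv.mulc_one59]
    rfl
  have h1 : A.P.comp (A.P.inc A.a) (A.P.inc A.a') = A.P.J (PMap.id _) := by
    rw [← A.P.inc_comp, A.aa', A.P.inc_J]
  have h2 : A.P.comp (A.P.inc A.a') (A.P.inc A.a) = A.P.J (PMap.id _) := by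
    rw [← A.P.inc_comp, A.a'a, A.P.inc_J]
  obtain ⟨F, hF1, hF2⟩ := LocTheory.exists_hom (e := 2) two_pos (loopGK (loopToU g)) A.T A.a A.ha
    A.cls.gbiv (A.P.inc A.a) (A.P.inc A.a') hur h1 h2
  exact ⟨F, hF1, hF2⟩

end TS

/-- The theory with the morphism `Ψ`, the class `y`, the coefficient maps and the idempotent. -/
structure TP {k : ℕ} (g : GenLoop (Fin 4) (Gr {1} k) (Gr.pt {1} k)) extends TS g where
  Ψ : BivHom T.toBiv P.toBiv
  Ψ_g : ∀ (κ : Type) [Fintype κ], Ψ.F (T.g κ) = P.toBiv.mulc (P.inc (T.g κ)) (D.Λ.F (P.g κ))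
  Ψ_a : Ψ.F a = P.inc a

namespace TP
variable {k : ℕ} {g : GenLoop (Fin 4) (Gr {1} k) (Gr.pt {1} k)} (A : TP g)

/-- the projection `Λ` is idempotent -/
theorem ΛΛ {K Z : LC} (x : A.P.Hom K Z) : A.D.Λ.F (A.D.Λ.F x) = A.D.Λ.F x := by
  refine A.P.poly_hom_ext A.o (A.D.Λ.trans A.D.Λ) A.D.Λ (fun x => ?_) (fun i hi => ?_) x
  · exact congrArg A.D.Λ.F (A.D.inc x)
  · by_cases h : i = 15
    · subst h
      exact congrArg A.D.Λ.F A.D.b
    · have h1 := A.D.b_ne i hi h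
      change A.D.Λ.F (A.D.Λ.F (A.P.b A.o i)) = A.D.Λ.F (A.P.b A.o i)
      rw [h1, A.D.Λ.map_zero]

/-- (PS2) the values of `Ψ` are polynomials in `b_15` -/
theorem Λ_Ψ {K Z : LC} (x : A.T.Hom K Z) : A.D.Λ.F (A.Ψ.F x) = A.Ψ.F x := by
  refine LocTheory.hom_ext (e := 2) two_pos (loopGK (loopToU g)) A.T A.a A.ha
    (A.Ψ.trans A.D.Λ) A.Ψ (fun n => ?_) x
  change A.D.Λ.F (A.Ψ.F (A.T.g (Fin n))) = A.Ψ.F (A.T.g (Fin n))
  rw [A.Ψ_g, A.D.Λ.mulc, A.D.inc, A.ΛΛ]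

/-- two multiplicative classes with the same values are equal -/
theorem _root_.Pool.Agent.Helper1.Stab.GCls.ext68 {R : Biv} {c d : GCls R}
    (h : ∀ (κ : Type) [Fintype κ], c.g κ = d.g κ) : c = d := by
  obtain ⟨cg, _, _, _⟩ := c
  obtain ⟨dg, _, _, _⟩ := d
  have h1 : @cg = @dg := by
    funext κ _
    exact h κ
  subst h1
  rfl

/-- the class of bundles of `Ψ` -/
theorem map_Ψ : A.T.toGBiv.cls.map A.Ψ = A.cls :=
  GCls.ext68 fun κ _ => A.Ψ_g κ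

/-- a product with a composition -/
theorem _root_.Pool.Agent.Helper1.Stab.Biv.mulc_comp68 (R : Biv) {K L : LC}
    (x : R.Hom K LC.point) (u : R.Hom K L) (b : R.Hom L LC.point) :
    R.mulc x (R.comp u b) = R.comp (R.comp (R.J (graph (X := K) (L := K)
      (fun k => k) continuous_id)) (R.comp (R.act x K) u)) b := by
  unfold Biv.mulc Biv.act
  have h := Pool.Agent.Helper62.Stab.lunit_nat (R := R) (R.comp u b)
  have h2 : R.comp (R.ltens LC.point (R.comp u b)) (R.J (PMap.ofHomeo (LC.lunit LC.point))) =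
      R.comp (R.J (PMap.ofHomeo (LC.lunit K))) (R.comp u b) := h
  simp only [R.assoc]
  rw [h2]
  rfl

/-- (PS3) the value of `Ψ` on the class `θ` -/
theorem Ψ_theta (S S' : Type) [Fintype S] [Fintype S'] (hS : Fintype.card S ≤ 15)
    (hS' : Fintype.card S' ≤ 15) (h1 : 0 < Fintype.card S) (h2 : 0 < Fintype.card S') :
    A.Ψ.F (A.T.theta S S') = A.P.inc (A.T.theta S S') +
      A.P.comp (A.P.inc (A.T.comp (A.T.J (graph (X := LC.PP S S') (L := LC.PP S S')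
        (fun x => x) continuous_id)) (A.T.comp (A.T.toBiv.act (A.T.theta S S') (LC.PP S S'))
          (A.o.xt S S' 15)))) (A.P.b A.o 15) := by
  have e1 : A.Ψ.F (A.T.theta S S') = A.cls.gbiv.theta S S' := by
    rw [← A.map_Ψ]
    exact GCls.map_theta A.T.toGBiv.cls A.Ψ S S'
  have e2 : A.cls.gbiv.theta S S' = A.P.toBiv.mulc (A.P.inc (A.T.theta S S'))
      (A.D.Λ.F (A.P.theta S S')) := by
    refine (GCls.mul_theta _ _ S S').trans ?_
    rw [← GCls.map_theta, ← GCls.map_theta]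
    rfl
  rw [e1, e2, A.D.theta S S' hS hS' (by norm_num) h1 h2]
  have e3 := A.P.toGBiv.mul_add (K := LC.PP S S') (A.P.inc (A.T.theta S S'))
    (A.P.one (LC.PP S S')) (A.P.comp (A.P.inc (A.o.xt S S' 15)) (A.P.b A.o 15))
  refine (e3.trans ?_)
  rw [A.P.mul_one]
  congr 1
  refine (A.P.toBiv.mulc_comp68 _ _ _).trans ?_
  rw [A.P.inc_comp, A.P.inc_comp, A.P.inc_J]
  unfold Biv.act
  rw [A.P.inc_comp, A.P.inc_tens]
  congr 5
  exact (A.P.inc_J _).symm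

/-- (PS4) `Ψ` is constant on the orientation class of small projective spaces -/
theorem Ψ_u (S : Type) [Fintype S] (hS : Fintype.card S ≤ 14) :
    A.Ψ.F (A.o.u S) = A.P.inc (A.o.u S) := by
  rcases isEmpty_or_nonempty S with hE | hE
  · have : IsEmpty (LC.Pr S 1) := by
      refine ⟨fun P => ?_⟩
      have h := Pr.le_card P
      rw [Fintype.card_eq_zero] at h
      omega
    exact GBiv.eq_of_isEmpty54 A.P.toGBiv _ _
  · have h1 : 0 < Fintype.card S := Fintype.card_pos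
    refine A.good (fun z => A.Ψ.F z = A.P.incHom.F z) (good_eq A.Ψ A.P.incHom) A.Ψ_a S ?_
    rw [A.Ψ_theta S Bool (by omega) (by simp) h1 (by simp),
      A.o.xt_zero S Bool 15 (by rw [Fintype.card_bool]; omega)]
    have h0 : ∀ {K L M : LC} (x : A.T.Hom K L), A.T.comp x (0 : A.T.Hom L M) = 0 := by
      intro K L M x
      have h2 := A.T.comp_add x (0 : A.T.Hom L M) 0
      rw [add_zero] at h2
      exact left_eq_add.1 h2
    have h2 := A.P.add_comp (0 : A.P.Hom (LC.PP S Bool) (Cn 15)) 0 (A.P.b A.o 15)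
    rw [add_zero] at h2
    have h3 := left_eq_add.1 h2
    have h4 : A.P.inc (0 : A.T.Hom (LC.PP S Bool) (Cn 15)) = 0 := A.P.incHom.map_zero _ _
    rw [h0, h0, h4, h3, add_zero]
    rfl

theorem Ψ_bb38 (i j : ℕ) (hi : 1 < i) (hj : 1 < j) (h : i + j = 15) :
    A.Ψ.F (A.o.bb (Fin (i + 1)) (Fin (j + 1)) i j) =
      A.P.inc (A.o.bb (Fin (i + 1)) (Fin (j + 1)) i j) :=
  (good_eq A.Ψ A.P.incHom).bb38 A.o (Fin (i + 1)) (Fin (j + 1))
    (A.Ψ_u (Fin (i + 1)) (by rw [Fintype.card_fin]; omega))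
    (A.Ψ_u (Fin (j + 1)) (by rw [Fintype.card_fin]; omega)) i j
    (by rw [Fintype.card_fin]; omega) (by rw [Fintype.card_fin]; omega)

/-- (PS5) the classes `y_ij` -/
theorem Ψ_bb (i j : ℕ) (hi : 1 < i) (hj : 1 < j) (h : i + j = 15) :
    A.Ψ.F (A.T.comp (A.o.bb (Fin (i + 1)) (Fin (j + 1)) i j)
      (A.T.theta (Fin (i + 1)) (Fin (j + 1)))) =
    A.P.inc (A.T.comp (A.o.bb (Fin (i + 1)) (Fin (j + 1)) i j)
      (A.T.theta (Fin (i + 1)) (Fin (j + 1)))) +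
      (Nat.choose 15 i) • A.P.comp (A.P.J (PMap.ofHomeo ((CnAdd i j).trans (CnCast h))))
        (A.P.b A.o 15) := by
  rw [A.Ψ.comp, A.Ψ_bb38 i j hi hj h, A.Ψ_theta _ _ (by rw [Fintype.card_fin]; omega)
    (by rw [Fintype.card_fin]; omega) (by rw [Fintype.card_fin]; omega)
    (by rw [Fintype.card_fin]; omega), A.P.comp_add, ← A.P.inc_comp, ← A.P.assoc,
    ← A.P.inc_comp]
  have h1 := A.o.bb_xt38 (Fin (i + 1)) (Fin (j + 1)) i j 15 h (Fintype.card_fin _)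
    (Fintype.card_fin _) 0 0 (A.T.theta (Fin (i + 1)) (Fin (j + 1)))
    (A.T.toGBiv.cls.theta_line (Fin (i + 1)) (Fin (j + 1)) 0 0)
  have h2 : A.P.inc (A.T.comp (A.o.bb (Fin (i + 1)) (Fin (j + 1)) i j)
      (A.T.comp (A.T.J (graph (X := LC.PP (Fin (i + 1)) (Fin (j + 1)))
        (L := LC.PP (Fin (i + 1)) (Fin (j + 1))) (fun x => x) continuous_id))
        (A.T.comp (A.T.toBiv.act (A.T.theta (Fin (i + 1)) (Fin (j + 1)))
          (LC.PP (Fin (i + 1)) (Fin (j + 1)))) (A.o.xt (Fin (i + 1)) (Fin (j + 1)) 15)))) =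
      (Nat.choose 15 i) • A.P.J (PMap.ofHomeo ((CnAdd i j).trans (CnCast h))) := by
    refine (congrArg A.P.inc h1).trans ?_
    refine (A.P.incHom.nsmul38 _ _).trans ?_
    exact congrArg _ (A.P.inc_J _)
  rw [h2]
  congr 1
  exact A.P.toBiv.nsmul_comp38 _ _ _

/-- the normalised classes `y_ij` -/
def y38 (i j : ℕ) (h : i + j = 15) : A.T.Hom (Cn 15) LC.point :=
  A.T.comp (jh A.T.toBiv ((CnAdd i j).trans (CnCast h)).symm)
    (A.T.comp (A.o.bb (Fin (i + 1)) (Fin (j + 1)) i j) (A.T.theta (Fin (i + 1)) (Fin (j + 1))))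

theorem Ψ_y38 (i j : ℕ) (hi : 1 < i) (hj : 1 < j) (h : i + j = 15) :
    A.Ψ.F (A.y38 i j h) = A.P.inc (A.y38 i j h) + (Nat.choose 15 i) • A.P.b A.o 15 := by
  unfold y38
  rw [A.Ψ.comp, A.Ψ_bb i j hi hj h, A.P.comp_add,
    A.P.inc_comp (jh A.T.toBiv ((CnAdd i j).trans (CnCast h)).symm)]
  have e1 : A.Ψ.F (jh A.T.toBiv ((CnAdd i j).trans (CnCast h)).symm) =
      jh A.P.toBiv ((CnAdd i j).trans (CnCast h)).symm := A.Ψ.J _
  have e2 : A.P.inc (jh A.T.toBiv ((CnAdd i j).trans (CnCast h)).symm) =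
      jh A.P.toBiv ((CnAdd i j).trans (CnCast h)).symm := A.P.inc_J _
  rw [e1, e2]
  congr 1
  refine (A.P.toBiv.comp_nsmul38 _ _ _).trans ?_
  congr 1
  exact Pool.Agent.Helper63.Stab.jh_symm_comp _ _ _

theorem good_y38 (p : (∀ {K Z : LC}, A.T.Hom K Z → Prop)) (hp : Good A.T.toBiv p) (ha : p A.a)
    (hθ : ∀ (S S' : Type) [Fintype S] [Fintype S'], p (A.T.theta S S'))
    (i j : ℕ) (h : i + j = 15) : p (A.y38 i j h) :=
  hp.comp _ _ (hp.J _) (hp.comp _ _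
    (hp.bb38 A.o (Fin (i + 1)) (Fin (j + 1)) (A.good p hp ha _ (hθ _ _)) (A.good p hp ha _ (hθ _ _))
      i j (by rw [Fintype.card_fin]; omega) (by rw [Fintype.card_fin]; omega)) (hθ _ _))

/-- (PS6) the class `y` -/
theorem exists_y : ∃ y : A.T.Hom LC.C LC.point, A.Ψ.F y = A.P.inc y + A.D.β ∧
    ∀ p : (∀ {K Z : LC}, A.T.Hom K Z → Prop), Good A.T.toBiv p → p A.a →
      (∀ (S S' : Type) [Fintype S] [Fintype S'], p (A.T.theta S S')) → p y := by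
  have hw : A.Ψ.F A.D.w' = A.P.inc A.D.w' :=
    (A.good_w (fun z => A.Ψ.F z = A.P.incHom.F z) (good_eq A.Ψ A.P.incHom) A.Ψ_a).2
  refine ⟨A.T.comp A.D.w' (((-948752 : ℤ) • A.y38 2 13 rfl + (237188 : ℤ) • A.y38 3 12 rfl) +
    ((-2758 : ℤ) • A.y38 5 10 rfl + (-3 : ℤ) • A.y38 7 8 rfl)), ?_, ?_⟩
  · have key : ∀ b : A.P.Hom (Cn 15) LC.point, ((-948752 : ℤ) • ((Nat.choose 15 2) • b) +
        (237188 : ℤ) • ((Nat.choose 15 3) • b)) + ((-2758 : ℤ) • ((Nat.choose 15 5) • b) +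
        (-3 : ℤ) • ((Nat.choose 15 7) • b)) = b := by
      intro b
      rw [show Nat.choose 15 2 = 105 by decide, show Nat.choose 15 3 = 455 by decide,
        show Nat.choose 15 5 = 3003 by decide, show Nat.choose 15 7 = 6435 by decide]
      module
    rw [A.Ψ.comp, hw, A.Ψ.add, A.Ψ.add, A.Ψ.add, A.Ψ.zsmul38, A.Ψ.zsmul38, A.Ψ.zsmul38,
      A.Ψ.zsmul38, A.Ψ_y38 2 13 (by norm_num) (by norm_num), A.Ψ_y38 3 12 (by norm_num) (by norm_num),
      A.Ψ_y38 5 10 (by norm_num) (by norm_num), A.Ψ_y38 7 8 (by norm_num) (by norm_num),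
      A.P.inc_comp]
    have e : A.P.inc (((-948752 : ℤ) • A.y38 2 13 rfl + (237188 : ℤ) • A.y38 3 12 rfl) +
        ((-2758 : ℤ) • A.y38 5 10 rfl + (-3 : ℤ) • A.y38 7 8 rfl)) =
        ((-948752 : ℤ) • A.P.inc (A.y38 2 13 rfl) + (237188 : ℤ) • A.P.inc (A.y38 3 12 rfl)) +
        ((-2758 : ℤ) • A.P.inc (A.y38 5 10 rfl) + (-3 : ℤ) • A.P.inc (A.y38 7 8 rfl)) := by
      rw [A.P.inc_add, A.P.inc_add, A.P.inc_add]
      congr 1
      · congr 1
        · exact A.P.incHom.zsmul38 _ _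
        · exact A.P.incHom.zsmul38 _ _
      · congr 1
        · exact A.P.incHom.zsmul38 _ _
        · exact A.P.incHom.zsmul38 _ _
    rw [e]
    unfold MonoData.β
    rw [← A.P.comp_add]
    congr 1
    conv_rhs => rw [← key (A.P.b A.o 15)]
    simp only [smul_add]
    abel
  · intro p hp ha hθ
    exact hp.comp _ _ (A.good_w p hp ha).2 (hp.add _ _
      (hp.add _ _ (hp.zsmul38 _ (A.good_y38 p hp ha hθ _ _ _) _)
        (hp.zsmul38 _ (A.good_y38 p hp ha hθ _ _ _) _))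
      (hp.add _ _ (hp.zsmul38 _ (A.good_y38 p hp ha hθ _ _ _) _)
        (hp.zsmul38 _ (A.good_y38 p hp ha hθ _ _ _) _)))

end TP

/-- The theory with the class `y`, the coefficient maps and the idempotent `e`. -/
structure TE {k : ℕ} (g : GenLoop (Fin 4) (Gr {1} k) (Gr.pt {1} k)) extends TP g where
  y : T.Hom LC.C LC.point
  Ψ_y : Ψ.F y = P.inc y + D.β
  ϖ_y : ϖ.Com y
  /-- evaluation at `β = - y` -/
  Ev : BivHom P.toBiv T.toBiv
  Ev_inc : ∀ {K Z : LC} (x : T.Hom K Z), Ev.F (P.inc x) = x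
  Ev_b : Ev.F (P.b o 15) = - T.comp D.w y
  Ev_ne : ∀ i, 0 < i → i ≠ 15 → Ev.F (P.b o i) = 0

/-- (TE1) the structure exists -/
theorem exists_TE {k : ℕ} (g : GenLoop (Fin 4) (Gr {1} k) (Gr.pt {1} k))
    (hg : IsBottProduct (loopGK (loopToU g))) : Nonempty (TE g) := by
  obtain ⟨A⟩ := exists_TS g hg
  obtain ⟨Ψ, hΨg, hΨa⟩ := A.exists_Ψ
  let B : TP g := { toTS := A, Ψ := Ψ, Ψ_g := hΨg, Ψ_a := hΨa }
  obtain ⟨y, hy, hyp⟩ := B.exists_y
  have hcom : B.ϖ.Com y := by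
    refine hyp (fun z => B.ϖ.Com z) (good_com B.ϖ) (B.ϖ.com_of_lin B.a B.ϖ_lin) ?_
    intro S S' _ _
    obtain ⟨n, Q, hQ⟩ := exists_theta_su S S'
    rw [hQ]
    exact pi_com_su (e := 2) two_pos g B.T B.a B.ha B.ϖ B.ϖ_g B.ϖ_lin Q
  obtain ⟨Ev, hE1, hE2⟩ := B.P.exists_poly_hom B.o (BivHom.id B.T.toBiv)
    (fun i => if h : i = 15 then h ▸ (-(B.T.comp B.D.w y)) else 0)
  exact ⟨{
    toTP := B
    y := y
    Ψ_y := hy
    ϖ_y := hcom
    Ev := Ev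
    Ev_inc := hE1
    Ev_b := by rw [hE2 15 (by norm_num), dif_pos rfl]
    Ev_ne := fun i hi h => by rw [hE2 i hi, dif_neg h] }⟩

/-- good predicates are closed under products -/
theorem Good.mulc {T : Biv} {p : ∀ {K Z : LC}, T.Hom K Z → Prop} (hG : Good T p) {K : LC}
    {x y : T.Hom K LC.point} (hx : p x) (hy : p y) : p (T.mulc x y) := by
  unfold Biv.mulc BivData.ltens
  exact hG.comp _ _ (hG.J _) (hG.comp _ _ (hG.comp _ _ (hG.tens _ _ hx) (hG.comp _ _ (hG.J _)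
    (hG.comp _ _ (hG.tens _ _ hy) (hG.J _)))) (hG.J _))

/-- the product of the restrictions of two classes -/
theorem Good.pre_mulc {R : GBiv} {p : ∀ {K Z : LC}, R.Hom K Z → Prop} (hG : Good R.toBiv p)
    {K L : LC} [CompactSpace K] [CompactSpace L] (f : C(K, L)) {x y : R.Hom L LC.point}
    (hx : p (R.comp (R.J (PMap.ofCont (K := K) (L := L) f f.continuous)) x))
    (hy : p (R.comp (R.J (PMap.ofCont (K := K) (L := L) f f.continuous)) y)) :
    p (R.comp (R.J (PMap.ofCont (K := K) (L := L) f f.continuous)) (R.toBiv.mulc x y)) := by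
  rw [← GBiv.mul_eq, R.mul_pre, GBiv.mul_eq]
  exact hG.mulc hx hy

/-- good predicates can be divided by an invertible class -/
theorem Good.of_mulx {T : Biv} {p : ∀ {K Z : LC}, T.Hom K Z → Prop} (hG : Good T p) {V : LC}
    {a : T.Hom V LC.point} {a' : T.Hom LC.point V} (ha : p a) (h1 : T.comp a a' = T.J (PMap.id _))
    (h2 : T.comp a' a = T.J (PMap.id _)) {K Z : LC} {x : T.Hom K Z} (hx : p (T.mulx a x)) :
    p x := by
  have ha' : p a' := by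
    refine hG.split a a' ha ?_ h2
    rw [h1]
    exact hG.J _
  unfold Biv.mulx at hx
  have h3 : x = T.comp (T.J (PMap.ofHomeo (LC.lunit K).symm))
      (T.comp (T.tens a' K) (T.comp (T.tens a K)
        (T.comp (T.J (PMap.ofHomeo (LC.lunit K))) x))) := by
    rw [← T.assoc (T.tens a' K), ← T.tens_comp, h2,
      Pool.Agent.Helper63.Stab.tens_id (R := T) LC.point K, T.id_comp]
    exact (Pool.Agent.Helper63.Stab.jh_symm_comp (R := T) (LC.lunit K) x).symm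
  rw [h3]
  exact hG.comp _ _ (hG.J _) (hG.comp _ _ (hG.tens _ _ ha') hx)

/-- an element over which the projection is linear is fixed -/
theorem fix_of_com {T : Biv} (ϖ : NTr T T) (hJ : ∀ {K Z : LC} (f : PMap K Z.plus),
    ϖ.F (T.J f) = T.J f) {K Z : LC} {x : T.Hom K Z} (hx : ϖ.Com x) : ϖ.F x = x := by
  have h := hx (K := K) (W := LC.point)
    (T.J (PMap.ofHomeo (K := K) (L := K.prod LC.point) (Homeomorph.prodPUnit K).symm))
  have h1 : T.comp (T.comp (T.J (PMap.ofHomeo (K := K) (L := K.prod LC.point)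
      (Homeomorph.prodPUnit K).symm)) (T.tens x LC.point))
      (T.J (PMap.ofHomeo (Homeomorph.prodPUnit Z : Z.prod LC.point ≃ₜ Z))) = x := by
    rw [T.assoc, T.tens_point]
    exact Pool.Agent.Helper63.Stab.jh_symm_comp (R := T) (K := K.prod LC.point) (L := K)
      (Homeomorph.prodPUnit K) x
  have h2 : ϖ.F (T.comp (T.comp (T.J (PMap.ofHomeo (K := K) (L := K.prod LC.point)
      (Homeomorph.prodPUnit K).symm)) (T.tens x LC.point))
      (T.J (PMap.ofHomeo (Homeomorph.prodPUnit Z : Z.prod LC.point ≃ₜ Z)))) = ϖ.F x := by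
    rw [h1]
  rw [← h2, ϖ.post, h, hJ]
  exact h1

namespace TE
variable {k : ℕ} {g : GenLoop (Fin 4) (Gr {1} k) (Gr.pt {1} k)} (A : TE g)

/-- the idempotent -/
def e : BivHom A.T.toBiv A.T.toBiv := A.Ψ.trans A.Ev

/-- (E1) -/
theorem Ev_β : A.Ev.F A.D.β = - A.y := by
  unfold MonoData.β
  rw [A.Ev.comp, A.Ev_inc, A.Ev_b, Pool.Agent.Helper9.Stab.c_neg, ← A.T.assoc, A.D.w'w,
    A.T.id_comp]

/-- (E2) -/
theorem e_y : A.e.F A.y = 0 := by
  change A.Ev.F (A.Ψ.F A.y) = 0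
  rw [A.Ψ_y, A.Ev.add, A.Ev_inc, A.Ev_β, add_neg_cancel]

/-- (E3) -/
theorem e_a : A.e.F A.a = A.a := by
  change A.Ev.F (A.Ψ.F A.a) = A.a
  rw [A.Ψ_a, A.Ev_inc]

/-- (E4) the morphism `e` is idempotent -/
theorem e_e {K Z : LC} (x : A.T.Hom K Z) : A.e.F (A.e.F x) = A.e.F x := by
  have hEv : ∀ {K Z : LC} (x : A.P.Hom K Z), A.Ev.F (A.D.Λ.F x) = A.Ev.F x := by
    intro K Z x
    refine A.P.poly_hom_ext A.o (A.D.Λ.trans A.Ev) A.Ev ?_ ?_ x
    · intro K Z x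
      change A.Ev.F (A.D.Λ.F (A.P.inc x)) = _
      rw [A.D.inc]
    · intro i hi
      change A.Ev.F (A.D.Λ.F (A.P.b A.o i)) = _
      by_cases h : i = 15
      · subst h
        rw [A.D.b]
      · rw [A.D.b_ne i hi h, A.Ev_ne i hi h, A.Ev.map_zero]
  have heg : ∀ (κ : Type) [Fintype κ],
      A.e.F (A.T.g κ) = A.T.toBiv.mulc (A.T.g κ) (A.Ev.F (A.P.g κ)) := by
    intro κ _
    change A.Ev.F (A.Ψ.F (A.T.g κ)) = _
    rw [A.Ψ_g, A.Ev.mulc, A.Ev_inc, hEv]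
  have haug : ∀ (κ : Type) [Fintype κ],
      A.e.F (A.Ev.F (A.P.g κ)) = A.T.J (PMap.toPoint (LC.G κ)) := by
    intro κ _
    refine A.P.aug_g A.o (A.Ev.trans A.e) ?_ κ
    intro i hi
    change A.e.F (A.Ev.F (A.P.b A.o i)) = 0
    by_cases h : i = 15
    · subst h
      rw [A.Ev_b, A.e.map_neg, A.e.comp, A.e_y, Pool.Agent.Helper9.Stab.c_zero, neg_zero]
    · rw [A.Ev_ne i hi h, A.e.map_zero]
  refine LocTheory.hom_ext (e := 2) two_pos (loopGK (loopToU g)) A.T A.a A.ha (A.e.trans A.e)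
    A.e ?_ x
  intro n
  change A.e.F (A.e.F (A.T.g (Fin n))) = A.e.F (A.T.g (Fin n))
  have h1 := congrArg A.e.F (heg (Fin n))
  rw [A.e.mulc, haug, Biv.mulc_one59] at h1
  exact h1

/-- the projection is linear over the classes `u` -/
theorem com_u (S : Type) [Fintype S] : A.ϖ.Com (A.o.u S) := by
  refine A.good (fun z => A.ϖ.Com z) (good_com A.ϖ) (A.ϖ.com_of_lin A.a A.ϖ_lin) S ?_
  obtain ⟨n, Q, hQ⟩ := exists_theta_su S Bool
  have h := hQ A.T.toGBiv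
  rw [h]
  exact @pi_com_su _ _ two_pos g A.T A.a A.ha A.ϖ A.ϖ_g A.ϖ_lin _ _ n Q

/-- (E5) the coefficients of the classes of bundles are in `S[BSU]` -/
theorem com_Ev (κ : Type) [Fintype κ] : A.ϖ.Com (A.Ev.F (A.P.g κ)) := by
  refine A.P.com_eval A.o A.ϖ (fun S _ => A.com_u S) A.Ev (fun x => A.Ev_inc x) ?_ κ
  intro i hi
  by_cases h : i = 15
  · subst h
    rw [A.Ev_b]
    refine (good_com A.ϖ).neg _ ((good_com A.ϖ).comp _ _ ?_ A.ϖ_y)
    exact (A.good_w (fun z => A.ϖ.Com z) (good_com A.ϖ) (A.ϖ.com_of_lin A.a A.ϖ_lin)).1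
  · rw [A.Ev_ne i hi h, ← A.T.J_zero]
    exact (good_com A.ϖ).J _

/-- evaluation does not see the other variables -/
theorem Ev_Λ {K Z : LC} (x : A.P.Hom K Z) : A.Ev.F (A.D.Λ.F x) = A.Ev.F x := by
  refine A.P.poly_hom_ext A.o (A.D.Λ.trans A.Ev) A.Ev (fun x => ?_) (fun i hi => ?_) x
  · change A.Ev.F (A.D.Λ.F (A.P.inc x)) = A.Ev.F (A.P.inc x)
    rw [A.D.inc]
  · change A.Ev.F (A.D.Λ.F (A.P.b A.o i)) = A.Ev.F (A.P.b A.o i)
    by_cases h : i = 15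
    · subst h
      rw [A.D.b]
    · rw [A.D.b_ne i hi h, A.Ev.map_zero, A.Ev_ne i hi h]

/-- the value of `e` on the tautological classes -/
theorem e_g (κ : Type) [Fintype κ] :
    A.e.F (A.T.g κ) = A.T.toBiv.mulc (A.T.g κ) (A.Ev.F (A.P.g κ)) := by
  change A.Ev.F (A.Ψ.F (A.T.g κ)) = _
  rw [A.Ψ_g, A.Ev.mulc, A.Ev_inc, A.Ev_Λ]

/-- the elements over which the projection is linear are fixed -/
theorem fix_com {K Z : LC} {x : A.T.Hom K Z} (h : A.ϖ.Com x) : A.ϖ.F x = x :=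
  fix_of_com A.ϖ (fun f => pi_J two_pos g A.T A.a A.ha A.ϖ A.ϖ_g A.ϖ_lin f) h

/-- (E6) the morphism `e` maps `S[BSU]` to itself -/
theorem com_e_pi {K Z : LC} (x : A.T.Hom K Z) : A.ϖ.Com (A.e.F (A.ϖ.F x)) := by
  have hG := good_com A.ϖ
  refine @LocTheory.induct0 _ _ _ two_pos (loopGK (loopToU g)) A.T A.a A.ha
    (fun {K Z} x => A.ϖ.Com (A.e.F (A.ϖ.F x))) ?_ ?_ ?_ ?_ ?_ ?_ K Z x
  · intro K K' Z φ x hx
    change A.ϖ.Com (A.e.F (A.ϖ.F (A.T.comp (A.T.J φ) x)))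
    rw [A.ϖ.pre, A.e.comp, A.e.J]
    exact hG.comp _ _ (hG.J _) hx
  · intro K Z Z' φ x hx
    change A.ϖ.Com (A.e.F (A.ϖ.F (A.T.comp x (A.T.J φ))))
    rw [A.ϖ.post, A.e.comp, A.e.J]
    exact hG.comp _ _ hx (hG.J _)
  · intro K Z V x hx
    change A.ϖ.Com (A.e.F (A.ϖ.F (A.T.tens x V)))
    rw [A.ϖ.tens, A.e.tens]
    exact hG.tens _ V hx
  · intro K Z x hx
    change A.ϖ.Com (A.e.F (A.ϖ.F (A.T.tens x LC.C))) at hx
    rw [A.ϖ.tens, A.e.tens] at hx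
    exact hG.susp _ hx
  · intro K Z x hx
    change A.ϖ.Com (A.e.F (A.ϖ.F (A.T.mulx A.a x))) at hx
    rw [A.ϖ_lin] at hx
    have h1 : A.e.F (A.T.mulx A.a (A.ϖ.F x)) = A.T.mulx A.a (A.e.F (A.ϖ.F x)) := by
      unfold Biv.mulx
      rw [A.e.comp, A.e.tens, A.e.comp, A.e.J, A.e_a]
    rw [h1] at hx
    refine @Good.of_mulx A.T.toBiv (fun {K Z} z => A.ϖ.Com z) hG _ A.a A.a' ?_ A.aa' A.a'a K Z _ hx
    exact A.ϖ.com_of_lin A.a A.ϖ_lin
  · intro n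
    change A.ϖ.Com (A.e.F (A.ϖ.F (A.T.g (Fin n))))
    rw [A.ϖ_g]
    unfold thetaP GBiv.suCls
    rw [A.e.comp, A.e.J, A.e_g]
    refine @Good.pre_mulc A.T.toGBiv (fun {K Z} z => A.ϖ.Com z) hG (LC.G (Fin n))
      (LC.G (Fin (detN (Fin n)))) _ _
      ⟨fun x => Gr.toGK (Gr.toU (detQ (Fin n) x)), Gr.toGK_continuous.comp
        (Gr.toU.continuous.comp (detQ (Fin n)).continuous)⟩ _ _ ?_
      (hG.comp _ _ (hG.J _) (A.com_Ev _))
    exact @pi_com_su _ _ two_pos g A.T A.a A.ha A.ϖ A.ϖ_g A.ϖ_lin (LC.G (Fin n)) _ _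
      (detQ (Fin n))

/-- the theory `S[BSU]`, as a part of `T` -/
def S : A.T.toBiv.Sub where
  p z := A.ϖ.Com z
  p_add := (good_com A.ϖ).add
  p_J := (good_com A.ϖ).J
  p_comp := (good_com A.ϖ).comp
  p_tens := (good_com A.ϖ).tens
  ρ := A.ϖ
  mem x := pi_com_pi two_pos g A.T A.a A.ha A.ϖ A.ϖ_g A.ϖ_lin x
  fix _ h := A.fix_com h

/-- the theory `S' = e S[BSU]` -/
def S' : A.T.toBiv.Sub where
  p z := A.ϖ.Com z ∧ A.e.F z = z
  p_add x y hx hy := ⟨(good_com A.ϖ).add x y hx.1 hy.1, by rw [A.e.add, hx.2, hy.2]⟩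
  p_J f := ⟨(good_com A.ϖ).J f, A.e.J f⟩
  p_comp x y hx hy := ⟨(good_com A.ϖ).comp x y hx.1 hy.1, by rw [A.e.comp, hx.2, hy.2]⟩
  p_tens x V hx := ⟨(good_com A.ϖ).tens x V hx.1, by rw [A.e.tens, hx.2]⟩
  ρ := ⟨fun x => A.e.F (A.ϖ.F x), fun x y => by rw [A.ϖ.add, A.e.add],
    fun f x => by rw [A.ϖ.pre, A.e.comp, A.e.J], fun f x => by rw [A.ϖ.post, A.e.comp, A.e.J],
    fun V x => by rw [A.ϖ.tens, A.e.tens]⟩
  mem x := ⟨A.com_e_pi x, A.e_e _⟩
  fix x h := by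
    change A.e.F (A.ϖ.F x) = x
    rw [A.fix_com h.1, h.2]

/-- (E7) the theory `S'` is oriented -/
theorem exists_orient_S' : Nonempty (Orient A.S'.biv) := by
  have hm : ∀ (S : Type) [Fintype S], A.ϖ.Com (A.e.F (A.o.u S)) ∧
      A.e.F (A.e.F (A.o.u S)) = A.e.F (A.o.u S) := by
    intro S _
    refine ⟨?_, A.e_e _⟩
    have h : A.ϖ.Com (A.e.F (A.ϖ.F (A.o.u S))) := @com_e_pi _ _ A _ _ (A.o.u S)
    rwa [A.fix_com (A.com_u S)] at h
  exact ⟨{ u := fun S _ => ⟨A.e.F (A.o.u S), hm S⟩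
           u_ext := fun {S T} _ _ j => Subtype.ext (by
             change A.T.comp (A.T.J (Pr.extM j 1)) (A.e.F (A.o.u T)) = A.e.F (A.o.u S)
             rw [← A.e.J, ← A.e.comp, A.o.u_ext])
           u_unit := Subtype.ext (by
             change A.e.F (A.o.u Unit) = 0
             rw [A.o.u_unit, A.e.map_zero])
           u_bool := Subtype.ext (by
             change A.e.F (A.o.u Bool) = A.T.J collP1
             rw [A.o.u_bool, A.e.J]) }⟩

end TE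

end Pool.Agent.Helper1.Stab
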