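import Pool.Agent.Helper1.Stab.T.Op

/-! Project T, layer 0: sub-theories with a natural retraction are theories. -/

open CategoryTheory Topology Filter Set Opposite

noncomputable section

namespace Pool.Agent.Helper1.Stab

open Pool.Agent.Helper63.Stab (jh)

theorem NTr.map_zero {T R : Biv} (O : NTr T R) (K Z : LC) : O.F (0 : T.Hom K Z) = 0 := by
  have h := O.add (0 : T.Hom K Z) 0
  rw [add_zero] at h
  exact left_eq_add.1 h

theorem NTr.map_neg {T R : Biv} (O : NTr T R) {K Z : LC} (x : T.Hom K Z) : O.F (-x) = -O.F x := by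
  have h := O.add x (-x)
  rw [add_neg_cancel, O.map_zero] at h
  exact (neg_eq_of_add_eq_zero_right h.symm).symm

namespace Biv.Sub
variable {T : Biv} (S : T.Sub)

theorem p_zero (K Z : LC) : S.p (0 : T.Hom K Z) := by
  rw [← T.J_zero]
  exact S.p_J _

theorem p_neg {K Z : LC} (x : T.Hom K Z) (h : S.p x) : S.p (-x) := by
  have h2 := S.mem (-x)
  rwa [S.ρ.map_neg, S.fix x h] at h2

/-- the subgroup -/
def grp (K Z : LC) : AddSubgroup (T.Hom K Z) where
  carrier := {x | S.p x}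
  add_mem' {x y} hx hy := S.p_add x y hx hy
  zero_mem' := S.p_zero K Z
  neg_mem' {x} hx := S.p_neg x hx

/-- the data of the sub-theory -/
def data : BivData where
  Hom K Z := S.grp K Z
  J f := ⟨T.J f, S.p_J f⟩
  comp x y := ⟨T.comp x.1 y.1, S.p_comp _ _ x.2 y.2⟩
  tens x V := ⟨T.tens x.1 V, S.p_tens _ V x.2⟩

/-- (SB) the axioms of a bivariant theory -/
theorem biv_aux :
    (∀ K L : LC, Function.Bijective (fun x : S.data.Hom K L => S.data.tens x LC.R)) ∧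
    (∀ {K L : LC} (u : C(K, ℝ)) (x : S.data.Hom K L), S.data.comp (S.data.J (MV.iA u)) x = 0 →
      S.data.comp (S.data.J (MV.iB u)) x = 0 →
      ∃ y : S.data.Hom (LC.R.prod (MV.C u)) L, x = S.data.comp (S.data.J (MV.delta u)) y) ∧
    (∀ {K L : LC} (u : C(K, ℝ)) (a : S.data.Hom (MV.A u) L) (b : S.data.Hom (MV.B u) L),
      S.data.comp (S.data.J (MV.iCA u)) a = S.data.comp (S.data.J (MV.iCB u)) b →
      ∃ x : S.data.Hom K L, S.data.comp (S.data.J (MV.iA u)) x = a ∧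
        S.data.comp (S.data.J (MV.iB u)) x = b) ∧
    (∀ {K L : LC} (u : C(K, ℝ)) (y : S.data.Hom (LC.R.prod (MV.C u)) L),
      S.data.comp (S.data.J (MV.delta u)) y = 0 →
      ∃ (a : S.data.Hom (LC.R.prod (MV.A u)) L) (b : S.data.Hom (LC.R.prod (MV.B u)) L),
        y = S.data.comp (S.data.J (PMap.ltens LC.R (MV.iCA u))) a -
          S.data.comp (S.data.J (PMap.ltens LC.R (MV.iCB u))) b) := by
  refine ⟨fun K L => ⟨fun x y h => ?_, fun y => ?_⟩, fun {K L} u x hA hB => ?_,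
    fun {K L} u a b h => ?_, fun {K L} u y h => ?_⟩
  · exact Subtype.ext ((T.susp K L).1 (congrArg Subtype.val h))
  · obtain ⟨x, hx⟩ := (T.susp K L).2 y.1
    have hx' : T.tens x LC.R = y.1 := hx
    have h1 : S.ρ.F x = x := by
      refine (T.susp K L).1 ?_
      change T.tens (S.ρ.F x) LC.R = T.tens x LC.R
      rw [← S.ρ.tens, hx', S.fix y.1 y.2]
    exact ⟨⟨x, h1 ▸ S.mem x⟩, Subtype.ext hx⟩
  · obtain ⟨y, hy⟩ := T.mv1 u x.1 (congrArg Subtype.val hA) (congrArg Subtype.val hB)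
    refine ⟨⟨S.ρ.F y, S.mem y⟩, Subtype.ext ?_⟩
    change x.1 = T.comp (T.J (MV.delta u)) (S.ρ.F y)
    rw [← S.ρ.pre, ← hy, S.fix x.1 x.2]
  · obtain ⟨x, hx1, hx2⟩ := T.mv2 u a.1 b.1 (congrArg Subtype.val h)
    refine ⟨⟨S.ρ.F x, S.mem x⟩, Subtype.ext ?_, Subtype.ext ?_⟩
    · change T.comp (T.J (MV.iA u)) (S.ρ.F x) = a.1
      rw [← S.ρ.pre, hx1, S.fix a.1 a.2]
    · change T.comp (T.J (MV.iB u)) (S.ρ.F x) = b.1
      rw [← S.ρ.pre, hx2, S.fix b.1 b.2]
  · obtain ⟨a, b, hab⟩ := T.mv3 u y.1 (congrArg Subtype.val h)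
    refine ⟨⟨S.ρ.F a, S.mem a⟩, ⟨S.ρ.F b, S.mem b⟩, Subtype.ext ?_⟩
    change y.1 = T.comp (T.J (PMap.ltens LC.R (MV.iCA u))) (S.ρ.F a) -
      T.comp (T.J (PMap.ltens LC.R (MV.iCB u))) (S.ρ.F b)
    rw [← S.ρ.pre, ← S.ρ.pre, sub_eq_add_neg, ← S.ρ.map_neg, ← S.ρ.add, ← sub_eq_add_neg, ← hab,
      S.fix y.1 y.2]

/-- the sub-theory -/
def biv : Biv where
  toBivData := S.data
  J_homotopic h := Subtype.ext (T.J_homotopic h)
  J_comp f g := Subtype.ext (T.J_comp f g)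
  J_zero K L := Subtype.ext (T.J_zero K L)
  id_comp x := Subtype.ext (T.id_comp x.1)
  comp_id x := Subtype.ext (T.comp_id x.1)
  assoc x y z := Subtype.ext (T.assoc x.1 y.1 z.1)
  add_comp x x' y := Subtype.ext (T.add_comp x.1 x'.1 y.1)
  comp_add x y y' := Subtype.ext (T.comp_add x.1 y.1 y'.1)
  tens_add x x' Z := Subtype.ext (T.tens_add x.1 x'.1 Z)
  tens_comp x y Z := Subtype.ext (T.tens_comp x.1 y.1 Z)
  tens_J f Z := Subtype.ext (T.tens_J f Z)
  tens_tens x Z W := Subtype.ext (T.tens_tens x.1 Z W)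
  tens_point x := Subtype.ext (T.tens_point x.1)
  exch x y := Subtype.ext (T.exch x.1 y.1)
  susp := S.biv_aux.1
  mv1 := S.biv_aux.2.1
  mv2 := S.biv_aux.2.2.1
  mv3 := S.biv_aux.2.2.2

/-- the inclusion of the sub-theory -/
def inc : BivHom S.biv T where
  F x := x.1
  add _ _ := rfl
  J _ := rfl
  comp _ _ := rfl
  tens _ _ := rfl

end Biv.Sub

end Pool.Agent.Helper1.Stab
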