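import Pool.Agent.Helper1.Stab.T.PsiT
import Pool.Agent.Helper1.Stab.T.GFT
import Pool.Agent.Helper84.Int.Alg

/-! Project T, layer 3: the data of the sparse trick. -/

open CategoryTheory Topology Filter Set Opposite

noncomputable section

namespace Pool.Agent.Helper1.Stab

open Pool.Agent.Helper63.Stab (jh)

/-- `ℂ × (V × Z) = V × (ℂ × Z)` -/
def LC.swapC (V Z : LC) : LC.C.prod (V.prod Z) ≃ₜ V.prod (LC.C.prod Z) where
  toFun x := (x.2.1, (x.1, x.2.2))
  invFun x := (x.2.1, (x.1, x.2.2))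
  left_inv _ := rfl
  right_inv _ := rfl
  continuous_toFun := by fun_prop
  continuous_invFun := by fun_prop

/-- the suspension isomorphism `R(K, V × Z) = R(ℂ × K, V × (ℂ × Z))` -/
def Biv.suspV (R : Biv) (V K Z : LC) :
    R.Hom K (V.prod Z) ≃+ R.Hom (LC.C.prod K) (V.prod (LC.C.prod Z)) :=
  AddEquiv.ofBijective
    (AddMonoidHom.mk' (fun x : R.Hom K (V.prod Z) =>
      R.comp (R.ltens LC.C x) (jh R (LC.swapC V Z)))
      (fun x y => by rw [R.ltens_add, R.add_comp]))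
    (by
      have h1 := R.ltens_C_bijective K (V.prod Z)
      have h2 := (R.invP_homeo (LC.swapC V Z)).post_bij R (K := LC.C.prod K)
      exact h2.comp h1)

/-- The graded functor `H^b(K) = R(K, V × ℂ^b)`. -/
def Biv.gfV (R : Biv) (V : LC) : GF where
  h b := R.fn (V.prod (Zb b))
  σ b := NatIso.ofComponents (fun K => (R.suspV V K.unop.obj (Zb b)).toAddCommGrpIso) (by
    intro X Y f
    ext y
    change R.comp (R.ltens LC.C (R.comp (R.JH f.unop.hom) y)) (jh R (LC.swapC V (Zb b))) =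
      R.comp (R.JH (HMap.box (PMap.id LC.C).cls f.unop.hom))
        (R.comp (R.ltens LC.C y) (jh R (LC.swapC V (Zb b))))
    generalize f.unop.hom = z
    revert z
    refine HMap.ind fun z => ?_
    rw [← R.assoc]
    exact congrArg (fun t => R.comp t _) (R.ltens_J_comp LC.C z y))

/-! ### The graded functors `R(K, ℂ^k × ℂ^b)` -/

section GfV

open Pool.Agent.Helper63.Stab

instance gvCrdCn : ∀ n, Crd (Cn n)
  | 0 => inferInstanceAs (Crd PUnit)
  | n + 1 => by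
    haveI := gvCrdCn n
    exact inferInstanceAs (Crd ((Cn n) × ℂ))

theorem gv_dm_Cn (n : ℕ) : dm (Cn n) = n := by
  induction n with
  | zero => exact dm_point
  | succ n ih =>
    have h : dm (Cn (n + 1)) = dm (Cn n) + dm ℂ := dm_prod (Cn n) ℂ
    rw [h, dm_C, ih]

theorem gv_swapC_perm (V Z : LC) [Crd V] [Crd Z] : IsPerm (LC.swapC V Z) :=
  (((IsPerm.prodAssoc ℂ V Z).symm.trans ((IsPerm.prodComm ℂ V).prodCongr (IsPerm.refl Z))).trans
    (IsPerm.prodAssoc V ℂ Z)).of_eq fun _ => rfl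

/-- composition with an invertible class, as an isomorphism of functors -/
def Biv.fnIso (R : Biv) {L M : LC} (z : R.Hom L M) (z' : R.Hom M L) (h : R.InvP z z') :
    R.fn L ≅ R.fn M :=
  NatIso.ofComponents (fun K => (AddEquiv.ofBijective
    (AddMonoidHom.mk' (fun x : R.Hom K.unop.obj L => (R.comp x z : R.Hom K.unop.obj M))
      (fun x y => R.add_comp x y z)) (h.post_bij R)).toAddCommGrpIso) (by
    intro X Y f
    ext y
    exact R.assoc (R.JH f.unop.hom) y z)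

/-- an isomorphism of graded functors from isomorphisms of the components -/
theorem gv_iso {G H : GF} (e : ∀ b, G.h b ≅ H.h b)
    (comm : ∀ b K, (G.σ b).hom.app K ≫ (e (b + 1)).hom.app (Test.cx.op.obj K) =
      (e b).hom.app K ≫ (H.σ b).hom.app K) : Nonempty (G ≅ H) := by
  have h : IsIso (GF.Hom.mk' (G := G) (H := H) (fun b => (e b).hom) comm) :=
    GF.isIso_of_app _ fun b => inferInstanceAs (IsIso (e b).hom)
  exact ⟨@asIso _ _ _ _ _ h⟩

/-- `θ × W` at the positions `p`, `q` is invertible if `θ` is -/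
theorem gv_pl_inv (R : Biv) {K L : LC} {x : R.Hom K L} {y : R.Hom L K} (h : R.InvP x y)
    {W M N : LC} (p : M ≃ₜ K.prod W) (q : N ≃ₜ L.prod W) :
    R.InvP (pl R x p q) (pl R y q p) := by
  constructor
  · rw [pl_comp, h.1, pl, tens_id, R.id_comp, jh_comp_symm']
  · rw [pl_comp, h.2, pl, tens_id, R.id_comp, jh_comp_symm']

/-- two steps: removing a factor `ℂ × ℂ` by an invertible class -/
theorem Biv.gfV_step (R : Biv) (a : R.Hom (LC.C.prod LC.C) LC.point)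
    (a' : R.Hom LC.point (LC.C.prod LC.C)) (h : R.InvP a a') (V V' : LC) [Crd V] [Crd V']
    (hV : dm V = dm V' + 2) : Nonempty (R.gfV V ≅ R.gfV V') := by
  have hp : ∀ b, ∃ p : V.prod (Zb b) ≃ₜ (LC.C.prod LC.C).prod (V'.prod (Zb b)), IsPerm p := by
    intro b
    refine exists_isPerm (X := V × Zb b) (Y := (ℂ × ℂ) × (V' × Zb b)) ?_
    rw [dm_prod, dm_prod, dm_prod, dm_prod, dm_C, hV]
    omega
  have hq : ∀ b, ∃ q : V'.prod (Zb b) ≃ₜ LC.point.prod (V'.prod (Zb b)), IsPerm q := by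
    intro b
    refine exists_isPerm (X := V' × Zb b) (Y := PUnit × (V' × Zb b)) ?_
    rw [dm_prod PUnit, dm_point, Nat.zero_add]
  choose p hp using hp
  choose q hq using hq
  have hl : ∀ b, Like (pl R a (p b) (q b)) a := fun b =>
    ⟨V'.prod (Zb b), inferInstance, p b, q b, hp b, hq b, rfl⟩
  refine gv_iso (fun b => R.fnIso (pl R a (p b) (q b)) (pl R a' (q b) (p b))
    (gv_pl_inv R h (p b) (q b))) fun b K => ?_
  ext y
  change R.comp (R.comp (R.ltens LC.C y) (jh R (LC.swapC V (Zb b)))) (pl R a (p (b + 1)) (q (b + 1)))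
    = R.comp (R.ltens LC.C (R.comp y (pl R a (p b) (q b)))) (jh R (LC.swapC V' (Zb b)))
  rw [R.assoc, ltens_comp, R.assoc]
  congr 1
  exact Like.eq (θ := a) ((hl (b + 1)).jh_comp (gv_swapC_perm V (Zb b)))
    (((hl b).ltens LC.C).comp_jh (gv_swapC_perm V' (Zb b)))

theorem Biv.gfV_zero (R : Biv) : Nonempty (R.gfV (Cn 0) ≅ R.gf) := by
  have hp : ∀ b, ∃ p : (Cn 0).prod (Zb b) ≃ₜ Zb b, IsPerm p := by
    intro b
    refine exists_isPerm (X := Cn 0 × Zb b) (Y := Zb b) ?_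
    rw [dm_prod, gv_dm_Cn, Nat.zero_add]
  choose p hp using hp
  refine gv_iso (fun b => R.fnIso (jh R (p b)) (jh R (p b).symm) (R.invP_homeo (p b)))
    fun b K => ?_
  ext y
  change R.comp (R.comp (R.ltens LC.C y) (jh R (LC.swapC (Cn 0) (Zb b)))) (jh R (p (b + 1)))
    = R.ltens LC.C (R.comp y (jh R (p b)))
  rw [R.assoc, ltens_comp, ltens_jh, ← jh_trans]
  congr 1
  exact IsPerm.jh_eq R ((gv_swapC_perm (Cn 0) (Zb b)).trans (hp (b + 1)))
    ((IsPerm.refl ℂ).prodCongr (hp b))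

theorem Biv.gfV_one (R : Biv) : Nonempty (R.gfV (Cn 1) ≅ R.gf.shift) := by
  have hp : ∀ b, ∃ p : (Cn 1).prod (Zb b) ≃ₜ Zb (b + 1), IsPerm p := by
    intro b
    refine exists_isPerm (X := Cn 1 × Zb b) (Y := Zb (b + 1)) ?_
    rw [dm_prod, gv_dm_Cn, dm_Zb, dm_Zb, Nat.add_comm]
  choose p hp using hp
  refine gv_iso (G := R.gfV (Cn 1)) (H := R.gf.shift)
    (fun b => R.fnIso (jh R (p b)) (jh R (p b).symm) (R.invP_homeo (p b))) fun b K => ?_
  ext y
  change R.comp (R.comp (R.ltens LC.C y) (jh R (LC.swapC (Cn 1) (Zb b)))) (jh R (p (b + 1)))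
    = R.ltens LC.C (R.comp y (jh R (p b)))
  rw [R.assoc, ltens_comp, ltens_jh, ← jh_trans]
  congr 1
  exact IsPerm.jh_eq R ((gv_swapC_perm (Cn 1) (Zb b)).trans (hp (b + 1)))
    ((IsPerm.refl ℂ).prodCongr (hp b))

end GfV

/-- (G1) the graded functor `R(K, ℂ^k × ℂ^b)` of a periodic theory -/
theorem Biv.gfV_par (R : Biv) (a : R.Hom (LC.C.prod LC.C) LC.point)
    (a' : R.Hom LC.point (LC.C.prod LC.C)) (h1 : R.comp a a' = R.J (PMap.id _))
    (h2 : R.comp a' a = R.J (PMap.id _)) (k : ℕ) :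
    Nonempty (R.gfV (Cn k) ≅ Helper84.Int.par R.gf k.bodd) := by
  induction k using Nat.twoStepInduction with
  | zero => exact R.gfV_zero
  | one => exact R.gfV_one
  | more k ih _ =>
    obtain ⟨e⟩ := ih
    obtain ⟨e'⟩ := R.gfV_step a a' ⟨h1, h2⟩ (Cn (k + 2)) (Cn k) (by rw [gv_dm_Cn, gv_dm_Cn])
    have h : (k + 2).bodd = k.bodd := by
      rw [Nat.bodd_succ, Nat.bodd_succ, Bool.not_not]
    rw [h]
    exact ⟨e' ≪≫ e⟩

/-- a morphism to a twisted graded functor -/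
def gfTo {R R' : Biv} (V : LC) (F : ∀ {K Z : LC}, R.Hom K Z → R'.Hom K (V.prod Z))
    (add : ∀ {K Z : LC} (x y : R.Hom K Z), F (x + y) = F x + F y)
    (pre : ∀ {K K' Z : LC} (f : PMap K' K.plus) (x : R.Hom K Z),
      F (R.comp (R.J f) x) = R'.comp (R'.J f) (F x))
    (susp : ∀ {K Z : LC} (x : R.Hom K Z),
      F (R.ltens LC.C x) = R'.comp (R'.ltens LC.C (F x)) (jh R' (LC.swapC V Z))) :
    R.gf ⟶ R'.gfV V :=
  GF.Hom.mk' (fun b =>
    { app := fun K => AddCommGrpCat.ofHom (AddMonoidHom.mk' (fun x : R.Hom K.unop.obj (Zb b) =>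
        (F x : R'.Hom K.unop.obj (V.prod (Zb b)))) add)
      naturality := fun X Y f => by
        ext y
        change F (R.comp (R.JH f.unop.hom) y) = R'.comp (R'.JH f.unop.hom) (F y)
        generalize f.unop.hom = z
        revert z
        refine HMap.ind fun z => ?_
        exact pre z y }) (fun b K => by
    ext y
    exact susp (Z := Zb b) y)

/-- a morphism from a twisted graded functor -/
def gfFrom {R R' : Biv} (V : LC) (F : ∀ {K Z : LC}, R.Hom K (V.prod Z) → R'.Hom K Z)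
    (add : ∀ {K Z : LC} (x y : R.Hom K (V.prod Z)), F (x + y) = F x + F y)
    (pre : ∀ {K K' Z : LC} (f : PMap K' K.plus) (x : R.Hom K (V.prod Z)),
      F (R.comp (R.J f) x) = R'.comp (R'.J f) (F x))
    (susp : ∀ {K Z : LC} (x : R.Hom K (V.prod Z)),
      F (R.comp (R.ltens LC.C x) (jh R (LC.swapC V Z))) = R'.ltens LC.C (F x)) :
    R.gfV V ⟶ R'.gf :=
  GF.Hom.mk' (fun b =>
    { app := fun K => AddCommGrpCat.ofHom (AddMonoidHom.mk'
        (fun x : R.Hom K.unop.obj (V.prod (Zb b)) => (F x : R'.Hom K.unop.obj (Zb b))) add)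
      naturality := fun X Y f => by
        ext y
        change F (R.comp (R.JH f.unop.hom) y) = R'.comp (R'.JH f.unop.hom) (F y)
        generalize f.unop.hom = z
        revert z
        refine HMap.ind fun z => ?_
        exact pre z y }) (fun b K => by
    ext y
    exact susp (Z := Zb b) y)

/-! ## The operators -/

namespace TE
variable {k : ℕ} {g : GenLoop (Fin 4) (Gr {1} k) (Gr.pt {1} k)} (A : TE g)

/-- the coefficient maps -/
def Cf (k : ℕ) {K Z : LC} (x : A.P.Hom K Z) : A.T.Hom K ((Cn k).prod Z) :=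
  (A.D.exists_C (by norm_num)).choose k x

/-- the operators `ψ_k` -/
def ψ (k : ℕ) {K Z : LC} (x : A.T.Hom K Z) : A.T.Hom K ((Cn k).prod Z) := A.Cf k (A.Ψ.F x)

theorem ψ_add (k : ℕ) {K Z : LC} (x y : A.T.Hom K Z) : A.ψ k (x + y) = A.ψ k x + A.ψ k y := by
  unfold ψ
  rw [A.Ψ.add]
  exact (A.D.exists_C (by norm_num)).choose_spec.1 k _ _

theorem ψ_pre (k : ℕ) {K K' Z : LC} (f : PMap K' K.plus) (x : A.T.Hom K Z) :
    A.ψ k (A.T.comp (A.T.J f) x) = A.T.comp (A.T.J f) (A.ψ k x) := by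
  unfold ψ
  rw [A.Ψ.comp, A.Ψ.J, ← A.P.inc_J]
  exact (A.D.exists_C (by norm_num)).choose_spec.2.2.2.2.1 k _ _

theorem ψ_post (k : ℕ) {K Z Z' : LC} (f : PMap Z Z'.plus) (x : A.T.Hom K Z) :
    A.ψ k (A.T.comp x (A.T.J f)) = A.T.comp (A.ψ k x) (A.T.ltens (Cn k) (A.T.J f)) := by
  unfold ψ
  rw [A.Ψ.comp, A.Ψ.J, ← A.P.inc_J]
  exact (A.D.exists_C (by norm_num)).choose_spec.2.2.2.2.2.1 k _ _

theorem ψ_tens (k : ℕ) {K Z : LC} (x : A.T.Hom K Z) (V : LC) :
    A.ψ k (A.T.tens x V) = A.T.comp (A.T.tens (A.ψ k x) V) (jh A.T.toBiv (ascH (Cn k) Z V)) := by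
  unfold ψ
  rw [A.Ψ.tens]
  exact (A.D.exists_C (by norm_num)).choose_spec.2.2.2.2.2.2.1 k _ _

theorem ψ_fin {K Z : LC} (x : A.T.Hom K Z) : ∃ N : ℕ, ∀ k, N ≤ k → A.ψ k x = 0 := by
  obtain ⟨N, hN, -⟩ := (A.D.exists_C (by norm_num)).choose_spec.2.1 (A.Ψ.F x)
  exact ⟨N, hN⟩

theorem _root_.Pool.Agent.Helper1.Stab.BivHom.act {R T : Biv} (F : BivHom R T) {V : LC}
    (x : R.Hom V LC.point) (Z : LC) : F.F (R.act x Z) = T.act (F.F x) Z := by
  unfold Biv.act
  rw [F.comp, F.tens]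
  exact congrArg _ (F.J _)

theorem _root_.Pool.Agent.Helper1.Stab.Biv.act_add (R : Biv) {V : LC}
    (x y : R.Hom V LC.point) (Z : LC) : R.act (x + y) Z = R.act x Z + R.act y Z := by
  unfold Biv.act
  rw [R.tens_add, R.add_comp]

theorem _root_.Pool.Agent.Helper1.Stab.Biv.act_zero (R : Biv) (V Z : LC) :
    R.act (0 : R.Hom V LC.point) Z = 0 := by
  unfold Biv.act
  rw [R.tens_zero, R.zero_comp]

theorem _root_.Pool.Agent.Helper1.Stab.Biv.act_id (R : Biv) (Z : LC) :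
    R.act (R.J (PMap.id LC.point)) Z = jh R (LC.lunit Z) := by
  unfold Biv.act
  rw [Pool.Agent.Helper63.Stab.tens_id, R.id_comp]

theorem _root_.Pool.Agent.Helper1.Stab.bpow_zero (T : Biv) (k : ℕ) :
    bpow T (0 : T.Hom LC.C LC.point) (k + 1) = 0 := by
  have h : T.comp (T.comp (T.tens (bpow T (0 : T.Hom LC.C LC.point) k) LC.C)
      (T.ltens LC.point (0 : T.Hom LC.C LC.point))) (T.J (PMap.ofHomeo (LC.lunit LC.point))) = 0 := by
    rw [T.ltens_zero, T.comp_zero, T.zero_comp]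
  exact h

/-- the augmentation of `Ψ` is the identity -/
theorem ψ_zero {K Z : LC} (x : A.T.Hom K Z) :
    A.ψ 0 x = A.T.comp x (jh A.T.toBiv (LC.lunit Z).symm) := by
  obtain ⟨Φ, hΦ, hb⟩ := A.P.exists_poly_hom A.o (BivHom.id A.T.toBiv) (fun _ => 0)
  have hΦβ : Φ.F A.D.β = 0 := by
    unfold MonoData.β
    rw [Φ.comp, hb 15 (by norm_num), A.T.comp_zero]
  have hΛ : ∀ {K Z : LC} (x : A.P.Hom K Z), Φ.F (A.D.Λ.F x) = Φ.F x := by
    intro K Z x
    refine A.P.poly_hom_ext A.o (A.D.Λ.trans Φ) Φ (fun x => ?_) (fun i hi => ?_) x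
    · exact congrArg Φ.F (A.D.inc x)
    · change Φ.F (A.D.Λ.F (A.P.b A.o i)) = _
      rw [hb i hi]
      by_cases h : i = 15
      · subst h
        rw [A.D.b, hb 15 hi]
      · rw [A.D.b_ne i hi h, Φ.map_zero]
  have h1 : ∀ {K Z : LC} (x : A.P.Hom K Z), Φ.F x =
      A.T.comp (A.Cf 0 x) (jh A.T.toBiv (LC.lunit Z)) := by
    intro K Z x
    obtain ⟨N, hN, hs⟩ := (A.D.exists_C (by norm_num)).choose_spec.2.1 x
    have hN' : ∀ k, N ≤ k → A.Cf k x = 0 := hN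
    have hs' : A.D.Λ.F x = ∑ k ∈ Finset.range N, A.P.term (A.Cf k x) (bpow A.P.toBiv A.D.β k) := hs
    rw [← hΛ, hs', Φ.map_sum]
    have h0 : ∀ k, Φ.F (A.P.term (A.Cf k x) (bpow A.P.toBiv A.D.β k)) =
        if k = 0 then A.T.comp (A.Cf 0 x) (jh A.T.toBiv (LC.lunit Z)) else 0 := by
      intro k
      rw [A.D.eval Φ (0 : A.T.Hom K Z) k (A.Cf k x), hΦβ]
      rcases k with _ | k
      · rw [if_pos rfl, hΦ]
        exact congrArg _ (A.T.toBiv.act_id Z)
      · rw [if_neg (Nat.succ_ne_zero k), bpow_zero, A.T.toBiv.act_zero, A.T.comp_zero]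
    rw [Finset.sum_congr rfl fun k _ => h0 k, Finset.sum_ite_eq' (Finset.range N) 0]
    by_cases hN0 : 0 < N
    · rw [if_pos (Finset.mem_range.2 hN0)]
    · rw [if_neg (fun h => hN0 (Finset.mem_range.1 h)), hN' 0 (by omega), A.T.zero_comp]
  have h2 : ∀ {K Z : LC} (x : A.T.Hom K Z), Φ.F (A.Ψ.F x) = x := by
    intro K Z x
    refine LocTheory.hom_ext two_pos (loopGK (loopToU g)) A.T A.a A.ha (A.Ψ.trans Φ)
      (BivHom.id A.T.toBiv) (fun n => ?_) x
    change Φ.F (A.Ψ.F (A.T.g (Fin n))) = A.T.g (Fin n)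
    rw [A.Ψ_g, BivHom.mulc, hΦ, hΛ, A.P.aug_g A.o Φ (fun i hi => hb i hi)]
    exact A.T.toGBiv.mul_one (A.T.g (Fin n))
  have h3 := h1 (A.Ψ.F x)
  rw [h2] at h3
  have h5 : ∀ c : A.T.Hom K (LC.point.prod Z), A.T.comp (A.T.comp c
      (jh A.T.toBiv (LC.lunit Z))) (jh A.T.toBiv (LC.lunit Z).symm) = c := by
    intro c
    rw [A.T.assoc, Pool.Agent.Helper63.Stab.jh_comp_symm', A.T.comp_id]
  have h4 : A.T.comp (A.T.comp (A.Cf 0 (A.Ψ.F x) : A.T.Hom K (LC.point.prod Z))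
      (jh A.T.toBiv (LC.lunit Z))) (jh A.T.toBiv (LC.lunit Z).symm) = A.Cf 0 (A.Ψ.F x) :=
    h5 (A.Cf 0 (A.Ψ.F x))
  exact h4.symm.trans (congrArg (fun t => A.T.comp t (jh A.T.toBiv (LC.lunit Z).symm)) h3.symm)

theorem ψ_y (k : ℕ) {K Z : LC} (x : A.T.Hom K (LC.C.prod Z)) :
    A.ψ (k + 1) (A.T.comp x (A.T.toBiv.act A.y Z)) =
      A.T.comp (A.ψ (k + 1) x) (A.T.ltens (Cn (k + 1)) (A.T.toBiv.act A.y Z)) +
      A.T.comp (A.ψ k x) (jh A.T.toBiv (K := (Cn k).prod (LC.C.prod Z))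
        (L := (Cn (k + 1)).prod Z) (ascH (Cn k) LC.C Z).symm) := by
  obtain ⟨c1, -, -, -, -, c6, -, -, c9, -, -, -⟩ := (A.D.exists_C (by norm_num)).choose_spec
  unfold ψ
  rw [A.Ψ.comp, A.Ψ.act, A.Ψ_y, A.P.toBiv.act_add, A.P.comp_add]
  have h1 : A.P.toBiv.act (A.P.inc A.y) Z = A.P.inc (A.T.toBiv.act A.y Z) :=
    (A.P.incHom.act A.y Z).symm
  rw [h1]
  exact (c1 (k + 1) _ _).trans (congrArg₂ (· + ·) (c6 (k + 1) _ _) (c9 k _))

end TE

end Pool.Agent.Helper1.Stab
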