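import Pool.Agent.Helper1.Stab.T.Sys

/-! Project T, layer 3: the final data. -/

open CategoryTheory Topology Filter Set Opposite

noncomputable section

namespace Pool.Agent.Helper1.Stab

open Pool.Agent.Helper63.Stab (jh pl rp lp tens_pl ltens_pl jh_pl pl_jh pl_congr pl_comp tens_eq_pl
  ltens_eq_pl eq_pl jh_refl_comp jh_trans jh_congr tens_tens_eq_pl tens_jh jh_comp_symm
  jh_symm_comp jh_comp_symm' jh_symm_comp' jh_square ltens_jh)

section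
variable (R : Biv)

theorem Biv.act_pl {A : LC} (x : R.Hom A LC.point) (Z : LC) :
    R.act x Z = pl R x (Homeomorph.refl (A.prod Z)) (LC.lunit Z).symm := by
  unfold Biv.act pl
  rw [jh_refl_comp]
  rfl

/-- an action after a placed class at the same position -/
theorem Biv.act_bpow_succ (y : R.Hom LC.C LC.point) (l : ℕ) (Z : LC) :
    R.act (bpow R y (l + 1)) Z = R.comp (jh R (K := (Cn (l + 1)).prod Z)
      (L := (Cn l).prod (LC.C.prod Z)) (ascH (Cn l) LC.C Z))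
      (R.comp (R.act (bpow R y l) (LC.C.prod Z)) (R.act y Z)) := by
  have h1 : R.act (bpow R y (l + 1)) Z = R.comp (R.comp (R.comp (R.tens (R.tens (bpow R y l) LC.C) Z)
      (R.tens (R.ltens LC.point y) Z)) (R.tens (jh R (LC.lunit LC.point)) Z)) (jh R (LC.lunit Z)) := by
    unfold Biv.act
    congr 1
    change R.tens (R.comp (R.comp (R.tens (bpow R y l) LC.C) (R.ltens LC.point y))
      (jh R (LC.lunit LC.point))) Z = _
    rw [R.tens_comp, R.tens_comp]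
  have h2 : R.comp (R.tens (R.ltens LC.point y) Z) (R.comp (R.tens (jh R (LC.lunit LC.point)) Z)
      (jh R (LC.lunit Z))) = R.comp (jh R (K := (LC.point.prod LC.C).prod Z) (L := LC.C.prod Z)
        ((LC.lunit LC.C).prodCongr (Homeomorph.refl Z))) (R.act y Z) := by
    rw [R.act_pl, jh_pl, ltens_eq_pl, tens_pl, tens_jh, ← jh_trans, pl_jh]
    exact pl_congr y (LC.lunit Z).symm _ _ _ _ (fun m => rfl) (fun n => rfl)
  have h3 : R.comp (R.tens (R.tens (bpow R y l) LC.C) Z) (jh R (K := (LC.point.prod LC.C).prod Z)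
      (L := LC.C.prod Z) ((LC.lunit LC.C).prodCongr (Homeomorph.refl Z))) =
      R.comp (jh R (K := ((Cn l).prod LC.C).prod Z) (ascH (Cn l) LC.C Z))
        (R.act (bpow R y l) (LC.C.prod Z)) := by
    rw [R.act_pl, jh_pl, tens_tens_eq_pl, pl_jh]
    exact pl_congr (bpow R y l) (Homeomorph.refl _) _ _ _ _ (fun m => rfl) (fun n => rfl)
  rw [h1, R.assoc, R.assoc, h2, ← R.assoc, h3, R.assoc]
  rfl

theorem Biv.swapC_act {V : LC} (y : R.Hom V LC.point) (Z : LC) :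
    R.comp (jh R (LC.swapC V Z)) (R.act y (LC.C.prod Z)) = R.ltens LC.C (R.act y Z) := by
  rw [R.act_pl, R.act_pl, jh_pl, ltens_pl]
  exact pl_congr y (Homeomorph.refl _) _ _ _ _ (fun m => rfl) (fun n => rfl)

end

theorem NTr.com_comp {T : Biv} {O : NTr T T} {Z Z' : LC} {z : T.Hom Z Z'} (h : O.Com z) {K : LC}
    (x : T.Hom K Z) : O.F (T.comp x z) = T.comp (O.F x) z := by
  have h1 : T.comp x z = T.comp (T.comp (T.comp x (jh T (Homeomorph.prodPUnit Z).symm))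
      (T.tens z LC.point)) (jh T (Homeomorph.prodPUnit Z')) := by
    rw [T.assoc, T.assoc]
    exact congrArg _ (eq_pl z)
  have h2 : T.comp (O.F x) z = T.comp (T.comp (T.comp (O.F x) (jh T (Homeomorph.prodPUnit Z).symm))
      (T.tens z LC.point)) (jh T (Homeomorph.prodPUnit Z')) := by
    rw [T.assoc, T.assoc]
    exact congrArg _ (eq_pl z)
  rw [h1, h2]
  have h3 := O.post (PMap.ofHomeo (Homeomorph.prodPUnit Z' : Z'.prod LC.point ≃ₜ Z'))
    (T.comp (T.comp x (jh T (Homeomorph.prodPUnit Z).symm)) (T.tens z LC.point))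
  refine h3.trans (congrArg (fun t => T.comp t _) ?_)
  rw [h]
  exact congrArg (fun t => T.comp t _) (O.post _ x)

namespace TE
variable {k : ℕ} {g : GenLoop (Fin 4) (Gr {1} k) (Gr.pt {1} k)} (A : TE g)

theorem ψ_ltens (k : ℕ) {K Z : LC} (x : A.T.Hom K Z) :
    A.ψ k (A.T.ltens LC.C x) =
      A.T.comp (A.T.ltens LC.C (A.ψ k x)) (jh A.T.toBiv (LC.swapC (Cn k) Z)) := by
  have h0 : A.T.ltens LC.C x = A.T.comp (A.T.J (PMap.ofHomeo (LC.swap LC.C K)))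
    (A.T.comp (A.T.tens x LC.C) (A.T.J (PMap.ofHomeo (LC.swap Z LC.C)))) := rfl
  rw [h0, A.ψ_pre, A.ψ_post, A.ψ_tens]
  have h1 : A.T.ltens LC.C (A.ψ k x) = A.T.comp (A.T.J (PMap.ofHomeo (LC.swap LC.C K)))
    (A.T.comp (A.T.tens (A.ψ k x) LC.C) (jh A.T.toBiv (LC.swap ((Cn k).prod Z) LC.C))) := rfl
  rw [h1, A.T.assoc, A.T.assoc, A.T.assoc]
  congr 2
  have h2 : A.T.ltens (Cn k) (A.T.J (PMap.ofHomeo (LC.swap Z LC.C))) =
    jh A.T.toBiv (K := (Cn k).prod (Z.prod LC.C)) (L := (Cn k).prod (LC.C.prod Z))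
      ((Homeomorph.refl (Cn k)).prodCongr (LC.swap Z LC.C)) := ltens_jh A.T.toBiv _ _
  rw [h2]
  exact jh_square A.T.toBiv fun m => rfl

/-- the operators `x ↦ e ϖ ψ_k x` -/
def Rk (k : ℕ) {K Z : LC} (x : A.T.Hom K Z) : A.T.Hom K ((Cn k).prod Z) :=
  A.e.F (A.ϖ.F (A.ψ k x))

theorem Rk_mem (k : ℕ) {K Z : LC} (x : A.T.Hom K Z) : A.S'.p (A.Rk k x) := A.S'.mem _

theorem com_act_y (Z : LC) : A.ϖ.Com (A.T.act A.y Z) :=
  (good_com A.ϖ).comp _ _ ((good_com A.ϖ).tens _ _ A.ϖ_y) ((good_com A.ϖ).J _)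

theorem com_ltens (V : LC) {K Z : LC} (x : A.T.Hom K Z) (h : A.ϖ.Com x) :
    A.ϖ.Com (A.T.ltens V x) :=
  (good_com A.ϖ).comp _ _ ((good_com A.ϖ).J _)
    ((good_com A.ϖ).comp _ _ ((good_com A.ϖ).tens _ _ h) ((good_com A.ϖ).J _))

theorem com_bpow (l : ℕ) : A.ϖ.Com (bpow A.T.toBiv A.y l) := by
  induction l with
  | zero => exact (good_com A.ϖ).J _
  | succ l ih =>
    exact (good_com A.ϖ).comp _ _ ((good_com A.ϖ).comp _ _ ((good_com A.ϖ).tens _ _ ih)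
      (A.com_ltens _ _ A.ϖ_y)) ((good_com A.ϖ).J _)

theorem com_act_bpow (l : ℕ) (Z : LC) : A.ϖ.Com (A.T.act (bpow A.T.toBiv A.y l) Z) :=
  (good_com A.ϖ).comp _ _ ((good_com A.ϖ).tens _ _ (A.com_bpow l)) ((good_com A.ϖ).J _)

theorem e_act_y (Z : LC) : A.e.F (A.T.act A.y Z) = 0 := by
  rw [A.e.act, A.e_y, A.T.toBiv.act_zero]

/-- the element `x y^l` -/
def Yl (l : ℕ) {K Z : LC} (x : A.T.Hom K ((Cn l).prod Z)) : A.T.Hom K Z :=
  A.T.comp x (A.T.act (bpow A.T.toBiv A.y l) Z)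

theorem Yl_succ (l : ℕ) {K Z : LC} (x : A.T.Hom K ((Cn (l + 1)).prod Z)) :
    A.Yl (l + 1) x = A.T.comp (A.Yl l (A.T.comp x (jh A.T.toBiv (K := (Cn (l + 1)).prod Z)
      (L := (Cn l).prod (LC.C.prod Z)) (ascH (Cn l) LC.C Z)))) (A.T.act A.y Z) := by
  unfold Yl
  rw [A.T.toBiv.act_bpow_succ, A.T.assoc, A.T.assoc]

theorem eϖ_y {K Z : LC} (x : A.T.Hom K (LC.C.prod Z)) :
    A.e.F (A.ϖ.F (A.T.comp x (A.T.act A.y Z))) = 0 := by
  rw [NTr.com_comp (A.com_act_y Z), A.e.comp, A.e_act_y, A.T.comp_zero]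

theorem Rk_y_zero {K Z : LC} (x : A.T.Hom K (LC.C.prod Z)) :
    A.Rk 0 (A.T.comp x (A.T.act A.y Z)) = 0 := by
  unfold Rk
  rw [A.ψ_zero]
  have h := A.ϖ.post (PMap.ofHomeo (LC.lunit Z).symm) (A.T.comp x (A.T.act A.y Z))
  refine (congrArg A.e.F h).trans ?_
  rw [A.e.comp, A.eϖ_y, A.T.zero_comp]
  rfl

theorem Rk_y_succ (k : ℕ) {K Z : LC} (x : A.T.Hom K (LC.C.prod Z)) :
    A.Rk (k + 1) (A.T.comp x (A.T.act A.y Z)) =
      A.T.comp (A.Rk k x) (jh A.T.toBiv (K := (Cn k).prod (LC.C.prod Z))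
        (L := (Cn (k + 1)).prod Z) (ascH (Cn k) LC.C Z).symm) := by
  unfold Rk
  rw [A.ψ_y, A.ϖ.add, A.e.add, NTr.com_comp (A.com_ltens (Cn (k + 1)) _ (A.com_act_y Z)), A.e.comp,
    A.e.ltens, A.e_act_y, A.T.ltens_zero, A.T.comp_zero, zero_add]
  have h := A.ϖ.post (PMap.ofHomeo (K := (Cn k).prod (LC.C.prod Z))
        (L := (Cn (k + 1)).prod Z) (ascH (Cn k) LC.C Z).symm) (A.ψ k x)
  refine (congrArg A.e.F h).trans ?_
  rw [A.e.comp]
  exact congrArg _ (A.e.J _)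

/-- the triangular structure -/
theorem Rk_Yl (l : ℕ) : ∀ {K Z : LC} (x : A.T.Hom K ((Cn l).prod Z)),
    (∀ k < l, A.Rk k (A.Yl l x) = 0) ∧ A.Rk l (A.Yl l x) = A.e.F (A.ϖ.F x) := by
  induction l with
  | zero =>
    intro K Z x
    refine ⟨fun k hk => absurd hk (Nat.not_lt_zero k), ?_⟩
    have h1 : ∀ z : A.T.Hom K (LC.point.prod Z), A.T.comp (A.T.comp z (A.T.act
        (A.T.J (PMap.id LC.point)) Z)) (jh A.T.toBiv (LC.lunit Z).symm) = z := by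
      intro z
      rw [A.T.toBiv.act_id, A.T.assoc, jh_comp_symm', A.T.comp_id]
    unfold Rk
    rw [A.ψ_zero]
    exact congrArg (fun t => A.e.F (A.ϖ.F t)) (h1 x)
  | succ l ih =>
    intro K Z x
    obtain ⟨h1, h2⟩ := ih (A.T.comp x (jh A.T.toBiv (K := (Cn (l + 1)).prod Z)
      (L := (Cn l).prod (LC.C.prod Z)) (ascH (Cn l) LC.C Z)))
    refine ⟨fun k hk => ?_, ?_⟩
    · rw [A.Yl_succ]
      rcases k with _ | k
      · exact A.Rk_y_zero _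
      · rw [A.Rk_y_succ, h1 k (by omega), A.T.zero_comp]
    · rw [A.Yl_succ, A.Rk_y_succ, h2]
      have h := A.ϖ.post (PMap.ofHomeo (K := (Cn (l + 1)).prod Z)
        (L := (Cn l).prod (LC.C.prod Z)) (ascH (Cn l) LC.C Z)) x
      have h3 : A.e.F (A.ϖ.F (A.T.comp x (jh A.T.toBiv (K := (Cn (l + 1)).prod Z)
          (L := (Cn l).prod (LC.C.prod Z)) (ascH (Cn l) LC.C Z)))) =
          A.T.comp (A.e.F (A.ϖ.F x)) (jh A.T.toBiv (K := (Cn (l + 1)).prod Z)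
          (L := (Cn l).prod (LC.C.prod Z)) (ascH (Cn l) LC.C Z)) := by
        refine (congrArg A.e.F h).trans ?_
        rw [A.e.comp]
        exact congrArg _ (A.e.J _)
      have h4 : A.T.comp (jh A.T.toBiv (K := (Cn (l + 1)).prod Z)
          (L := (Cn l).prod (LC.C.prod Z)) (ascH (Cn l) LC.C Z))
          (jh A.T.toBiv (K := (Cn l).prod (LC.C.prod Z)) (L := (Cn (l + 1)).prod Z)
          (ascH (Cn l) LC.C Z).symm) = A.T.J (PMap.id ((Cn (l + 1)).prod Z)) :=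
        jh_comp_symm' A.T.toBiv (K := (Cn (l + 1)).prod Z)
          (L := (Cn l).prod (LC.C.prod Z)) (ascH (Cn l) LC.C Z)
      rw [h3, A.T.assoc]
      exact (congrArg _ h4).trans (A.T.comp_id _)

/-! ## The morphisms of graded functors -/

/-- the projections -/
def rk (k : ℕ) : A.S.biv.gf ⟶ A.S'.biv.gfV (Cn k) :=
  gfTo (R := A.S.biv) (R' := A.S'.biv) (Cn k)
    (fun {K Z} x => (⟨A.Rk k x.1, A.Rk_mem k x.1⟩ : A.S'.biv.Hom K ((Cn k).prod Z)))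
    (fun x y => Subtype.ext (by
      change A.Rk k (x.1 + y.1) = A.Rk k x.1 + A.Rk k y.1
      unfold Rk
      rw [A.ψ_add, A.ϖ.add, A.e.add]))
    (fun f x => Subtype.ext (by
      change A.Rk k (A.T.comp (A.T.J f) x.1) = A.T.comp (A.T.J f) (A.Rk k x.1)
      unfold Rk
      rw [A.ψ_pre, A.ϖ.pre, A.e.comp, A.e.J]))
    (fun {K Z} x => Subtype.ext (by
      change A.Rk k (A.T.ltens LC.C x.1) = A.T.comp (A.T.ltens LC.C (A.Rk k x.1))
        (jh A.T.toBiv (LC.swapC (Cn k) Z))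
      unfold Rk
      rw [A.ψ_ltens]
      have h := A.ϖ.post (PMap.ofHomeo (LC.swapC (Cn k) Z)) (A.T.ltens LC.C (A.ψ k x.1))
      refine (congrArg A.e.F h).trans ?_
      rw [A.e.comp, A.ϖ.ltens, A.e.ltens]
      exact congrArg _ (A.e.J _)))

/-- the inclusions -/
def ik (k : ℕ) : A.S'.biv.gfV (Cn k) ⟶ A.S.biv.gf :=
  gfFrom (R := A.S'.biv) (R' := A.S.biv) (Cn k)
    (fun {K Z} x => (⟨A.Yl k x.1, (good_com A.ϖ).comp _ _ x.2.1 (A.com_act_bpow k Z)⟩ :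
      A.S.biv.Hom K Z))
    (fun x y => Subtype.ext (A.T.add_comp _ _ _))
    (fun f x => Subtype.ext (A.T.assoc _ _ _))
    (fun {K Z} x => Subtype.ext (by
      change A.T.comp (A.T.comp (A.T.ltens LC.C x.1) (jh A.T.toBiv (LC.swapC (Cn k) Z)))
        (A.T.act (bpow A.T.toBiv A.y k) (LC.C.prod Z)) = A.T.ltens LC.C (A.T.comp x.1
          (A.T.act (bpow A.T.toBiv A.y k) Z))
      rw [A.T.assoc, A.T.toBiv.swapC_act, Pool.Agent.Helper63.Stab.ltens_comp]))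

theorem ik_rk (k : ℕ) : A.ik k ≫ A.rk k = 𝟙 _ :=
  Helper84.Int.ext_evm fun b K x => Subtype.ext (by
    have h := (A.Rk_Yl k (K := K.obj) (Z := Zb b) x.1).2
    refine h.trans ?_
    exact A.S'.fix x.1 x.2)

theorem ik_rk_ne (k l : ℕ) (h : k < l) : A.ik l ≫ A.rk k = 0 :=
  Helper84.Int.ext_evm fun b K x => Subtype.ext ((A.Rk_Yl l (K := K.obj) (Z := Zb b) x.1).1 k h)

theorem rk_lf : Helper84.Int.LF A.rk := by
  intro b K x
  obtain ⟨N, hN⟩ := A.ψ_fin (K := K.obj) (Z := Zb b) x.1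
  refine ⟨Finset.range N, fun i hi => Subtype.ext ?_⟩
  change A.Rk i (K := K.obj) (Z := Zb b) x.1 = 0
  unfold Rk
  rw [hN i (by simpa using hi), A.ϖ.map_zero, A.e.map_zero]

/-! ## Periodicity of `S'` -/

theorem com_a : A.ϖ.Com A.a := NTr.com_of_lin A.ϖ A.a A.ϖ_lin

theorem com_a' : A.ϖ.Com A.a' :=
  (good_com A.ϖ).split A.a A.a' A.com_a (by rw [A.aa']; exact (good_com A.ϖ).J _) A.a'a

theorem e_a' : A.e.F A.a' = A.a' :=
  (good_eq A.e (BivHom.id A.T.toBiv)).split A.a A.a' A.e_a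
    (by rw [A.aa']; exact (good_eq A.e (BivHom.id A.T.toBiv)).J _) A.a'a

/-- the class `a` as a class of `ℂ × ℂ` -/
def a2 : A.S'.biv.Hom (LC.C.prod LC.C) LC.point :=
  ⟨A.T.comp (jh A.T.toBiv (K := LC.C.prod LC.C) (L := LC.cpow (Fin 2)) twoC27) A.a,
    (good_com A.ϖ).comp _ _ ((good_com A.ϖ).J _) A.com_a, by
      rw [A.e.comp, A.e_a]
      exact congrArg (fun t => A.T.comp t A.a) (A.e.J _)⟩

/-- its inverse -/
def a2' : A.S'.biv.Hom LC.point (LC.C.prod LC.C) :=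
  ⟨A.T.comp A.a' (jh A.T.toBiv (K := LC.cpow (Fin 2)) (L := LC.C.prod LC.C) twoC27.symm),
    (good_com A.ϖ).comp _ _ A.com_a' ((good_com A.ϖ).J _), by
      rw [A.e.comp, A.e_a']
      exact congrArg (fun t => A.T.comp A.a' t) (A.e.J _)⟩

theorem a2_a2' : A.S'.biv.comp A.a2 A.a2' = A.S'.biv.J (PMap.id _) :=
  Subtype.ext (by
    change A.T.comp (A.T.comp (jh A.T.toBiv (K := LC.C.prod LC.C) (L := LC.cpow (Fin 2)) twoC27) A.a)
      (A.T.comp A.a' (jh A.T.toBiv (K := LC.cpow (Fin 2)) (L := LC.C.prod LC.C) twoC27.symm)) =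
      A.T.J (PMap.id (LC.C.prod LC.C))
    rw [A.T.assoc, ← A.T.assoc A.a, A.aa', A.T.id_comp]
    exact jh_comp_symm' A.T.toBiv (K := LC.C.prod LC.C) (L := LC.cpow (Fin 2)) twoC27)

theorem a2'_a2 : A.S'.biv.comp A.a2' A.a2 = A.S'.biv.J (PMap.id _) :=
  Subtype.ext (by
    change A.T.comp (A.T.comp A.a' (jh A.T.toBiv (K := LC.cpow (Fin 2)) (L := LC.C.prod LC.C)
      twoC27.symm)) (A.T.comp (jh A.T.toBiv (K := LC.C.prod LC.C) (L := LC.cpow (Fin 2)) twoC27)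
      A.a) = A.T.J (PMap.id LC.point)
    have h := jh_symm_comp A.T.toBiv (K := LC.C.prod LC.C) (L := LC.cpow (Fin 2)) twoC27 A.a
    rw [A.T.assoc]
    exact (congrArg _ h).trans A.a'a)

/-- the summands are `S'` or its shift -/
theorem gfV_iso (k : ℕ) :
    Nonempty (A.S'.biv.gfV (Cn k) ≅ Helper84.Int.par A.S'.biv.gf k.bodd) :=
  A.S'.biv.gfV_par A.a2 A.a2' A.a2_a2' A.a2'_a2 k

/-- the graded functor of `S` is the one of the spectrum -/
theorem S_iso : Nonempty (A.S.biv.gf ≅ hP.obj (SBSU g)) := by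
  obtain ⟨i, r, h1, h2⟩ := bsu_pi two_pos g A.T A.a A.ha A.ϖ A.ϖ_g A.ϖ_lin
  refine ⟨⟨A.S.inc.ntr.gf ≫ r, i ≫ A.S.ret.gf, ?_, ?_⟩⟩
  · calc (A.S.inc.ntr.gf ≫ r) ≫ i ≫ A.S.ret.gf = A.S.inc.ntr.gf ≫ (r ≫ i) ≫ A.S.ret.gf := by
          simp only [Category.assoc]
      _ = A.S.inc.ntr.gf ≫ (A.S.ret.gf ≫ A.S.inc.ntr.gf) ≫ A.S.ret.gf := by
          rw [h2, A.S.ret_inc]
          rfl
      _ = (A.S.inc.ntr.gf ≫ A.S.ret.gf) ≫ A.S.inc.ntr.gf ≫ A.S.ret.gf := by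
          simp only [Category.assoc]
      _ = 𝟙 _ := by rw [A.S.inc_ret, Category.comp_id]
  · calc (i ≫ A.S.ret.gf) ≫ A.S.inc.ntr.gf ≫ r = i ≫ (A.S.ret.gf ≫ A.S.inc.ntr.gf) ≫ r := by
          simp only [Category.assoc]
      _ = i ≫ (r ≫ i) ≫ r := by
          rw [h2, A.S.ret_inc]
          rfl
      _ = (i ≫ r) ≫ i ≫ r := by simp only [Category.assoc]
      _ = 𝟙 _ := by
          rw [h1]
          exact Category.comp_id _

/-- the data of the sparse trick -/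
theorem exists_data : ∃ (Z : ℕ → GF) (i : ∀ k, Z k ⟶ A.S.biv.gf) (r : ∀ k, A.S.biv.gf ⟶ Z k),
    (∀ k, i k ≫ r k = 𝟙 _) ∧ (∀ k l, k < l → i l ≫ r k = 0) ∧ Helper84.Int.LF r ∧
      ∀ k, Nonempty (Z k ≅ Helper84.Int.par A.S'.biv.gf k.bodd) :=
  ⟨fun k => A.S'.biv.gfV (Cn k), A.ik, A.rk, A.ik_rk, A.ik_rk_ne, A.rk_lf, A.gfV_iso⟩

end TE

end Pool.Agent.Helper1.Stab
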